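import Pool.Agent.Helper20.PR.Base
import Pool.Graph.R_pool_sql_team_seeded_3997aac3.Q139.SC.FORM

/-!
# Module ACT of project PR (helper84): the action on the part of `chi0` is symplectic

By an extension of `(ℤ^{2n} ⋊ ±1) × ℤ^{2n+2}` by `ℤ` (Heisenberg groups).
-/

set_option autoImplicit false

namespace Pool.Agent.Helper20.PR.Act

open Pool.Agent.H29R2.MG Pool.Agent.Q290.SC Matrix
open Pool.Agent.Q139.SC (mm mm_sub bas el el_apply JJ JJ_sq JJ_lr mat mm_el mat_bas form_eq hc_gen)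

/-- the Heisenberg group -/
@[ext] structure Hx {n : ℕ} (β : VV n →ₗ[ℤ] VV n →ₗ[ℤ] ℤ)
    (γ : VV (n + 1) →ₗ[ℤ] VV (n + 1) →ₗ[ℤ] ℤ) where
  v : VV n
  y : VV (n + 1)
  s : ℤ
  e : ℤˣ

theorem uu (e : ℤˣ) : (e : ℤ) * (e : ℤ) = 1 := by
  rw [← Units.val_mul, Int.units_mul_self, Units.val_one]

namespace Hx

variable {n : ℕ} {β : VV n →ₗ[ℤ] VV n →ₗ[ℤ] ℤ} {γ : VV (n + 1) →ₗ[ℤ] VV (n + 1) →ₗ[ℤ] ℤ}

instance : Mul (Hx β γ) := ⟨fun a b => ⟨a.v + (a.e : ℤ) • b.v, a.y + b.y,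
  a.s + b.s + (a.e : ℤ) * β a.v b.v + γ a.y b.y, a.e * b.e⟩⟩
instance : One (Hx β γ) := ⟨⟨0, 0, 0, 1⟩⟩
instance : Inv (Hx β γ) := ⟨fun a => ⟨-((a.e : ℤ) • a.v), -a.y, -a.s + β a.v a.v + γ a.y a.y, a.e⟩⟩

theorem mul_v (a b : Hx β γ) : (a * b).v = a.v + (a.e : ℤ) • b.v := rfl
theorem mul_y (a b : Hx β γ) : (a * b).y = a.y + b.y := rfl
theorem mul_s (a b : Hx β γ) : (a * b).s = a.s + b.s + (a.e : ℤ) * β a.v b.v + γ a.y b.y := rfl
theorem mul_e (a b : Hx β γ) : (a * b).e = a.e * b.e := rfl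
theorem one_v : (1 : Hx β γ).v = 0 := rfl
theorem one_y : (1 : Hx β γ).y = 0 := rfl
theorem one_s : (1 : Hx β γ).s = 0 := rfl
theorem one_e : (1 : Hx β γ).e = 1 := rfl
theorem inv_v (a : Hx β γ) : (a⁻¹).v = -((a.e : ℤ) • a.v) := rfl
theorem inv_y (a : Hx β γ) : (a⁻¹).y = -a.y := rfl
theorem inv_s (a : Hx β γ) : (a⁻¹).s = -a.s + β a.v a.v + γ a.y a.y := rfl
theorem inv_e (a : Hx β γ) : (a⁻¹).e = a.e := rfl

instance : Group (Hx β γ) :=
  Group.ofLeftAxioms
    (fun a b c => by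
      apply Hx.ext
      · simp only [mul_v, mul_e, Units.val_mul, smul_add, smul_smul, add_assoc]
      · simp only [mul_y, add_assoc]
      · simp only [mul_v, mul_y, mul_s, mul_e, Units.val_mul, map_add, map_smul,
          LinearMap.add_apply, LinearMap.smul_apply, smul_eq_mul]
        linear_combination (b.e : ℤ) * β b.v c.v * uu a.e
      · simp only [mul_e, mul_assoc])
    (fun a => by
      apply Hx.ext
      · simp only [mul_v, one_v, one_e, Units.val_one, one_smul, zero_add]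
      · simp only [mul_y, one_y, zero_add]
      · simp only [mul_s, one_v, one_y, one_s, one_e, map_zero, LinearMap.zero_apply, mul_zero,
          zero_add, add_zero]
      · simp only [mul_e, one_e, one_mul])
    (fun a => by
      apply Hx.ext
      · simp only [mul_v, inv_v, inv_e, one_v, neg_add_cancel]
      · simp only [mul_y, inv_y, one_y, neg_add_cancel]
      · simp only [mul_s, inv_v, inv_y, inv_s, inv_e, one_s, map_neg, map_smul, LinearMap.neg_apply,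
          LinearMap.smul_apply, smul_eq_mul]
        linear_combination (-β a.v a.v) * uu a.e
      · simp only [mul_e, inv_e, one_e, Int.units_mul_self])

/-- the centre -/
def cen : Multiplicative ℤ →* Hx β γ where
  toFun c := ⟨0, 0, c.toAdd, 1⟩
  map_one' := rfl
  map_mul' a b := by
    apply Hx.ext
    · simp only [mul_v, smul_zero, add_zero]
    · simp only [mul_y, add_zero]
    · simp only [mul_s, map_zero, mul_zero, add_zero, toAdd_mul]
    · simp only [mul_e, mul_one]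

theorem comm4 (a b : Hx β γ) (ha : a.e = 1) (hb : (b.e : ℤ) • a.v = a.v) :
    a * b * a⁻¹ * b⁻¹ = cen (Multiplicative.ofAdd ((β a.v b.v - β b.v a.v) +
      (γ a.y b.y - γ b.y a.y))) := by
  have h : a * b = cen (Multiplicative.ofAdd ((β a.v b.v - β b.v a.v) +
      (γ a.y b.y - γ b.y a.y))) * (b * a) := by
    have hb2 : (b.e : ℤ) * β b.v a.v = β b.v a.v := by
      conv_rhs => rw [← hb, map_smul, smul_eq_mul]
    apply Hx.ext
    · rw [mul_v, mul_v, mul_v, hb, ha]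
      show a.v + ((1 : ℤˣ) : ℤ) • b.v = 0 + ((1 : ℤˣ) : ℤ) • (b.v + a.v)
      rw [Units.val_one, one_smul, one_smul, zero_add, add_comm a.v b.v]
    · rw [mul_y, mul_y, mul_y]
      show a.y + b.y = 0 + (b.y + a.y)
      rw [zero_add, add_comm a.y b.y]
    · rw [mul_s, mul_s, mul_s, hb2, ha]
      show a.s + b.s + ((1 : ℤˣ) : ℤ) * β a.v b.v + γ a.y b.y =
        ((β a.v b.v - β b.v a.v) + (γ a.y b.y - γ b.y a.y)) +
        (b.s + a.s + β b.v a.v + γ b.y a.y) + ((1 : ℤˣ) : ℤ) * β 0 (b * a).v + γ 0 (b * a).y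
      rw [map_zero, map_zero, LinearMap.zero_apply, LinearMap.zero_apply, Units.val_one]
      ring
    · rw [mul_e, mul_e, mul_e, ha]
      show 1 * b.e = 1 * (b.e * 1)
      rw [mul_one]
  rw [h]
  group

theorem lift_relator (f : Fin (n + 1) ⊕ Fin (n + 1) → Hx β γ) (h1 : ∀ i, (f (Sum.inl i)).e = 1)
    (h2 : ∀ i, ((f (Sum.inr i)).e : ℤ) • (f (Sum.inl i)).v = (f (Sum.inl i)).v) :
    FreeGroup.lift f (surfaceRelator (n + 1)) =
    cen (Multiplicative.ofAdd (∑ i : Fin (n + 1), ((β (f (Sum.inl i)).v (f (Sum.inr i)).v -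
      β (f (Sum.inr i)).v (f (Sum.inl i)).v) + (γ (f (Sum.inl i)).y (f (Sum.inr i)).y -
      γ (f (Sum.inr i)).y (f (Sum.inl i)).y)))) := by
  unfold surfaceRelator
  rw [map_list_prod, List.map_ofFn]
  have e : (⇑(FreeGroup.lift f) ∘ fun i : Fin (n + 1) =>
      FreeGroup.of (Sum.inl i) * FreeGroup.of (Sum.inr i) * (FreeGroup.of (Sum.inl i))⁻¹ *
        (FreeGroup.of (Sum.inr i))⁻¹) = (⇑(cen (β := β) (γ := γ)) ∘ fun i : Fin (n + 1) =>
      Multiplicative.ofAdd ((β (f (Sum.inl i)).v (f (Sum.inr i)).v -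
        β (f (Sum.inr i)).v (f (Sum.inl i)).v) + (γ (f (Sum.inl i)).y (f (Sum.inr i)).y -
      γ (f (Sum.inr i)).y (f (Sum.inl i)).y))) := by
    funext i
    simp only [Function.comp_apply, map_mul, map_inv, FreeGroup.lift_apply_of]
    exact comm4 _ _ (h1 i) (h2 i)
  rw [e, ← List.map_ofFn, ← map_list_prod, List.prod_ofFn, ofAdd_sum]

end Hx

theorem gen_ind {g : ℕ} {P : SurfaceGroup g → Prop} (h1 : P 1) (hg : ∀ j, P (gen j))
    (hm : ∀ x y, P x → P y → P (x * y)) (hi : ∀ x, P x → P x⁻¹) (x : SurfaceGroup g) : P x := by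
  obtain ⟨w, rfl⟩ := mk_surjective g x
  induction w using FreeGroup.induction_on with
  | C1 => rw [map_one]; exact h1
  | of j => exact hg j
  | inv_of j h => rw [map_inv]; exact hi _ h
  | mul x y hx hy => rw [map_mul]; exact hm _ _ hx hy

variable {n : ℕ}

theorem chi0_apply (x : SurfaceGroup (n + 1)) :
    chi0 n x = (-1 : ℤˣ) ^ (homologyClass x (Sum.inr 0)) := rfl

theorem chi0_inl (i : Fin (n + 1)) : chi0 n (gen (Sum.inl i)) = 1 := by
  rw [chi0_apply, hc_gen]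
  simp [bas]

theorem chi0_inr (i : Fin n) : chi0 n (gen (Sum.inr i.succ)) = 1 := by
  rw [chi0_apply, hc_gen]
  simp [bas, Fin.succ_ne_zero]

theorem cr_one {χ : Ch (n + 1)} {f : SurfaceGroup (n + 1) → VV n}
    (hf : ∀ x y, f (x * y) = f x + ((χ x : ℤˣ) : ℤ) • f y) : f 1 = 0 := by
  have h := hf 1 1
  rw [mul_one, map_one, Units.val_one, one_smul] at h
  exact left_eq_add.1 h

theorem cr_inv {χ : Ch (n + 1)} {f : SurfaceGroup (n + 1) → VV n}
    (hf : ∀ x y, f (x * y) = f x + ((χ x : ℤˣ) : ℤ) • f y) (x : SurfaceGroup (n + 1)) :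
    f x⁻¹ = -(((χ x : ℤˣ) : ℤ) • f x) := by
  have h := hf x⁻¹ x
  rw [inv_mul_cancel, cr_one hf, map_inv, Int.units_inv_eq_self] at h
  exact (neg_eq_of_add_eq_zero_left h.symm).symm

theorem cr_ext {χ : Ch (n + 1)} {f f' : SurfaceGroup (n + 1) → VV n}
    (hf : ∀ x y, f (x * y) = f x + ((χ x : ℤˣ) : ℤ) • f y)
    (hf' : ∀ x y, f' (x * y) = f' x + ((χ x : ℤˣ) : ℤ) • f' y) (h : ∀ j, f (gen j) = f' (gen j))
    (x : SurfaceGroup (n + 1)) : f x = f' x := by
  refine gen_ind (P := fun x => f x = f' x) ?_ h ?_ ?_ x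
  · rw [cr_one hf, cr_one hf']
  · intro x y hx hy
    show f (x * y) = f' (x * y)
    rw [hf, hf', hx, hy]
  · intro x hx
    show f x⁻¹ = f' x⁻¹
    rw [cr_inv hf, cr_inv hf', hx]

/-- the key relation -/
theorem hom_key {t : SurfaceGroup (n + 1) → VV n} (ht : IsTau n t) (β : VV n →ₗ[ℤ] VV n →ₗ[ℤ] ℤ)
    (γ : VV (n + 1) →ₗ[ℤ] VV (n + 1) →ₗ[ℤ] ℤ)
    (h0 : mm β bas + mm γ bas = 0)
    (φ : SurfaceGroup (n + 1) →* SurfaceGroup (n + 1)) (hφ : ∀ x, chi0 n (φ x) = chi0 n x)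
    (hφ0 : t (φ (gen (Sum.inl 0))) = 0) :
    mm β (fun j => t (φ (gen (Sum.map Fin.succ Fin.succ j)))) +
      mm γ (fun j => homologyClass (φ (gen j))) = 0 := by
  set f : Fin (n + 1) ⊕ Fin (n + 1) → Hx β γ := fun j => ⟨t (gen j), bas j, 0, chi0 n (gen j)⟩ with hf
  have hsum : ∀ ψ : SurfaceGroup (n + 1) →* SurfaceGroup (n + 1), t (ψ (gen (Sum.inl 0))) = 0 →
      (∑ i : Fin (n + 1), ((β (t (ψ (gen (Sum.inl i)))) (t (ψ (gen (Sum.inr i)))) -
      β (t (ψ (gen (Sum.inr i)))) (t (ψ (gen (Sum.inl i))))) +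
      (γ (homologyClass (ψ (gen (Sum.inl i)))) (homologyClass (ψ (gen (Sum.inr i)))) -
      γ (homologyClass (ψ (gen (Sum.inr i)))) (homologyClass (ψ (gen (Sum.inl i))))))) =
      mm β (fun j => t (ψ (gen (Sum.map Fin.succ Fin.succ j)))) +
      mm γ (fun j => homologyClass (ψ (gen j))) := by
    intro ψ hψ
    rw [Finset.sum_add_distrib]
    congr 1
    rw [Fin.sum_univ_succ, hψ, map_zero, map_zero, LinearMap.zero_apply, sub_zero, zero_add]
    rfl
  have h1 : ∀ i, (f (Sum.inl i)).e = 1 := chi0_inl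
  have hcomm : ∀ ψ : SurfaceGroup (n + 1) →* SurfaceGroup (n + 1),
      (∀ x, chi0 n (ψ x) = chi0 n x) → t (ψ (gen (Sum.inl 0))) = 0 →
      ∀ i, ((chi0 n (ψ (gen (Sum.inr i))) : ℤˣ) : ℤ) • t (ψ (gen (Sum.inl i))) =
        t (ψ (gen (Sum.inl i))) := by
    intro ψ hψ hψ0 i
    refine Fin.cases ?_ (fun i => ?_) i
    · rw [hψ0, smul_zero]
    · rw [hψ, chi0_inr, Units.val_one, one_smul]
  have hrel : FreeGroup.lift f (surfaceRelator (n + 1)) = 1 := by
    rw [Hx.lift_relator f h1 (hcomm (MonoidHom.id _) (fun _ => rfl) ht.a0)]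
    have e := hsum (MonoidHom.id _) ht.a0
    have e2 : mm β (fun j => t ((MonoidHom.id (SurfaceGroup (n + 1)))
        (gen (Sum.map Fin.succ Fin.succ j)))) = mm β bas := by
      congr 1
      funext j
      rcases j with i | i
      · exact ht.a i
      · exact ht.b i
    have e3 : mm γ (fun j => homologyClass ((MonoidHom.id (SurfaceGroup (n + 1))) (gen j))) =
        mm γ bas := by
      congr 1
      funext j
      exact hc_gen j
    rw [e2, e3, h0] at e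
    have e4 : (∑ i : Fin (n + 1), ((β (f (Sum.inl i)).v (f (Sum.inr i)).v -
      β (f (Sum.inr i)).v (f (Sum.inl i)).v) + (γ (f (Sum.inl i)).y (f (Sum.inr i)).y -
      γ (f (Sum.inr i)).y (f (Sum.inl i)).y))) = 0 := by
      rw [← e]
      refine Finset.sum_congr rfl fun i _ => ?_
      simp only [hf, MonoidHom.id_apply, hc_gen]
    rw [e4]
    exact map_one _
  set θ : SurfaceGroup (n + 1) →* Hx β γ := outHom (FreeGroup.lift f) hrel with hθ
  have hgen : ∀ j, θ (gen j) = f j := by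
    intro j
    rw [hθ]
    unfold gen
    rw [outHom_mk, FreeGroup.lift_apply_of]
  have he : ∀ x, (θ x).e = chi0 n x := by
    intro x
    refine gen_ind (P := fun x => (θ x).e = chi0 n x) ?_ ?_ ?_ ?_ x
    · show (θ 1).e = chi0 n 1
      rw [map_one, map_one]
      rfl
    · intro j
      show (θ (gen j)).e = chi0 n (gen j)
      rw [hgen]
    · intro x y hx hy
      show (θ (x * y)).e = chi0 n (x * y)
      rw [map_mul, map_mul, Hx.mul_e, hx, hy]
    · intro x hx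
      show (θ x⁻¹).e = chi0 n x⁻¹
      rw [map_inv, map_inv, Hx.inv_e, hx, Int.units_inv_eq_self]
  have hy : ∀ x, (θ x).y = homologyClass x := by
    intro x
    refine gen_ind (P := fun x => (θ x).y = homologyClass x) ?_ ?_ ?_ ?_ x
    · show (θ 1).y = homologyClass 1
      rw [map_one, hc_one]
      rfl
    · intro j
      show (θ (gen j)).y = homologyClass (gen j)
      rw [hgen, hc_gen]
    · intro x y hx hy
      show (θ (x * y)).y = homologyClass (x * y)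
      rw [map_mul, Hx.mul_y, hx, hy, hcl_mul]
    · intro x hx
      show (θ x⁻¹).y = homologyClass x⁻¹
      rw [map_inv, Hx.inv_y, hx, hcl_inv]
  have hv : ∀ x, (θ x).v = t x := by
    refine cr_ext (χ := chi0 n) (fun x y => ?_) ht.mul (fun j => by rw [hgen])
    rw [map_mul, Hx.mul_v, he]
  have h2 : (θ.comp (φ.comp (mk (n + 1)))) = FreeGroup.lift (fun j => θ (φ (gen j))) := by
    apply FreeGroup.ext_hom
    intro j
    rw [FreeGroup.lift_apply_of]
    rfl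
  have h3 : FreeGroup.lift (fun j => θ (φ (gen j))) (surfaceRelator (n + 1)) = 1 := by
    rw [← h2, MonoidHom.comp_apply, MonoidHom.comp_apply, mk_relator, map_one, map_one]
  rw [Hx.lift_relator _ (fun i => by rw [he, hφ, chi0_inl])
    (fun i => by rw [he, hv]; exact hcomm φ hφ hφ0 i)] at h3
  have h4 := congrArg Hx.s h3
  rw [← hsum φ hφ0]
  have h5 : (∑ i : Fin (n + 1), ((β (θ (φ (gen (Sum.inl i)))).v (θ (φ (gen (Sum.inr i)))).v -
      β (θ (φ (gen (Sum.inr i)))).v (θ (φ (gen (Sum.inl i)))).v) +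
      (γ (θ (φ (gen (Sum.inl i)))).y (θ (φ (gen (Sum.inr i)))).y -
      γ (θ (φ (gen (Sum.inr i)))).y (θ (φ (gen (Sum.inl i)))).y))) = 0 := h4
  simp only [hv, hy] at h5
  exact h5

theorem chi_L6 {ψ : MulAut (SurfaceGroup (n + 1))} (hψ : ψ ∈ L6 (n + 1)) (x : SurfaceGroup (n + 1)) :
    chi0 n (ψ x) = chi0 n x := by
  obtain ⟨k, hk⟩ := hψ x (Sum.inr 0)
  have e : homologyClass (ψ x) (Sum.inr 0) = homologyClass x (Sum.inr 0) + 6 * k := by linarith
  rw [chi0_apply, chi0_apply, e, _root_.zpow_add, _root_.zpow_mul]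
  have : ((-1 : ℤˣ) ^ (6 : ℤ)) = 1 := by decide
  rw [this, _root_.one_zpow, mul_one]

/-- the images of the generators -/
def XX (t : SurfaceGroup (n + 1) → VV n) (ψ : MulAut (SurfaceGroup (n + 1))) :
    Fin n ⊕ Fin n → VV n := fun j => t (ψ (gen (Sum.map Fin.succ Fin.succ j)))

theorem act_mulVec (h : S_CR0) {t : SurfaceGroup (n + 1) → VV n} (ht : IsTau n t)
    {ψ : MulAut (SurfaceGroup (n + 1))} (hψ : ψ ∈ L6 (n + 1)) (y : SurfaceGroup (n + 1))
    (hy : chi0 n y = 1) : t (ψ y) = mat (XX t ψ) *ᵥ t y := by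
  obtain ⟨-, hlin, -⟩ := h n t ht
  funext p
  have h1 := hlin (fun x => t (ψ x) p) (fun x z => by
    show t (ψ (x * z)) p = t (ψ x) p + _ * t (ψ z) p
    rw [map_mul, ht.mul, chi_L6 hψ]
    rfl) y hy
  rw [h1]
  simp only [Matrix.mulVec, dotProduct, Fintype.sum_sum_type]
  rw [← Finset.sum_add_distrib]
  rfl

theorem act_a0 (h : S_CR0) {t : SurfaceGroup (n + 1) → VV n} (ht : IsTau n t)
    {ψ : MulAut (SurfaceGroup (n + 1))} (hψ : ψ ∈ L6 (n + 1)) : t (ψ (gen (Sum.inl 0))) = 0 := by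
  rw [act_mulVec h ht hψ _ (chi0_inl 0), ht.a0, Matrix.mulVec_zero]

theorem chi_succ (j : Fin n ⊕ Fin n) : chi0 n (gen (Sum.map Fin.succ Fin.succ j)) = 1 := by
  rcases j with i | i
  · exact chi0_inl _
  · exact chi0_inr _

theorem t_succ {t : SurfaceGroup (n + 1) → VV n} (ht : IsTau n t) (j : Fin n ⊕ Fin n) :
    t (gen (Sum.map Fin.succ Fin.succ j)) = bas j := by
  rcases j with i | i
  · exact ht.a i
  · exact ht.b i

theorem mat_mul (h : S_CR0) {t : SurfaceGroup (n + 1) → VV n} (ht : IsTau n t)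
    {ψ ψ' : MulAut (SurfaceGroup (n + 1))} (hψ : ψ ∈ L6 (n + 1)) (hψ' : ψ' ∈ L6 (n + 1))
    (hh : ∀ x, ψ (ψ' x) = x) : mat (XX t ψ) * mat (XX t ψ') = 1 := by
  ext p j
  have h1 : (mat (XX t ψ) * mat (XX t ψ')) p j =
      (mat (XX t ψ) *ᵥ t (ψ' (gen (Sum.map Fin.succ Fin.succ j)))) p := rfl
  rw [h1, ← act_mulVec h ht hψ _ (by rw [chi_L6 hψ', chi_succ]), hh, t_succ ht]
  simp [bas, Matrix.one_apply, Pi.single_apply]

theorem mm_zero {g : ℕ} (X : Fin g ⊕ Fin g → VV g) : mm (0 : VV g →ₗ[ℤ] VV g →ₗ[ℤ] ℤ) X = 0 := by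
  simp [mm]

theorem mm_neg {g : ℕ} (β : VV g →ₗ[ℤ] VV g →ₗ[ℤ] ℤ) (X : Fin g ⊕ Fin g → VV g) :
    mm (-β) X = -mm β X := by
  unfold mm
  rw [← Finset.sum_neg_distrib]
  refine Finset.sum_congr rfl fun i _ => ?_
  simp only [LinearMap.neg_apply]
  ring

theorem mm_one {g : ℕ} (i : Fin g) : mm (el (Sum.inl i) (Sum.inr i)) (bas (g := g)) = 1 := by
  rw [mm_el, mat_bas]
  simp [JJ_lr]

theorem mm_mod {g : ℕ} (p r : Fin g ⊕ Fin g) (X Y : Fin g ⊕ Fin g → VV g)
    (h : ∀ j q, (6 : ℤ) ∣ X j q - Y j q) : ((mm (el p r) X : ℤ) : ZMod 6) = (mm (el p r) Y : ℤ) := by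
  have h1 : ∀ j q, ((X j q : ℤ) : ZMod 6) = (Y j q : ℤ) := by
    intro j q
    have := (ZMod.intCast_zmod_eq_zero_iff_dvd (X j q - Y j q) 6).2 (h j q)
    rw [Int.cast_sub, sub_eq_zero] at this
    exact this
  unfold mm
  simp only [el_apply, Int.cast_sum, Int.cast_sub, Int.cast_mul, h1]

theorem main (h : S_CR0) : S_ACT := by
  intro n t ht φ hφ
  rcases Nat.eq_zero_or_pos n with hn | hn
  · subst hn
    refine ⟨1, fun y _ => ?_⟩
    funext j
    rcases j with j | j <;> exact j.elim0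
  have hφ' : φ⁻¹ ∈ L6 (n + 1) := inv_mem hφ
  set A := mat (XX t φ) with hA
  set B := mat (XX t φ⁻¹) with hB
  have hAB : A * B = 1 := mat_mul h ht hφ hφ' fun x => MulAut.apply_inv_self _ _ _
  have hBA : B * A = 1 := mat_mul h ht hφ' hφ fun x => MulAut.inv_apply_self _ _ _
  set a0 : Fin n ⊕ Fin n := Sum.inl ⟨0, hn⟩ with ha0
  set b0 : Fin n ⊕ Fin n := Sum.inr ⟨0, hn⟩ with hb0
  have hJ0 : JJ n a0 b0 = 1 := by
    rw [ha0, hb0, JJ_lr, Matrix.one_apply_eq]
  have hone : mm (el a0 b0) (bas (g := n)) = 1 := mm_one _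
  set c : ℤ := mm (el a0 b0) (XX t φ) with hc
  have hkey : ∀ (β : VV n →ₗ[ℤ] VV n →ₗ[ℤ] ℤ) (γ : VV (n + 1) →ₗ[ℤ] VV (n + 1) →ₗ[ℤ] ℤ),
      mm β bas + mm γ bas = 0 →
      mm β (XX t φ) + mm γ (fun j => homologyClass (φ (gen j))) = 0 := by
    intro β γ h0
    exact hom_key ht β γ h0 φ.toMonoidHom (chi_L6 hφ) (act_a0 h ht hφ)
  have hall : ∀ β : VV n →ₗ[ℤ] VV n →ₗ[ℤ] ℤ, mm β (XX t φ) = mm β bas * c := by
    intro β
    have h1 := hkey (β - (mm β bas) • el a0 b0) 0 (by rw [mm_sub, hone, mm_zero]; ring)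
    rw [mm_sub, mm_zero] at h1
    linarith
  have hMF : A * JJ n * Aᵀ = c • JJ n := by
    ext p r
    have h1 := hall (el p r)
    rw [mm_el, mm_el _ p r, mat_bas] at h1
    simp only [Matrix.one_mul, transpose_one, Matrix.mul_one] at h1
    rw [Matrix.smul_apply, smul_eq_mul, mul_comm]
    exact h1
  have hABt : Bᵀ * Aᵀ = 1 := by rw [← transpose_mul, hAB, transpose_one]
  have hBAt : Aᵀ * Bᵀ = 1 := by rw [← transpose_mul, hBA, transpose_one]
  have hu : JJ n = c • (B * JJ n * Bᵀ) := by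
    calc JJ n = (B * A) * JJ n * (Aᵀ * Bᵀ) := by
          rw [hBA, hBAt, Matrix.one_mul, Matrix.mul_one]
      _ = B * (A * JJ n * Aᵀ) * Bᵀ := by simp only [Matrix.mul_assoc]
      _ = _ := by rw [hMF, Matrix.mul_smul, Matrix.smul_mul]
  have hcu : c = 1 ∨ c = -1 := by
    have h1 := congrFun (congrFun hu a0) b0
    rw [hJ0, Matrix.smul_apply, smul_eq_mul] at h1
    exact Int.isUnit_iff.1 (IsUnit.of_mul_eq_one _ h1.symm)
  have hc6 : ((c : ℤ) : ZMod 6) = 1 := by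
    have h1 := hkey (el a0 b0) (-el (Sum.inl 0) (Sum.inr 0)) (by
      rw [hone, mm_neg, mm_one]
      ring)
    rw [mm_neg] at h1
    have h2 : c = mm (el (Sum.inl 0) (Sum.inr 0)) (fun j => homologyClass (φ (gen j))) := by
      rw [hc]
      linarith
    rw [h2, mm_mod _ _ _ (bas (g := n + 1)), mm_one, Int.cast_one]
    intro j q
    have h3 := hφ (gen j) q
    rw [hc_gen] at h3
    exact h3
  have hc1 : c = 1 := by
    rcases hcu with h1 | h1
    · exact h1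
    · rw [h1] at hc6
      exact absurd hc6 (by decide)
  rw [hc1, one_smul] at hMF
  have hT : Aᵀ * JJ n * A = JJ n := by
    have h1 : A * (JJ n * Aᵀ * JJ n) = -1 := by
      calc A * (JJ n * Aᵀ * JJ n) = (A * JJ n * Aᵀ) * JJ n := by
            simp only [Matrix.mul_assoc]
        _ = _ := by rw [hMF, JJ_sq]
    have h2 : JJ n * Aᵀ * JJ n = -B := by
      calc JJ n * Aᵀ * JJ n = (B * A) * (JJ n * Aᵀ * JJ n) := by
            rw [hBA, Matrix.one_mul]
        _ = B * (A * (JJ n * Aᵀ * JJ n)) := by rw [Matrix.mul_assoc]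
        _ = _ := by rw [h1, Matrix.mul_neg, Matrix.mul_one]
    calc Aᵀ * JJ n * A = -(JJ n * JJ n) * (Aᵀ * JJ n * A) := by
          rw [JJ_sq, neg_neg, Matrix.one_mul]
      _ = -(JJ n * ((JJ n * Aᵀ * JJ n) * A)) := by
          simp only [Matrix.mul_assoc, Matrix.neg_mul]
      _ = JJ n := by
          rw [h2, Matrix.neg_mul, hBA, Matrix.mul_neg, neg_neg, Matrix.mul_one]
  refine ⟨mkSp (fun v => A *ᵥ v) (fun v => B *ᵥ v) (fun x y => Matrix.mulVec_add _ _ _)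
    (fun c x => Matrix.mulVec_smul _ _ _)
    (fun x => by rw [Matrix.mulVec_mulVec, hBA, Matrix.one_mulVec])
    (fun x => by rw [Matrix.mulVec_mulVec, hAB, Matrix.one_mulVec]) (fun x y => ?_), fun y hy => ?_⟩
  · show intersectionForm (A *ᵥ x) (A *ᵥ y) = intersectionForm x y
    rw [form_eq, form_eq]
    calc (A *ᵥ x) ⬝ᵥ (JJ n *ᵥ (A *ᵥ y)) = x ⬝ᵥ ((Aᵀ * JJ n * A) *ᵥ y) := by
          rw [Matrix.mul_assoc, ← Matrix.mulVec_mulVec, ← Matrix.mulVec_mulVec,
            Matrix.dotProduct_mulVec x, Matrix.vecMul_transpose]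
      _ = _ := by rw [hT]
  · exact act_mulVec h ht hφ y hy

end Pool.Agent.Helper20.PR.Act
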