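import Mathlib
import Pool.Graph.R_pool_sql_team_seeded_3997aac3.Q290.SC.Rel

set_option autoImplicit false

/-!
# Project PR (helper20): the congruence subgroup property over the mod 2 homology cover

`π = SurfaceGroup (n + 1)`, `n ≥ 3`. A character `χ : π → {±1}`; a crossed homomorphism
`f : π → ℤ`, `f (x y) = f x + χ(x) f y` (`Cr χ f`). `G2` is the common kernel of the characters
(the mod 2 homology cover), `L6` the automorphisms acting trivially on `H_1(π; ℤ/6)`, `Tr χ φ`: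
the automorphism acts trivially on the `χ`-part of the homology of the cover. `chi0` is the
character with value `-1` on `b_0` and `1` on the other generators; its part is `ℤ^{2n}` with the
crossed homomorphism `t` (`IsTau n t`), and `A0 t φ M` says that `φ` acts on it as `M`. Statements.
-/

namespace Pool.Agent.Helper20.PR

open Pool.Agent.H29R2.MG Pool.Agent.Q290.SC
open Pool.Agent.H798R3.MG Pool.Agent.TH35.MG Pool.Agent.Q290.MG

/-- the characters with values `±1` -/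
abbrev Ch (g : ℕ) : Type := SurfaceGroup g →* ℤˣ

/-- crossed homomorphisms -/
def Cr {g : ℕ} (χ : Ch g) (f : SurfaceGroup g → ℤ) : Prop :=
  ∀ x y, f (x * y) = f x + ((χ x : ℤˣ) : ℤ) * f y

/-- the common kernel of the characters -/
def G2 (g : ℕ) : Subgroup (SurfaceGroup g) where
  carrier := {x | ∀ χ : Ch g, χ x = 1}
  one_mem' := fun χ => map_one χ
  mul_mem' := fun {x y} hx hy χ => by rw [map_mul, hx χ, hy χ, one_mul]
  inv_mem' := fun {x} hx χ => by rw [map_inv, hx χ, inv_one]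

/-- the automorphisms acting trivially on the homology modulo `6` -/
def L6 (g : ℕ) : Subgroup (MulAut (SurfaceGroup g)) where
  carrier := {φ | ∀ (x : SurfaceGroup g) (j : Fin g ⊕ Fin g),
    (6 : ℤ) ∣ homologyClass (φ x) j - homologyClass x j}
  one_mem' := fun x j => by rw [MulAut.one_apply, sub_self]; exact dvd_zero _
  mul_mem' := fun {φ ψ} hφ hψ x j => by
    have h := dvd_add (hφ (ψ x) j) (hψ x j)
    rwa [sub_add_sub_cancel] at h
  inv_mem' := fun {φ} hφ x j => by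
    have h := hφ (φ⁻¹ x) j
    rw [MulAut.apply_inv_self] at h
    rw [← neg_sub]
    exact (dvd_neg).2 h

/-- `φ` acts trivially on the `χ`-part of the homology of the covers -/
def Tr {g : ℕ} (χ : Ch g) (φ : MulAut (SurfaceGroup g)) : Prop :=
  ∀ f : SurfaceGroup g → ℤ, Cr χ f → ∀ y, χ y = 1 → f (φ y) = f y

/-- the character with value `-1` on `b_0` and `1` on the other generators -/
def chi0 (n : ℕ) : Ch (n + 1) where
  toFun x := (-1 : ℤˣ) ^ (homologyClass x (Sum.inr 0))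
  map_one' := by rw [hc_one, Pi.zero_apply, zpow_zero]
  map_mul' x y := by rw [hc_mul, Pi.add_apply, zpow_add]

/-- the crossed homomorphism to `ℤ^{2n}` for `chi0` -/
structure IsTau (n : ℕ) (t : SurfaceGroup (n + 1) → VV n) : Prop where
  mul : ∀ x y, t (x * y) = t x + ((chi0 n x : ℤˣ) : ℤ) • t y
  a0 : t (gen (Sum.inl 0)) = 0
  b0 : t (gen (Sum.inr 0)) = 0
  a : ∀ i : Fin n, t (gen (Sum.inl i.succ)) = ve i
  b : ∀ i : Fin n, t (gen (Sum.inr i.succ)) = vf i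

/-- `φ` acts on the `chi0`-part as `M` -/
def A0 {n : ℕ} (t : SurfaceGroup (n + 1) → VV n) (φ : MulAut (SurfaceGroup (n + 1)))
    (M : SpG n) : Prop :=
  ∀ y, chi0 n y = 1 → t (φ y) = ac M (t y)

/-! ## The symplectic group -/

/-- PR-NUM: as `S_NUM` of the library, for groups `Q` without a condition on the exponent. -/
def S_NUM2 : Prop := ∀ (Q : Type) [Group Q] (q : ℤ), 1 ≤ q → 4 ∣ q →
  ∀ s : ℤ → ℤ → Q,
    (∀ a b t : ℤ, q ∣ a - 1 → q ∣ b → IsCoprime a b → s (a + t * b) b = s a b) →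
    (∀ a b t : ℤ, q ∣ a - 1 → q ∣ b → IsCoprime a b → q ∣ t → s a (b + t * a) = s a b) →
    (∀ a w : ℤ, q ∣ a - 1 → q ∣ w → IsCoprime a w →
      ∃ c : Q, ∀ b : ℤ, q ∣ b → IsCoprime a b → s a b = c * s a (b * w ^ 2)) →
    s 1 0 = 1 →
    ∀ a b : ℤ, q ∣ a - 1 → q ∣ b → IsCoprime a b → s a b = 1

/-- PR-CSP: the level `q` subgroup is the normal closure of the `q`-th powers of transvections. -/
def S_CSP2 : Prop := ∀ (g : ℕ), 3 ≤ g → ∀ (Q : Type) [Group Q] (f : SpG g →* Q) (q : ℤ),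
  1 ≤ q → 4 ∣ q → (∀ (v : VV g) (t : ℤ), q ∣ t → f (T v t) = 1) → ∀ M ∈ Ga g q, f M = 1

/-- PR-NC: a subgroup normalized by a congruence subgroup and containing a transvection contains
a congruence subgroup. -/
def S_NC : Prop := ∀ (g : ℕ), 3 ≤ g → ∀ (U : Subgroup (SpG g)) (q : ℤ), 1 ≤ q →
  (∀ R ∈ Ga g q, ∀ X ∈ U, R * X * R⁻¹ ∈ U) →
  (∃ (w w' : VV g) (s : ℤ), om w w' = 1 ∧ s ≠ 0 ∧ T w s ∈ U) →
  ∃ m : ℤ, 1 ≤ m ∧ Ga g m ≤ U

/-! ## Characters and crossed homomorphisms -/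

/-- PR-EXT: existence of crossed homomorphisms with given values on the generators. -/
def S_EXT : Prop := ∀ (g : ℕ) (χ : Ch g) (u : Fin g ⊕ Fin g → ℤ),
  (∑ i : Fin g, ((1 - ((χ (gen (Sum.inr i)) : ℤˣ) : ℤ)) * u (Sum.inl i) -
    (1 - ((χ (gen (Sum.inl i)) : ℤˣ) : ℤ)) * u (Sum.inr i)) = 0) →
  ∃ f, Cr χ f ∧ ∀ j, f (gen j) = u j

/-- PR-TAU: existence of the crossed homomorphism `t`. -/
def S_TAU : Prop := ∀ n : ℕ, ∃ t, IsTau n t

/-- PR-CR0: the crossed homomorphisms for `chi0` on the kernel of `chi0` are the linear functions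
of `t`. -/
def S_CR0 : Prop := ∀ (n : ℕ) (t : SurfaceGroup (n + 1) → VV n), IsTau n t →
  (∀ v : VV n, ∃ y, chi0 n y = 1 ∧ t y = v) ∧
  (∀ f, Cr (chi0 n) f → ∀ y, chi0 n y = 1 →
    f y = ∑ i : Fin n, (f (gen (Sum.inl i.succ)) * t y (Sum.inl i) +
      f (gen (Sum.inr i.succ)) * t y (Sum.inr i))) ∧
  ∀ φ ∈ L6 (n + 1), (Tr (chi0 n) φ ↔ A0 t φ 1)

/-- PR-ACT: the action on the `chi0`-part is symplectic. -/
def S_ACT : Prop := ∀ (n : ℕ) (t : SurfaceGroup (n + 1) → VV n), IsTau n t →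
  ∀ φ ∈ L6 (n + 1), ∃ M : SpG n, A0 t φ M

/-- PR-REAL: all matrices of level `6` are realized on the `chi0`-part. -/
def S_REAL : Prop := ∀ (n : ℕ), 2 ≤ n → ∀ t : SurfaceGroup (n + 1) → VV n, IsTau n t →
  ∀ M ∈ Ga n 6, ∃ φ ∈ L6 (n + 1), A0 t φ M

/-- PR-TRANS: the automorphisms are transitive on the nontrivial characters. -/
def S_TRANS : Prop := ∀ (n : ℕ), 1 ≤ n → ∀ χ : Ch (n + 1), χ ≠ 1 →
  ∃ θ : MulAut (SurfaceGroup (n + 1)), ∀ x, χ (θ x) = chi0 n x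

/-- PR-P1: for every nontrivial character `χ' ≠ chi0` an automorphism acting trivially on the
`χ'`-part and as a nontrivial transvection on the `chi0`-part. -/
def S_P1 : Prop := ∀ (n : ℕ), 1 ≤ n → ∀ t : SurfaceGroup (n + 1) → VV n, IsTau n t →
  ∀ χ' : Ch (n + 1), χ' ≠ 1 → χ' ≠ chi0 n →
  ∃ φ ∈ L6 (n + 1), Tr χ' φ ∧ ∃ (w w' : VV n) (s : ℤ), om w w' = 1 ∧ s ≠ 0 ∧ A0 t φ (T w s)

/-- PR-P1T: the same for the trivial character. -/
def S_P1T : Prop := ∀ (n : ℕ), 1 ≤ n → ∀ t : SurfaceGroup (n + 1) → VV n, IsTau n t →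
  ∃ φ ∈ L6 (n + 1), Tr 1 φ ∧ ∃ (w w' : VV n) (s : ℤ), om w w' = 1 ∧ s ≠ 0 ∧ A0 t φ (T w s)

/-- PR-P2: for every nontrivial character `χ'` an automorphism acting trivially on the `χ'`-part
and as a nontrivial transvection on the homology. -/
def S_P2 : Prop := ∀ (g : ℕ), 2 ≤ g → ∀ χ' : Ch g, χ' ≠ 1 →
  ∃ φ ∈ L6 g, Tr χ' φ ∧ ∃ (w w' : VV g) (s : ℤ), om w w' = 1 ∧ s ≠ 0 ∧ Act φ (T w s)

/-- PR-DEEP: automorphisms acting trivially modulo a deep subgroup act trivially modulo `m`. -/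
def S_DEEP : Prop := ∀ (n : ℕ) (t : SurfaceGroup (n + 1) → VV n), IsTau n t → ∀ m : ℤ, 1 ≤ m →
  ∃ K : Subgroup (SurfaceGroup (n + 1)), K.Characteristic ∧ K.FiniteIndex ∧
    ∀ φ : MulAut (SurfaceGroup (n + 1)), (∀ x, φ x * x⁻¹ ∈ K) →
      φ ∈ L6 (n + 1) ∧ (∀ M, A0 t φ M → M ∈ Ga n m) ∧ ∀ M, Act φ M → M ∈ Ga (n + 1) m

/-- PR-PROJ: an automorphism acting trivially on all parts acts trivially on the homology of the
cover modulo torsion. -/
def S_PROJ : Prop := ∀ (g : ℕ), ∀ φ ∈ L6 g, (∀ χ : Ch g, Tr χ φ) →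
  ∀ y ∈ G2 g, ∃ k : ℕ, 0 < k ∧ (φ y * y⁻¹) ^ k ∈ ⁅G2 g, G2 g⁆

/-- PR-TOR: the torsion of the homology of the cover is detected by a finite quotient. -/
def S_TOR : Prop := ∀ (g : ℕ), ∃ C : Subgroup (SurfaceGroup g), C.Characteristic ∧ C.FiniteIndex ∧
  ∀ x ∈ C, x ∈ G2 g → (∃ k : ℕ, 0 < k ∧ x ^ k ∈ ⁅G2 g, G2 g⁆) → x ∈ ⁅G2 g, G2 g⁆

/-! ## Combination -/

/-- PR-C0: automorphisms in `N` acting as `M` on the `chi0`-part and trivially on finitely many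
other parts. -/
def S_C0 : Prop := ∀ (n : ℕ), 3 ≤ n → ∀ t : SurfaceGroup (n + 1) → VV n, IsTau n t →
  ∀ N : Subgroup (MulAut (SurfaceGroup (n + 1))), N.Normal → N.FiniteIndex →
  ∀ S : Finset (Ch (n + 1)), chi0 n ∉ S →
  ∃ m : ℤ, 1 ≤ m ∧ ∀ M ∈ Ga n m, ∃ ν ∈ N, ν ∈ L6 (n + 1) ∧ (∀ χ' ∈ S, Tr χ' ν) ∧ A0 t ν M

/-- PR-C1: the same for the homology. -/
def S_C1 : Prop := ∀ (g : ℕ), 3 ≤ g →
  ∀ N : Subgroup (MulAut (SurfaceGroup g)), N.Normal → N.FiniteIndex →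
  ∀ S : Finset (Ch g), 1 ∉ S →
  ∃ m : ℤ, 1 ≤ m ∧ ∀ M ∈ Ga g m, ∃ ν ∈ N, ν ∈ L6 g ∧ (∀ χ' ∈ S, Tr χ' ν) ∧ Act ν M

/-- PR-STAR: the congruence subgroup property for the homology of the mod 2 homology cover. -/
def S_STAR : Prop := ∀ (n : ℕ), 3 ≤ n → ∀ V : Subgroup (MulAut (SurfaceGroup (n + 1))),
  V.FiniteIndex →
  (∀ φ : MulAut (SurfaceGroup (n + 1)), (∀ x, φ x * x⁻¹ ∈ G2 (n + 1)) →
    (∀ x ∈ G2 (n + 1), φ x * x⁻¹ ∈ ⁅G2 (n + 1), G2 (n + 1)⁆) → φ ∈ V) →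
  ∃ K : Subgroup (SurfaceGroup (n + 1)), K.Characteristic ∧ K.FiniteIndex ∧
    ∀ φ : MulAut (SurfaceGroup (n + 1)), (∀ x, φ x * x⁻¹ ∈ K) → φ ∈ V

end Pool.Agent.Helper20.PR
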