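import Pool.Agent.Helper20.PR.Base
import Pool.Graph.R_seed8.R569.CS.Main

set_option autoImplicit false

/-!
# Project PR: assembly of the congruence subgroup property for the homology of the mod 2 cover
-/

namespace Pool.Agent.Helper20.PR.Star

open Pool.Agent.H29R2.MG Pool.Agent.Q290.SC
open Pool.Agent.H798R3.MG Pool.Agent.TH35.MG Pool.Agent.Q290.MG
open Pool.Agent.Helper20.PR

variable {g : ℕ}

instance fg (g : ℕ) : Group.FG (SurfaceGroup g) := by
  refine Group.fg_iff.2 ⟨Set.range (gen : Fin g ⊕ Fin g → SurfaceGroup g), ?_,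
    Set.finite_range _⟩
  rw [eq_top_iff]
  intro x hx
  clear hx
  obtain ⟨z, rfl⟩ := mk_surjective g x
  induction z using FreeGroup.induction_on with
  | C1 => rw [map_one]; exact one_mem _
  | of j => exact Subgroup.subset_closure ⟨j, rfl⟩
  | inv_of j h => rw [map_inv]; exact inv_mem h
  | mul x y hx hy => rw [map_mul]; exact mul_mem hx hy

/-- a character is determined by the homology class -/
theorem chi_prod (χ : Ch g) (x : SurfaceGroup g) :
    χ x = ∏ j, (χ (gen j)) ^ (homologyClass x j) := by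
  classical
  let F : SurfaceGroup g →* ℤˣ :=
    { toFun := fun x => ∏ j, (χ (gen j)) ^ (homologyClass x j)
      map_one' := by
        apply Finset.prod_eq_one
        intro j _
        rw [hc_one]; simp
      map_mul' := fun x y => by
        rw [← Finset.prod_mul_distrib]
        apply Finset.prod_congr rfl
        intro j _
        rw [hc_mul, Pi.add_apply, zpow_add] }
  have hF : χ = F := by
    apply surface_ext
    intro j
    show _ = ∏ k, (χ (gen k)) ^ (homologyClass (gen j) k)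
    rw [Finset.prod_eq_single j]
    · rw [hc_gen, Pi.single_eq_same, zpow_one]
    · intro k _ hk
      rw [hc_gen, Pi.single_eq_of_ne hk, zpow_zero]
    · intro h; exact absurd (Finset.mem_univ _) h
  exact DFunLike.congr_fun hF x

theorem pow_even (u : ℤˣ) (k : ℤ) (hk : (2 : ℤ) ∣ k) : u ^ k = 1 := by
  obtain ⟨l, rfl⟩ := hk
  rw [zpow_mul]
  have : u ^ (2 : ℤ) = 1 := by
    have h := Int.units_sq u
    exact_mod_cast h
  rw [this, one_zpow]

theorem L6_chi {φ : MulAut (SurfaceGroup g)} (hφ : φ ∈ L6 g) (χ : Ch g) (x : SurfaceGroup g) :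
    χ (φ x) = χ x := by
  have h1 : χ (φ x * x⁻¹) = 1 := by
    rw [chi_prod]
    apply Finset.prod_eq_one
    intro j _
    apply pow_even
    rw [hc_mul, hc_inv, Pi.add_apply, Pi.neg_apply, ← sub_eq_add_neg]
    exact dvd_trans (by norm_num) (hφ x j)
  rw [map_mul, map_inv, mul_inv_eq_one] at h1
  exact h1

/-- `Tr χ` defines a subgroup -/
theorem Tr_one (χ : Ch g) : Tr χ 1 := fun _ _ _ _ => rfl

theorem Tr_mul {χ : Ch g} {φ ψ : MulAut (SurfaceGroup g)} (hψ : ψ ∈ L6 g)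
    (h : Tr χ φ) (h' : Tr χ ψ) : Tr χ (φ * ψ) := by
  intro f hf y hy
  rw [MulAut.mul_apply, h f hf _ (by rw [L6_chi hψ]; exact hy), h' f hf y hy]

theorem Tr_inv {χ : Ch g} {φ : MulAut (SurfaceGroup g)} (hφ : φ ∈ L6 g)
    (h : Tr χ φ) : Tr χ φ⁻¹ := by
  intro f hf y hy
  have h1 : χ (φ⁻¹ y) = 1 := by rw [L6_chi ((L6 g).inv_mem hφ)]; exact hy
  have h2 := h f hf (φ⁻¹ y) h1
  rw [MulAut.apply_inv_self] at h2
  exact h2.symm

theorem Tr_conj {χ : Ch g} {φ ψ : MulAut (SurfaceGroup g)} (hψ : ψ ∈ L6 g)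
    (h : Tr χ φ) : Tr χ (ψ * φ * ψ⁻¹) := by
  intro f hf y hy
  have hf' : Cr χ (fun x => f (ψ x)) := by
    intro x y
    show f (ψ (x * y)) = _
    rw [map_mul, hf, L6_chi hψ]
  have h1 : χ (ψ⁻¹ y) = 1 := by rw [L6_chi ((L6 g).inv_mem hψ)]; exact hy
  have h2 := h _ hf' (ψ⁻¹ y) h1
  rw [MulAut.mul_apply, MulAut.mul_apply]
  show f (ψ (φ (ψ⁻¹ y))) = _
  have h3 : f (ψ (φ (ψ⁻¹ y))) = f (ψ (ψ⁻¹ y)) := h2
  rw [h3, MulAut.apply_inv_self]

/-- transport by an automorphism -/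
theorem Tr_trans {χ χ' : Ch g} {θ φ : MulAut (SurfaceGroup g)} (hθ : ∀ x, χ (θ x) = χ' x) :
    Tr χ (θ * φ * θ⁻¹) ↔ Tr χ' φ := by
  constructor
  · intro h f hf y hy
    have hf' : Cr χ (fun x => f (θ⁻¹ x)) := by
      intro x y
      show f (θ⁻¹ (x * y)) = f (θ⁻¹ x) + _ * f (θ⁻¹ y)
      rw [map_mul, hf, ← hθ, MulAut.apply_inv_self]
    have h1 := h _ hf' (θ y) (by rw [hθ]; exact hy)
    have h2 : f (θ⁻¹ ((θ * φ * θ⁻¹) (θ y))) = f (θ⁻¹ (θ y)) := h1
    rwa [MulAut.mul_apply, MulAut.mul_apply, MulAut.inv_apply_self, MulAut.inv_apply_self] at h2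
  · intro h f hf y hy
    have hf' : Cr χ' (fun x => f (θ x)) := by
      intro x y
      show f (θ (x * y)) = f (θ x) + _ * f (θ y)
      rw [map_mul, hf, hθ]
    have h1 := h _ hf' (θ⁻¹ y) (by rw [← hθ, MulAut.apply_inv_self]; exact hy)
    have h2 : f (θ (φ (θ⁻¹ y))) = f (θ (θ⁻¹ y)) := h1
    rw [MulAut.apply_inv_self] at h2
    exact h2

theorem L6_normal (g : ℕ) : (L6 g).Normal := by
  constructor
  intro φ hφ θ x i
  have e1 : homologyClass ((θ * φ * θ⁻¹) x) i =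
      ∑ j, homologyClass (θ (gen j)) i * homologyClass (φ (θ⁻¹ x)) j :=
    hc_end (θ : SurfaceGroup g →* SurfaceGroup g) (φ (θ⁻¹ x)) i
  have e2 : homologyClass x i =
      ∑ j, homologyClass (θ (gen j)) i * homologyClass (θ⁻¹ x) j := by
    have h1 : homologyClass (θ (θ⁻¹ x)) i =
        ∑ j, homologyClass (θ (gen j)) i * homologyClass (θ⁻¹ x) j :=
      hc_end (θ : SurfaceGroup g →* SurfaceGroup g) (θ⁻¹ x) i
    rwa [MulAut.apply_inv_self] at h1
  rw [e1, e2, ← Finset.sum_sub_distrib]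
  apply Finset.dvd_sum
  intro j _
  rw [← mul_sub]
  exact Dvd.dvd.mul_left (hφ (θ⁻¹ x) j) _

theorem A0_mul {n : ℕ} {t : SurfaceGroup (n + 1) → VV n} {φ ψ : MulAut (SurfaceGroup (n + 1))}
    {M M' : SpG n} (hψ : ψ ∈ L6 (n + 1)) (h : A0 t φ M) (h' : A0 t ψ M') :
    A0 t (φ * ψ) (M * M') := by
  intro y hy
  rw [MulAut.mul_apply, h _ (by rw [L6_chi hψ]; exact hy), h' y hy, ac_mul]

theorem A0_inv {n : ℕ} {t : SurfaceGroup (n + 1) → VV n} {φ : MulAut (SurfaceGroup (n + 1))}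
    {M : SpG n} (hφ : φ ∈ L6 (n + 1)) (h : A0 t φ M) : A0 t φ⁻¹ M⁻¹ := by
  intro y hy
  have h1 := h (φ⁻¹ y) (by rw [L6_chi ((L6 _).inv_mem hφ)]; exact hy)
  rw [MulAut.apply_inv_self] at h1
  rw [h1, ac_self_inv]

/-- gluing -/
theorem glue {L X : Type} [Group L] (S : Finset X) (K : X → Subgroup L)
    (hK : ∀ χ, (K χ).Normal) (N : Subgroup L) (φ : L)
    (h : ∀ χ ∈ S, ∃ ν ∈ N, (∀ χ' ∈ S, χ' ≠ χ → ν ∈ K χ') ∧ ν⁻¹ * φ ∈ K χ) :
    ∃ ν ∈ N, ∀ χ ∈ S, ν⁻¹ * φ ∈ K χ := by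
  classical
  have key : ∀ R : Finset X, R ⊆ S → ∃ ν ∈ N, (∀ χ' ∈ S, χ' ∉ R → ν ∈ K χ') ∧
      ∀ χ ∈ R, ν⁻¹ * φ ∈ K χ := by
    intro R
    induction R using Finset.induction_on with
    | empty =>
      intro _
      exact ⟨1, N.one_mem, fun χ' _ _ => (K χ').one_mem, fun χ hχ => absurd hχ (Finset.notMem_empty _)⟩
    | insert a R ha ih =>
      intro hR
      obtain ⟨ν, hν, h1, h2⟩ := ih ((Finset.subset_insert _ _).trans hR)
      have haS : a ∈ S := hR (Finset.mem_insert_self _ _)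
      obtain ⟨μ, hμ, h3, h4⟩ := h a haS
      refine ⟨ν * μ, N.mul_mem hν hμ, ?_, ?_⟩
      · intro χ' h5 h6
        rw [Finset.mem_insert, not_or] at h6
        exact (K χ').mul_mem (h1 χ' h5 h6.2) (h3 χ' h5 h6.1)
      · intro χ h5
        rw [Finset.mem_insert] at h5
        rcases h5 with rfl | h5
        · have h6 := h1 χ haS ha
          have h7 : (ν * μ)⁻¹ * φ = μ⁻¹ * ν⁻¹ * μ * (μ⁻¹ * φ) := by group
          rw [h7]
          refine (K χ).mul_mem ?_ h4
          have h8 := (hK χ).conj_mem _ ((K χ).inv_mem h6) μ⁻¹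
          rwa [inv_inv] at h8
        · have hne : χ ≠ a := fun e => ha (e ▸ h5)
          have h6 := h3 χ (hR (Finset.mem_insert_of_mem h5)) hne
          have h7 : (ν * μ)⁻¹ * φ = μ⁻¹ * (ν⁻¹ * φ) := by group
          rw [h7]
          exact (K χ).mul_mem ((K χ).inv_mem h6) (h2 χ h5)
  obtain ⟨ν, hν, -, h⟩ := key S le_rfl
  exact ⟨ν, hν, h⟩

/-- the automorphisms in `L6` acting trivially on the `χ`-part -/
def KK (χ : Ch g) : Subgroup (L6 g) where
  carrier := {φ | Tr χ φ.1}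
  one_mem' := Tr_one χ
  mul_mem' := fun {φ ψ} h h' => Tr_mul ψ.2 h h'
  inv_mem' := fun {φ} h => Tr_inv φ.2 h

theorem KK_normal (χ : Ch g) : (KK χ).Normal :=
  ⟨fun φ h ψ => Tr_conj (φ := φ.1) (ψ := ψ.1) ψ.2 h⟩

/-- the common kernel of the characters is characteristic and of finite index -/
theorem G2_char (g : ℕ) : (G2 g).Characteristic := by
  rw [Subgroup.characteristic_iff_le_comap]
  intro φ x hx χ
  exact hx (χ.comp φ.toMonoidHom)

instance finCh (g : ℕ) : Finite (Ch g) := Pool.Agent.R569.CS.finite_hom _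

theorem G2_fi (g : ℕ) : (G2 g).FiniteIndex := by
  have h : G2 g = ⨅ χ : Ch g, χ.ker := by
    ext x
    rw [Subgroup.mem_iInf]
    rfl
  rw [h]
  apply Subgroup.finiteIndex_iInf
  intro χ
  infer_instance

/-- homology triviality and the trivial character -/
theorem Tr_of_Act {φ : MulAut (SurfaceGroup g)} (h : Act φ 1) : Tr (1 : Ch g) φ := by
  intro f hf y _
  have h1 : homologyClass (φ y * y⁻¹) = 0 := by
    rw [hc_mul, hc_inv]
    have := h y
    rw [ac_one] at this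
    rw [this, add_neg_cancel]
  have h2 := mem_comm_of_hc _ h1
  rw [gm, Subgroup.top_lowerCentralSeries_one] at h2
  let F : SurfaceGroup g →* Multiplicative ℤ :=
    { toFun := fun x => Multiplicative.ofAdd (f x)
      map_one' := by
        have h3 := hf 1 1
        rw [mul_one, MonoidHom.one_apply, Units.val_one, one_mul] at h3
        have h4 : f 1 = 0 := by linarith
        rw [h4]; rfl
      map_mul' := fun x y => by
        rw [hf x y, MonoidHom.one_apply, Units.val_one, one_mul]; rfl }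
  have h3 : commutator (SurfaceGroup g) ≤ F.ker := Abelianization.commutator_subset_ker F
  have h4 : F (φ y * y⁻¹) = 1 := h3 h2
  rw [map_mul, map_inv, mul_inv_eq_one] at h4
  exact Multiplicative.ofAdd.injective h4

end Pool.Agent.Helper20.PR.Star
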