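import Pool.Agent.Helper20.PR.Tau
import Pool.Agent.Helper20.PR.Star

set_option autoImplicit false

/-!
# Project PR: crossed homomorphisms and the vector `t`
-/

namespace Pool.Agent.Helper20.PR.Cr0

open Pool.Agent.H29R2.MG Pool.Agent.Q290.SC
open Pool.Agent.H798R3.MG Pool.Agent.TH35.MG Pool.Agent.Q290.MG
open Pool.Agent.Helper20.PR Pool.Agent.Helper20.PR.Tau Pool.Agent.Helper20.PR.Star

variable {g : ℕ}

theorem cr_one {χ : Ch g} {f : SurfaceGroup g → ℤ} (hf : Cr χ f) : f 1 = 0 := by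
  have h := hf 1 1
  rw [mul_one, map_one, Units.val_one, one_mul] at h
  linarith

theorem cr_inv {χ : Ch g} {f : SurfaceGroup g → ℤ} (hf : Cr χ f) (x : SurfaceGroup g) :
    f x⁻¹ = - (((χ x : ℤˣ) : ℤ) * f x) := by
  have h := hf x⁻¹ x
  rw [inv_mul_cancel, cr_one hf, map_inv, Int.units_inv_eq_self] at h
  linarith

/-- crossed homomorphisms agreeing on the generators are equal -/
theorem cr_ext {χ : Ch g} {f f' : SurfaceGroup g → ℤ} (hf : Cr χ f) (hf' : Cr χ f')
    (h : ∀ j, f (gen j) = f' (gen j)) (x : SurfaceGroup g) : f x = f' x := by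
  obtain ⟨z, rfl⟩ := mk_surjective g x
  induction z using FreeGroup.induction_on with
  | C1 => rw [map_one, cr_one hf, cr_one hf']
  | of j => exact h j
  | inv_of j hj => rw [map_inv, cr_inv hf, cr_inv hf', hj]
  | mul x y hx hy => rw [map_mul, hf, hf', hx, hy]

/-- the relation between the values on the generators -/
theorem cr_rel {χ : Ch g} {f : SurfaceGroup g → ℤ} (hf : Cr χ f) :
    ∑ i : Fin g, ((1 - ((χ (gen (Sum.inr i)) : ℤˣ) : ℤ)) * f (gen (Sum.inl i)) -
      (1 - ((χ (gen (Sum.inl i)) : ℤˣ) : ℤ)) * f (gen (Sum.inr i))) = 0 := by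
  let Φ : SurfaceGroup g →* Af ℤ :=
    { toFun := fun x => ⟨f x, χ x⟩
      map_one' := by
        apply Af.ext
        · exact cr_one hf
        · exact map_one χ
      map_mul' := fun x y => by
        apply Af.ext
        · rw [Af.mul_v, smul_eq_mul]
          exact hf x y
        · exact map_mul χ x y }
  have h0 : Φ (mk g (surfaceRelator g)) = 1 := by rw [mk_relator, map_one]
  unfold surfaceRelator at h0
  rw [map_list_prod, map_list_prod, List.map_ofFn, List.map_ofFn] at h0
  have h1 : (Φ ∘ (mk g ∘ fun i : Fin g => FreeGroup.of (Sum.inl i) * FreeGroup.of (Sum.inr i) *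
        (FreeGroup.of (Sum.inl i))⁻¹ * (FreeGroup.of (Sum.inr i))⁻¹)) =
        Af.tr ∘ fun i : Fin g => Multiplicative.ofAdd
          ((1 - ((χ (gen (Sum.inr i)) : ℤˣ) : ℤ)) * f (gen (Sum.inl i)) -
            (1 - ((χ (gen (Sum.inl i)) : ℤˣ) : ℤ)) * f (gen (Sum.inr i))) := by
    funext i
    simp only [Function.comp_apply, map_mul, map_inv]
    rw [Af.comm_eq]
    simp only [smul_eq_mul]
    rfl
  rw [h1, ← List.map_ofFn, ← map_list_prod, List.prod_ofFn, ← ofAdd_sum] at h0
  exact congrArg Af.v h0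

theorem cr_a0 {n : ℕ} {f : SurfaceGroup (n + 1) → ℤ} (hf : Cr (chi0 n) f) :
    f (gen (Sum.inl 0)) = 0 := by
  have h := cr_rel hf
  rw [Fin.sum_univ_succ, Finset.sum_eq_zero (fun i _ => by
    rw [chi0_inl, chi0_inr_succ, Units.val_one, sub_self, zero_mul, zero_mul, sub_zero]),
    chi0_inl, chi0_inr_zero] at h
  push_cast at h
  linarith

theorem cr_lin {χ : Ch g} {ι : Type} (s : Finset ι) (c : ι → ℤ) (f : ι → SurfaceGroup g → ℤ)
    (hf : ∀ i, Cr χ (f i)) : Cr χ (fun x => ∑ i ∈ s, c i * f i x) := by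
  intro x y
  show ∑ i ∈ s, c i * f i (x * y) = ∑ i ∈ s, c i * f i x + _ * ∑ i ∈ s, c i * f i y
  rw [Finset.mul_sum, ← Finset.sum_add_distrib]
  apply Finset.sum_congr rfl
  intro i _
  rw [hf i x y]
  ring

theorem tau_cr {n : ℕ} {t : SurfaceGroup (n + 1) → VV n} (ht : IsTau n t) (j : Fin n ⊕ Fin n) :
    Cr (chi0 n) (fun x => t x j) := by
  intro x y
  show t (x * y) j = _
  rw [ht.mul, Pi.add_apply, Pi.smul_apply, smul_eq_mul]

theorem tau_one {n : ℕ} {t : SurfaceGroup (n + 1) → VV n} (ht : IsTau n t) : t 1 = 0 := by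
  funext j
  exact cr_one (tau_cr ht j)

theorem tau_inv {n : ℕ} {t : SurfaceGroup (n + 1) → VV n} (ht : IsTau n t)
    {x : SurfaceGroup (n + 1)} (hx : chi0 n x = 1) : t x⁻¹ = - t x := by
  funext j
  have := cr_inv (tau_cr ht j) x
  rw [hx, Units.val_one, one_mul] at this
  exact this

theorem tau_surj {n : ℕ} {t : SurfaceGroup (n + 1) → VV n} (ht : IsTau n t) (v : VV n) :
    ∃ y, chi0 n y = 1 ∧ t y = v := by
  classical
  let A : AddSubgroup (VV n) :=
    { carrier := {v | ∃ y, chi0 n y = 1 ∧ t y = v}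
      zero_mem' := ⟨1, map_one _, tau_one ht⟩
      add_mem' := by
        rintro v w ⟨x, hx, rfl⟩ ⟨y, hy, rfl⟩
        refine ⟨x * y, by rw [map_mul, hx, hy, one_mul], ?_⟩
        rw [ht.mul, hx, Units.val_one, one_smul]
      neg_mem' := by
        rintro v ⟨x, hx, rfl⟩
        exact ⟨x⁻¹, by rw [map_inv, hx, inv_one], tau_inv ht hx⟩ }
  have hs : ∀ j, (Pi.single j 1 : VV n) ∈ A := by
    rintro (i | i)
    · exact ⟨gen (Sum.inl i.succ), chi0_inl n _, ht.a i⟩
    · exact ⟨gen (Sum.inr i.succ), chi0_inr_succ n i, ht.b i⟩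
  have h1 : v = ∑ j, v j • (Pi.single j 1 : VV n) := by
    funext k
    rw [Finset.sum_apply]
    simp [Pi.single_apply]
  have h2 : v ∈ A := by
    rw [h1]
    exact A.sum_mem fun j _ => A.zsmul_mem (hs j) _
  exact h2

theorem main : S_CR0 := by
  classical
  intro n t ht
  have h2 : ∀ f, Cr (chi0 n) f → ∀ y, chi0 n y = 1 →
      f y = ∑ i : Fin n, (f (gen (Sum.inl i.succ)) * t y (Sum.inl i) +
        f (gen (Sum.inr i.succ)) * t y (Sum.inr i)) := by
    intro f hf y hy
    set c : Fin n ⊕ Fin n → ℤ := Sum.elim (fun i => f (gen (Sum.inl i.succ)))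
      (fun i => f (gen (Sum.inr i.succ))) with hc
    have hL : Cr (chi0 n) (fun x => ∑ j, c j * t x j) :=
      cr_lin Finset.univ c (fun j x => t x j) (tau_cr ht)
    have hsum : ∀ x, ∑ j, c j * t x j = ∑ i : Fin n, (f (gen (Sum.inl i.succ)) * t x (Sum.inl i) +
        f (gen (Sum.inr i.succ)) * t x (Sum.inr i)) := by
      intro x
      rw [Fintype.sum_sum_type, ← Finset.sum_add_distrib]
      rfl
    rw [← hsum]
    have h3 : ∀ x, 2 * (f x - ∑ j, c j * t x j) =
        f (gen (Sum.inr 0)) * (1 - ((chi0 n x : ℤˣ) : ℤ)) := by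
      apply cr_ext (χ := chi0 n)
      · intro x y
        show 2 * (f (x * y) - ∑ j, c j * t (x * y) j) = 2 * (f x - ∑ j, c j * t x j) + _
        have h4 : ∑ j, c j * t (x * y) j = _ := hL x y
        rw [hf x y, h4]
        ring
      · intro x y
        show f (gen (Sum.inr 0)) * (1 - ((chi0 n (x * y) : ℤˣ) : ℤ)) = _
        rw [map_mul, Units.val_mul]
        ring
      · rintro (i | i)
        · refine Fin.cases ?_ (fun i => ?_) i
          · rw [cr_a0 hf, chi0_inl, Units.val_one, ht.a0]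
            simp
          · have h5 : ∑ j, c j * (ve i : VV n) j = f (gen (Sum.inl i.succ)) := by
              simp [ve, Pi.single_apply, hc]
            rw [chi0_inl, Units.val_one, ht.a, h5]
            simp
        · refine Fin.cases ?_ (fun i => ?_) i
          · rw [chi0_inr_zero, ht.b0]
            simp
            ring
          · have h5 : ∑ j, c j * (vf i : VV n) j = f (gen (Sum.inr i.succ)) := by
              simp [vf, Pi.single_apply, hc]
            rw [chi0_inr_succ, Units.val_one, ht.b, h5]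
            simp
    have h4 := h3 y
    rw [hy, Units.val_one, sub_self, mul_zero] at h4
    linarith
  refine ⟨tau_surj ht, h2, fun φ hφ => ⟨fun h y hy => ?_, fun h f hf y hy => ?_⟩⟩
  · rw [ac_one]
    funext j
    exact h _ (tau_cr ht j) y hy
  · have h5 : chi0 n (φ y) = 1 := by rw [L6_chi hφ]; exact hy
    rw [h2 f hf _ h5, h2 f hf _ hy, h y hy, ac_one]

end Pool.Agent.Helper20.PR.Cr0
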