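import Pool.Agent.Helper20.PR.Base

set_option autoImplicit false

/-! # DEEP (helper98) -/

namespace Pool.Agent.Helper20.PR.Deep

open Pool.Agent.H29R2.MG Pool.Agent.Q290.SC
open Pool.Agent.H798R3.MG Pool.Agent.TH35.MG Pool.Agent.Q290.MG

theorem surf_fg (g : ℕ) : Group.FG (SurfaceGroup g) := by
  have h1 : Group.FG (FreeGroup (Fin g ⊕ Fin g)) := inferInstance
  exact Group.fg_of_surjective (mk_surjective g)

variable {n : ℕ} {t : SurfaceGroup (n + 1) → VV n}

theorem t_one (ht : IsTau n t) : t 1 = 0 := by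
  have := ht.mul 1 1
  rw [mul_one, map_one, Units.val_one, one_smul] at this
  simpa using this

theorem t_inv (ht : IsTau n t) (x : SurfaceGroup (n + 1)) :
    t x⁻¹ = - (((chi0 n x⁻¹ : ℤˣ) : ℤ) • t x) := by
  have h1 := ht.mul x⁻¹ x
  rw [inv_mul_cancel, t_one ht] at h1
  exact eq_neg_of_add_eq_zero_left h1.symm

/-- the deep subgroup -/
def K0 (ht : IsTau n t) (m : ℤ) : Subgroup (SurfaceGroup (n + 1)) where
  carrier := {x | chi0 n x = 1 ∧ (∀ j, (6 * m) ∣ homologyClass x j) ∧ ∀ j, m ∣ t x j}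
  one_mem' := ⟨map_one _, fun j => by rw [hc_one]; exact dvd_zero _,
    fun j => by rw [t_one ht]; exact dvd_zero _⟩
  mul_mem' := by
    rintro x y ⟨h1, h2, h3⟩ ⟨h4, h5, h6⟩
    refine ⟨by rw [map_mul, h1, h4, one_mul], fun j => ?_, fun j => ?_⟩
    · rw [hc_mul, Pi.add_apply]; exact dvd_add (h2 j) (h5 j)
    · rw [ht.mul, h1, Units.val_one, one_smul, Pi.add_apply]; exact dvd_add (h3 j) (h6 j)
  inv_mem' := by
    rintro x ⟨h1, h2, h3⟩
    refine ⟨by rw [map_inv, h1, inv_one], fun j => ?_, fun j => ?_⟩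
    · rw [hc_inv, Pi.neg_apply]; exact (dvd_neg).2 (h2 j)
    · rw [t_inv ht, map_inv, h1, inv_one, Units.val_one, one_smul, Pi.neg_apply]
      exact (dvd_neg).2 (h3 j)

theorem K0_fi (ht : IsTau n t) {m : ℤ} (hm : 1 ≤ m) : (K0 ht m).FiniteIndex := by
  obtain ⟨N, hN⟩ : ∃ N : ℕ, (N : ℤ) = m := ⟨m.toNat, Int.toNat_of_nonneg (by omega)⟩
  have hN0 : N ≠ 0 := by rintro rfl; simp at hN; omega
  have : NeZero N := ⟨hN0⟩
  have : NeZero (6 * N) := ⟨by positivity⟩
  have hfin : Finite (SurfaceGroup (n + 1) ⧸ K0 ht m) := by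
    refine Finite.of_injective (β := ℤˣ × (Fin (n + 1) ⊕ Fin (n + 1) → ZMod (6 * N)) ×
      (Fin n ⊕ Fin n → ZMod N))
      (fun c : SurfaceGroup (n + 1) ⧸ K0 ht m => (chi0 n c.out,
        fun j => ((homologyClass c.out j : ℤ) : ZMod (6 * N)), fun j => ((t c.out j : ℤ) : ZMod N))) ?_
    intro c c' h
    simp only [Prod.mk.injEq] at h
    obtain ⟨h1, h2, h3⟩ := h
    have h4 : (c.out)⁻¹ * c'.out ∈ K0 ht m := by
      refine ⟨by rw [map_mul, map_inv, h1, inv_mul_cancel], fun j => ?_, fun j => ?_⟩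
      · have := congrFun h2 j
        rw [ZMod.intCast_eq_intCast_iff_dvd_sub] at this
        rw [hc_mul, hc_inv, Pi.add_apply, Pi.neg_apply]
        have e : ((6 * N : ℕ) : ℤ) = 6 * m := by push_cast; rw [hN]
        rw [e] at this
        rw [neg_add_eq_sub]
        exact this
      · have := congrFun h3 j
        rw [ZMod.intCast_eq_intCast_iff_dvd_sub, hN] at this
        rw [ht.mul, t_inv ht, Pi.add_apply, Pi.neg_apply, Pi.smul_apply, Pi.smul_apply,
          smul_eq_mul, smul_eq_mul]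
        have e : -(((chi0 n (c.out)⁻¹ : ℤˣ) : ℤ) * t c.out j) +
            ((chi0 n (c.out)⁻¹ : ℤˣ) : ℤ) * t c'.out j =
            ((chi0 n (c.out)⁻¹ : ℤˣ) : ℤ) * (t c'.out j - t c.out j) := by ring
        rw [e]
        exact Dvd.dvd.mul_left this _
    have h5 := QuotientGroup.eq.2 h4
    rwa [QuotientGroup.out_eq', QuotientGroup.out_eq'] at h5
  exact Subgroup.finiteIndex_of_finite_quotient

theorem main (h : S_CR0) : S_DEEP := by
  intro n t ht m hm
  have hfi := K0_fi ht hm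
  obtain ⟨K, hK, hKf, hKK⟩ := charCore (surf_fg (n + 1)) (K0 ht m)
  refine ⟨K, hK, hKf, fun φ hφ => ?_⟩
  have h1 : ∀ x, φ x * x⁻¹ ∈ K0 ht m := fun x => hKK (hφ x)
  have h2 : ∀ x j, 6 * m ∣ homologyClass (φ x) j - homologyClass x j := by
    intro x j
    have := (h1 x).2.1 j
    rw [hc_mul, hc_inv, Pi.add_apply, Pi.neg_apply, ← sub_eq_add_neg] at this
    exact this
  refine ⟨fun x j => (Dvd.intro _ rfl).trans (h2 x j), fun M hM v j => ?_, fun M hM v j => ?_⟩
  · obtain ⟨y, hy, rfl⟩ := (h n t ht).1 v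
    rw [← hM y hy]
    have e : t (φ y) = t (φ y * y⁻¹) + t y := by
      have h3 := ht.mul (φ y * y⁻¹) y
      rw [inv_mul_cancel_right, (h1 y).1, Units.val_one, one_smul] at h3
      exact h3
    rw [e, Pi.add_apply, add_sub_cancel_right]
    exact (h1 y).2.2 j
  · obtain ⟨x, rfl⟩ := hc_surj v
    rw [← hM x]
    exact (Dvd.intro_left _ rfl).trans (h2 x j)

end Pool.Agent.Helper20.PR.Deep
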