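import Pool.Agent.Helper20.PR.Base

set_option autoImplicit false

/-! Module NC of project PR (helper20), by helper85: a subgroup normalized by a congruence subgroup
and containing a transvection contains a congruence subgroup. -/

namespace Pool.Agent.Helper20.PR.Nc

open Pool.Agent.H29R2.MG Pool.Agent.Q290.SC Pool.Agent.Helper20.PR

variable {g : ℕ}

/-- `u` has no component in the handle `i` -/
def Off (i : Fin g) (u : VV g) : Prop := u (Sum.inl i) = 0 ∧ u (Sum.inr i) = 0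

theorem idA {w u : VV g} (h : om w u = 0) (q s : ℤ) :
    T (w + q • u) s * T (w + (-q) • u) s * T w (-2 * s) = T u (2 * s * q ^ 2) := by
  have h' : om u w = 0 := by rw [om_swap, h, neg_zero]
  apply sp_ext
  intro y
  rw [ac_mul, ac_mul, ac_T, ac_T, ac_T, ac_T]
  simp only [om_add_right, om_add_left, om_smul_right, om_smul_left, om_self, h, h', mul_zero,
    add_zero]
  funext j
  simp only [Pi.add_apply, Pi.smul_apply, smul_eq_mul]
  ring

theorem idC {x y z : VV g} (h1 : om x y = 0) (h2 : om x z = 0) (h3 : om y z = 0) (t : ℤ) :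
    T (x + y + z) t = T (x + y) t * T (x + z) t * T (y + z) t * T x (-1 * t) * T y (-1 * t) *
      T z (-1 * t) := by
  have h1' : om y x = 0 := by rw [om_swap, h1, neg_zero]
  have h2' : om z x = 0 := by rw [om_swap, h2, neg_zero]
  have h3' : om z y = 0 := by rw [om_swap, h3, neg_zero]
  apply sp_ext
  intro v
  rw [ac_mul, ac_mul, ac_mul, ac_mul, ac_mul, ac_T, ac_T, ac_T, ac_T, ac_T, ac_T, ac_T]
  simp only [om_add_right, om_add_left, om_smul_right, om_self, h1, h2, h3, h1', h2', h3',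
    mul_zero, add_zero]
  funext j
  simp only [Pi.add_apply, Pi.smul_apply, smul_eq_mul]
  ring

theorem sup_univ (v : VV g) : Sup Finset.univ v := fun i hi => absurd (Finset.mem_univ i) hi

theorem stepA {U : Subgroup (SpG g)} {q : ℤ} (hU : ∀ R ∈ Ga g q, ∀ X ∈ U, R * X * R⁻¹ ∈ U)
    {i : Fin g} {s : ℤ} (hs : T (ve i) s ∈ U) {u : VV g} (hu : Off i u) :
    T u (2 * s * q ^ 2) ∈ U := by
  have key : ∀ u : VV g, Off i u → T (ve i + (-q) • u) s ∈ U := by
    intro u hu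
    have h0 : om u (vf i) = 0 := by rw [om_vf']; exact hu.1
    have hR : E u (vf i) q ∈ Ga g q := KS_Ga (E_mem (sup_univ u) (sup_univ (vf i)) (dvd_refl q))
    have h1 := hU _ hR _ hs
    rw [T_conj, ac_E h0] at h1
    have h2 : om u (ve i) = 0 := by rw [om_ve', hu.2, neg_zero]
    have h3 : om (vf i) (ve i : VV g) = -1 := by rw [om_vf]; simp [ve]
    rw [h2, h3, zero_smul, zero_add, neg_one_smul, smul_neg, ← neg_smul] at h1
    exact h1
  have hw : om (ve i) u = 0 := by rw [om_ve]; exact hu.2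
  rw [← idA hw q s]
  refine mul_mem (mul_mem ?_ (key u hu)) ?_
  · have h1 := key (-u) ⟨by simp [hu.1], by simp [hu.2]⟩
    rwa [smul_neg, ← neg_smul, neg_neg] at h1
  · rw [← T_zpow]
    exact zpow_mem hs _

/-- the component in the handle `i` -/
def pr (i : Fin g) (v : VV g) : VV g := v (Sum.inl i) • ve i + v (Sum.inr i) • vf i

theorem om_pr (i : Fin g) (v w : VV g) (hw : Off i w) : om (pr i v) w = 0 := by
  unfold pr
  rw [om_add_left, om_smul_left, om_smul_left, om_ve, om_vf, hw.1, hw.2]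
  simp

theorem off_pr {i j : Fin g} (h : i ≠ j) (v : VV g) : Off j (pr i v) := by
  unfold Off pr ve vf
  simp [h.symm]

theorem off_add {i : Fin g} {u v : VV g} (hu : Off i u) (hv : Off i v) : Off i (u + v) := by
  unfold Off at *
  simp [hu.1, hu.2, hv.1, hv.2]

theorem off_rest {i j : Fin g} (h : i ≠ j) (v : VV g) : Off i (v - pr i v - pr j v) := by
  unfold Off pr ve vf
  simp [h]

theorem stepC {U : Subgroup (SpG g)} {i j k : Fin g} (hij : i ≠ j) (hik : i ≠ k) (hjk : j ≠ k)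
    {K : ℤ} (hi : ∀ u, Off i u → T u K ∈ U) (hj : ∀ u, Off j u → T u K ∈ U)
    (hk : ∀ u, Off k u → T u K ∈ U) (v : VV g) : T v K ∈ U := by
  obtain ⟨z, hz⟩ : ∃ z, z = v - pr i v - pr j v := ⟨_, rfl⟩
  have hv : v = pr i v + pr j v + z := by rw [hz]; abel
  have hzi : Off i z := by rw [hz]; exact off_rest hij v
  have hzj : Off j z := by
    rw [hz, sub_sub, add_comm, ← sub_sub]; exact off_rest hij.symm v
  rw [hv, idC (om_pr i v _ (off_pr hij.symm v)) (om_pr i v z hzi) (om_pr j v z hzj)]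
  rw [← T_zpow, ← T_zpow, ← T_zpow]
  refine mul_mem (mul_mem (mul_mem (mul_mem (mul_mem ?_ ?_) ?_) ?_) ?_) ?_
  · exact hk _ (off_add (off_pr hik v) (off_pr hjk v))
  · exact hj _ (off_add (off_pr hij v) hzj)
  · exact hi _ (off_add (off_pr hij.symm v) hzi)
  · exact zpow_mem (hj _ (off_pr hij v)) _
  · exact zpow_mem (hi _ (off_pr hij.symm v)) _
  · exact zpow_mem (hi _ hzi) _

theorem off_ve {i j : Fin g} (h : i ≠ j) : Off j (ve i : VV g) := by
  unfold Off ve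
  simp [h.symm]

/-- the case of the transvection of a basis vector -/
theorem nc0 (h : S_CSP2) (hg : 3 ≤ g) {U : Subgroup (SpG g)} {q : ℤ} (hq : 1 ≤ q)
    (hU : ∀ R ∈ Ga g q, ∀ X ∈ U, R * X * R⁻¹ ∈ U) {s : ℤ} (hs0 : s ≠ 0)
    (hs : T (ve ⟨0, by omega⟩) s ∈ U) : ∃ m : ℤ, 1 ≤ m ∧ Ga g m ≤ U := by
  obtain ⟨i, hi⟩ : ∃ i : Fin g, i = ⟨0, by omega⟩ := ⟨_, rfl⟩
  obtain ⟨j, hj⟩ : ∃ j : Fin g, j = ⟨1, by omega⟩ := ⟨_, rfl⟩
  obtain ⟨k, hk⟩ : ∃ k : Fin g, k = ⟨2, by omega⟩ := ⟨_, rfl⟩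
  have hij : i ≠ j := by rw [hi, hj]; simp
  have hik : i ≠ k := by rw [hi, hk]; simp
  have hjk : j ≠ k := by rw [hj, hk]; simp
  rw [← hi] at hs
  have a1 : ∀ u, Off i u → T u (2 * s * q ^ 2) ∈ U := fun u hu => stepA hU hs hu
  have a2 : ∀ u, Off j u → T u (2 * (2 * s * q ^ 2) * q ^ 2) ∈ U := fun u hu =>
    stepA hU (a1 _ (off_ve hij.symm)) hu
  have a3 : ∀ u, Off k u → T u (2 * (2 * s * q ^ 2) * q ^ 2) ∈ U := fun u hu =>
    stepA hU (a1 _ (off_ve hik.symm)) hu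
  have a4 : ∀ u, Off i u → T u (2 * (2 * s * q ^ 2) * q ^ 2) ∈ U := fun u hu => by
    have e : 2 * (2 * s * q ^ 2) * q ^ 2 = (2 * q ^ 2) * (2 * s * q ^ 2) := by ring
    rw [e, ← T_zpow]
    exact zpow_mem (a1 u hu) _
  obtain ⟨K, hK⟩ : ∃ K : ℤ, K = 2 * (2 * s * q ^ 2) * q ^ 2 := ⟨_, rfl⟩
  rw [← hK] at a2 a3 a4
  have hK0 : K ≠ 0 := by
    have hq0 : q ≠ 0 := by omega
    rw [hK]; positivity
  have hall : ∀ v t, K ∣ t → T v t ∈ U := by
    rintro v t ⟨c, rfl⟩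
    rw [mul_comm, ← T_zpow]
    exact zpow_mem (stepC hij hik hjk a4 a2 a3 v) _
  obtain ⟨m, hm⟩ : ∃ m : ℤ, m = 4 * |K| := ⟨_, rfl⟩
  have hm1 : 1 ≤ m := by
    have := abs_pos.2 hK0
    omega
  have hKm : K ∣ m := by
    rw [hm]
    exact Dvd.dvd.mul_left ((dvd_abs K K).2 (dvd_refl K)) 4
  refine ⟨m, hm1, ?_⟩
  obtain ⟨P, hP⟩ : ∃ P : Subgroup (SpG g), P = Subgroup.closure {X | ∃ v t, m ∣ t ∧ X = T v t} :=
    ⟨_, rfl⟩
  have hPn : P.Normal := by
    refine ⟨fun X hX R => ?_⟩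
    rw [hP] at hX ⊢
    induction hX using Subgroup.closure_induction with
    | mem x hx =>
      obtain ⟨v, t, ht, rfl⟩ := hx
      rw [T_conj]
      exact Subgroup.subset_closure ⟨_, _, ht, rfl⟩
    | one => rw [mul_one, mul_inv_cancel]; exact one_mem _
    | mul x y _ _ hx hy =>
      have e : R * (x * y) * R⁻¹ = (R * x * R⁻¹) * (R * y * R⁻¹) := by group
      rw [e]; exact mul_mem hx hy
    | inv x _ hx =>
      have e : R * x⁻¹ * R⁻¹ = (R * x * R⁻¹)⁻¹ := by group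
      rw [e]; exact inv_mem hx
  have hPU : P ≤ U := by
    rw [hP, Subgroup.closure_le]
    rintro _ ⟨v, t, ht, rfl⟩
    exact hall v t (hKm.trans ht)
  intro M hM
  apply hPU
  have h1 := h g hg (SpG g ⧸ P) (QuotientGroup.mk' P) m hm1 ⟨|K|, hm⟩ (fun v t ht => by
    rw [QuotientGroup.mk'_apply, QuotientGroup.eq_one_iff, hP]
    exact Subgroup.subset_closure ⟨v, t, ht, rfl⟩) M hM
  rwa [QuotientGroup.mk'_apply, QuotientGroup.eq_one_iff] at h1

theorem ga_conj {q : ℤ} {M : SpG g} (hM : M ∈ Ga g q) (X : SpG g) : X * M * X⁻¹ ∈ Ga g q := by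
  intro x j
  rw [ac_mul, ac_mul]
  obtain ⟨y, hy⟩ : ∃ y, y = ac X⁻¹ x := ⟨_, rfl⟩
  have hx : x = ac X y := by rw [hy, ac_inv_self]
  rw [← hy, hx]
  choose c hc using hM y
  have h1 : ac M y = y + q • c := by
    funext l
    have := hc l
    simp only [Pi.add_apply, Pi.smul_apply, smul_eq_mul]
    linarith
  rw [h1, ac_add, ac_smul]
  simp only [Pi.add_apply, Pi.smul_apply, smul_eq_mul, add_sub_cancel_left]
  exact dvd_mul_right _ _

theorem main (h : S_CSP2) : S_NC := by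
  intro g hg U q hq hU ⟨w, w', s, hw, hs0, hs⟩
  obtain ⟨X, -, hX⟩ := Pool.Agent.Q158.SC.tr g Finset.univ ⟨0, by omega⟩ (Finset.mem_univ _) w
    (sup_univ w) ⟨w', hw⟩
  have h1 : ∀ Y, Y ∈ U.map (MulAut.conj X).toMonoidHom ↔ X⁻¹ * Y * X ∈ U := by
    intro Y
    rw [Subgroup.mem_map]
    constructor
    · rintro ⟨Z, hZ, rfl⟩
      have e : X⁻¹ * ((MulAut.conj X).toMonoidHom Z) * X = Z := by
        show X⁻¹ * (X * Z * X⁻¹) * X = Z
        group
      rwa [e]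
    · intro hY
      refine ⟨_, hY, ?_⟩
      show X * (X⁻¹ * Y * X) * X⁻¹ = Y
      group
  obtain ⟨m, hm, hGa⟩ := nc0 (U := U.map (MulAut.conj X).toMonoidHom) h hg hq (fun R hR Y hY => by
    rw [h1] at hY ⊢
    have h2 := ga_conj hR X⁻¹
    rw [inv_inv] at h2
    have h3 := hU _ h2 _ hY
    have e : X⁻¹ * (R * Y * R⁻¹) * X = X⁻¹ * R * X * (X⁻¹ * Y * X) * (X⁻¹ * R * X)⁻¹ := by group
    rwa [e]) hs0 (by
    rw [h1, ← hX, ← T_conj]
    have e : X⁻¹ * (X * T w s * X⁻¹) * X = T w s := by group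
    rwa [e])
  refine ⟨m, hm, fun M hM => ?_⟩
  have h2 := hGa (ga_conj hM X)
  rw [h1] at h2
  have e : X⁻¹ * (X * M * X⁻¹) * X = M := by group
  rwa [e] at h2

end Pool.Agent.Helper20.PR.Nc
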