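import Pool.Agent.Helper20.PR.Base

set_option autoImplicit false

namespace Pool.Agent.Helper20.PR.Num2

open Pool.Agent.Helper20.PR

/-- Dirichlet's theorem for integers -/
theorem dir {c N : ℤ} (hN : N ≠ 0) (hc : IsCoprime c N) (B : ℕ) :
    ∃ r : ℕ, B < r ∧ r.Prime ∧ N ∣ (r : ℤ) - c := by
  have hbn : N.natAbs ≠ 0 := Int.natAbs_ne_zero.mpr hN
  have : NeZero N.natAbs := ⟨hbn⟩
  have hunit : IsUnit ((c : ℤ) : ZMod N.natAbs) := by
    rw [ZMod.coe_int_isUnit_iff_isCoprime]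
    have h6 : IsCoprime |N| c := by
      rcases abs_choice N with h | h
      · rw [h]; exact hc.symm
      · rw [h]; exact hc.symm.neg_left
    rwa [Int.natCast_natAbs]
  obtain ⟨r, hr2, hrp, hr⟩ := Nat.forall_exists_prime_gt_and_eq_mod hunit B
  refine ⟨r, hr2, hrp, ?_⟩
  have h5 : (((r : ℤ) - c : ℤ) : ZMod N.natAbs) = 0 := by
    push_cast
    rw [hr]
    ring
  rw [ZMod.intCast_zmod_eq_zero_iff_dvd] at h5
  exact Int.natAbs_dvd.mp h5

/-- the values at `-r`, `r` prime, have order dividing `(r - 1) / 2` -/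
theorem core {Q : Type} [Group Q] {q : ℤ} (hq4 : 4 ∣ q) {s : ℤ → ℤ → Q}
    (h1 : ∀ a b t : ℤ, q ∣ a - 1 → q ∣ b → IsCoprime a b → s (a + t * b) b = s a b)
    (h2 : ∀ a b t : ℤ, q ∣ a - 1 → q ∣ b → IsCoprime a b → q ∣ t → s a (b + t * a) = s a b)
    (h3 : ∀ a w : ℤ, q ∣ a - 1 → q ∣ w → IsCoprime a w →
      ∃ c : Q, ∀ b : ℤ, q ∣ b → IsCoprime a b → s a b = c * s a (b * w ^ 2))
    (h10 : s 1 0 = 1) {r : ℕ} (hrp : r.Prime) (hr1 : q ∣ (r : ℤ) + 1) {b : ℤ} (hb : q ∣ b)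
    (hcopr : IsCoprime (r : ℤ) b) : s (-(r : ℤ)) b ^ (r / 2) = 1 := by
  have hA : ∀ b : ℤ, q ∣ b → s 1 b = 1 := by
    intro b hb
    have := h2 1 0 b (by simp) (dvd_zero _) isCoprime_one_left hb
    rw [zero_add, mul_one] at this
    rw [this, h10]
  have hqa : ∀ a : ℤ, q ∣ a - 1 → IsCoprime q a := by
    rintro a ⟨j, hj⟩
    exact ⟨-j, 1, by linear_combination hj⟩
  have hB : ∀ a b b' : ℤ, q ∣ a - 1 → q ∣ b → q ∣ b' → IsCoprime a b' → a ∣ b - b' →
      s a b = s a b' := by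
    rintro a b b' ha hb hb' hc ⟨t, ht⟩
    have hqt : q ∣ t := by
      have h5 : q ∣ a * t := by rw [← ht]; exact dvd_sub hb hb'
      exact (hqa a ha).dvd_of_dvd_mul_left h5
    have h6 := h2 a b' t ha hb' hc hqt
    rw [← h6]
    congr 1
    linear_combination ht
  have hI1 : ∀ a : ℤ, q ∣ a - 1 → s a (1 - a) = 1 := by
    intro a ha
    have hd : q ∣ 1 - a := (dvd_sub_comm).mp ha
    have h5 := h1 a (1 - a) 1 ha hd ⟨1, 1, by ring⟩
    rw [← h5, show a + 1 * (1 - a) = 1 by ring]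
    exact hA _ hd
  have hI2 : ∀ a : ℤ, q ∣ a - 1 → s a (a - 1) = 1 := by
    intro a ha
    have h5 := h1 a (a - 1) (-1) ha ha ⟨1, -1, by ring⟩
    rw [← h5, show a + -1 * (a - 1) = 1 by ring]
    exact hA _ ha
  have : Fact r.Prime := ⟨hrp⟩
  have hr4 : ∃ k : ℕ, r + 1 = 4 * k := by
    obtain ⟨k, hk⟩ := hq4.trans hr1
    refine ⟨k.toNat, ?_⟩
    omega
  obtain ⟨k, hrk⟩ := hr4
  have hk1 : 1 ≤ k := by omega
  set m : ℕ := 2 * k - 1 with hm
  have hm1 : 1 ≤ m := by omega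
  have hr2m : r - 1 = 2 * m := by omega
  have hrdiv : r / 2 = m := by omega
  have hmodd : Odd m := ⟨k - 1, by omega⟩
  set A : ℤ := -(r : ℤ) with hAdef
  have har : q ∣ A - 1 := by
    have : A - 1 = -((r : ℤ) + 1) := by rw [hAdef]; ring
    rw [this]
    exact (dvd_neg).2 hr1
  -- (iv)
  have hiv : ∀ w : ℤ, q ∣ w → IsCoprime A w → s A (w ^ 2) ^ m = 1 ∧ ∀ b : ℤ, q ∣ b → IsCoprime A b →
      s A (b * w ^ 2) = s A (w ^ 2) * s A b := by
    intro w hw hcw
    obtain ⟨c, hc⟩ := h3 A w har hw hcw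
    have hcw2 : IsCoprime A (w ^ 2) := hcw.pow_right
    have hqw2 : q ∣ w ^ 2 := dvd_pow hw (by norm_num)
    have hd : q ∣ 1 - A := (dvd_sub_comm).mp har
    have e1 : s A ((1 - A) * w ^ 2) = s A (w ^ 2) :=
      hB A _ _ har (Dvd.dvd.mul_right hd _) hqw2 hcw2 ⟨-w ^ 2, by ring⟩
    have e2 : (1 : Q) = c * s A (w ^ 2) := by
      rw [← e1, ← hc (1 - A) hd ⟨1, 1, by ring⟩, hI1 A har]
    have e3 : ∀ b : ℤ, q ∣ b → IsCoprime A b → s A (b * w ^ 2) = s A (w ^ 2) * s A b := by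
      intro b hb hAb
      have h5 := hc b hb hAb
      have h6 : c = (s A (w ^ 2))⁻¹ := eq_inv_of_mul_eq_one_left e2.symm
      rw [h5, h6]
      group
    have e4 : ∀ l : ℕ, s A (w ^ (2 * (l + 1))) = s A (w ^ 2) ^ (l + 1) := by
      intro l
      induction l with
      | zero => simp
      | succ l ih =>
        have h5 := e3 (w ^ (2 * (l + 1))) (dvd_pow hw (by omega)) hcw.pow_right
        rw [show w ^ (2 * (l + 1 + 1)) = w ^ (2 * (l + 1)) * w ^ 2 by ring, h5, ih, pow_succ' _ (l + 1)]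
    have e5 : s A (w ^ 2) ^ m = 1 := by
      obtain ⟨l, hl⟩ : ∃ l, m = l + 1 := ⟨m - 1, by omega⟩
      rw [hl, ← e4 l, ← hl, ← hr2m]
      have hw0 : ((w : ℤ) : ZMod r) ≠ 0 := by
        intro h0
        rw [ZMod.intCast_zmod_eq_zero_iff_dvd] at h0
        have h6 : IsCoprime (r : ℤ) w := by
          have := hcw.neg_left
          rwa [hAdef, neg_neg] at this
        have h7 : IsUnit (r : ℤ) := h6.isUnit_of_dvd' dvd_rfl h0
        have h8 := Int.isUnit_iff.mp h7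
        have h9 := hrp.two_le
        omega
      have hf := ZMod.pow_card_sub_one_eq_one hw0
      have h6 : (r : ℤ) ∣ w ^ (r - 1) - 1 := by
        rw [← ZMod.intCast_zmod_eq_zero_iff_dvd]
        push_cast
        rw [hf]
        ring
      have h7 : A ∣ w ^ (r - 1) - (1 - A) := by
        rw [show w ^ (r - 1) - (1 - A) = (w ^ (r - 1) - 1) + A by ring]
        apply dvd_add _ dvd_rfl
        rw [hAdef]
        exact neg_dvd.mpr h6
      rw [hB A _ (1 - A) har (dvd_pow hw (by omega)) hd ⟨1, 1, by ring⟩ h7]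
      exact hI1 A har
    exact ⟨e5, e3⟩
  -- (v)
  have hcop : IsCoprime A b := hcopr.neg_left
  have hnotunit : ¬ IsUnit (r : ℤ) := by
    intro h7
    have h8 := Int.isUnit_iff.mp h7
    have h9 := hrp.two_le
    omega
  have hb0' : ((b : ℤ) : ZMod r) ≠ 0 := by
    intro h0
    rw [ZMod.intCast_zmod_eq_zero_iff_dvd] at h0
    exact hnotunit (hcopr.isUnit_of_dvd' dvd_rfl h0)
  have hq0 : ((q : ℤ) : ZMod r) ≠ 0 := by
    intro h0
    rw [ZMod.intCast_zmod_eq_zero_iff_dvd] at h0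
    have h6 : IsCoprime q A := hqa A har
    have h7 : (r : ℤ) ∣ A := by rw [hAdef]; exact dvd_neg.mpr dvd_rfl
    exact hnotunit (h6.isUnit_of_dvd' h0 h7)
  have hsq : ∃ x : ZMod r, x ≠ 0 ∧ ((b : ZMod r) * x ^ 2 = 1 ∨ (b : ZMod r) * x ^ 2 = -1) := by
    rcases ZMod.pow_div_two_eq_neg_one_or_one r hb0' with h | h
    · obtain ⟨z, hz⟩ := (ZMod.euler_criterion r hb0').mpr h
      have hz0 : z ≠ 0 := by
        rintro rfl
        rw [mul_zero] at hz
        exact hb0' hz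
      refine ⟨z⁻¹, inv_ne_zero hz0, Or.inl ?_⟩
      rw [hz]
      field_simp
    · have hnb : (-(b : ZMod r)) ≠ 0 := neg_ne_zero.mpr hb0'
      have h5 : (-(b : ZMod r)) ^ (r / 2) = 1 := by
        rw [hrdiv] at h ⊢
        rw [hmodd.neg_pow, h, neg_neg]
      obtain ⟨z, hz⟩ := (ZMod.euler_criterion r hnb).mpr h5
      have hz0 : z ≠ 0 := by
        rintro rfl
        rw [mul_zero] at hz
        exact hnb hz
      refine ⟨z⁻¹, inv_ne_zero hz0, Or.inr ?_⟩
      have : (b : ZMod r) = -(z * z) := by rw [← hz, neg_neg]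
      rw [this]
      field_simp
  obtain ⟨x, hx0, hx⟩ := hsq
  set u : ℤ := ((((q : ℤ) : ZMod r)⁻¹ * x).val : ℤ) with hu
  set w : ℤ := q * u with hw
  have hwx : ((w : ℤ) : ZMod r) = x := by
    rw [hw, hu]
    push_cast
    rw [ZMod.natCast_zmod_val]
    rw [← mul_assoc, mul_inv_cancel₀ hq0, one_mul]
  have hqw : q ∣ w := Dvd.intro _ rfl
  have hAw : IsCoprime A w := by
    rw [hAdef]
    apply IsCoprime.neg_left
    have h5 : ¬ (r : ℤ) ∣ w := by
      intro h0
      rw [← ZMod.intCast_zmod_eq_zero_iff_dvd, hwx] at h0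
      exact hx0 h0
    exact ((Nat.prime_iff_prime_int.mp hrp).coprime_iff_not_dvd).mpr h5
  obtain ⟨hpow, hmul⟩ := hiv w hqw hAw
  have hone : s A (b * w ^ 2) = 1 := by
    rcases hx with hx | hx
    · have h6 : (r : ℤ) ∣ b * w ^ 2 - 1 := by
        rw [← ZMod.intCast_zmod_eq_zero_iff_dvd]
        push_cast
        rw [hwx, hx]
        ring
      have h7 : A ∣ b * w ^ 2 - (1 - A) := by
        rw [show b * w ^ 2 - (1 - A) = (b * w ^ 2 - 1) + A by ring]
        apply dvd_add _ dvd_rfl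
        rw [hAdef]
        exact neg_dvd.mpr h6
      rw [hB A _ (1 - A) har (Dvd.dvd.mul_right hb _) ((dvd_sub_comm).mp har) ⟨1, 1, by ring⟩ h7]
      exact hI1 A har
    · have h6 : (r : ℤ) ∣ b * w ^ 2 + 1 := by
        rw [← ZMod.intCast_zmod_eq_zero_iff_dvd]
        push_cast
        rw [hwx, hx]
        ring
      have h7 : A ∣ b * w ^ 2 - (A - 1) := by
        rw [show b * w ^ 2 - (A - 1) = (b * w ^ 2 + 1) - A by ring]
        apply dvd_sub _ dvd_rfl
        rw [hAdef]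
        exact neg_dvd.mpr h6
      rw [hB A _ (A - 1) har (Dvd.dvd.mul_right hb _) har ⟨1, -1, by ring⟩ h7]
      exact hI2 A har
  have h8 : s A b = (s A (w ^ 2))⁻¹ := by
    apply eq_inv_of_mul_eq_one_right
    rw [← hmul b hb hcop, hone]
  rw [hrdiv, h8, inv_pow, hpow, inv_one]

theorem main : S_NUM2 := by
  intro Q _ q hq1 hq4 s h1 h2 h3 h10 a b ha hb hab
  have hq4' : 4 ≤ q := by
    obtain ⟨k, hk⟩ := hq4
    omega
  have hA : ∀ b : ℤ, q ∣ b → s 1 b = 1 := by
    intro b hb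
    have := h2 1 0 b (by simp) (dvd_zero _) isCoprime_one_left hb
    rw [zero_add, mul_one] at this
    rw [this, h10]
  by_cases hb0 : b = 0
  · subst hb0
    have hu : IsUnit a := isCoprime_zero_right.mp hab
    rcases Int.isUnit_iff.mp hu with rfl | rfl
    · exact hA 0 (dvd_zero _)
    · exfalso
      have h5 := Int.le_of_dvd (by norm_num) ((dvd_neg.mpr ha))
      omega
  have ha0 : a ≠ 0 := by
    rintro rfl
    have h5 := Int.le_of_dvd (by norm_num) ((dvd_neg.mpr ha))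
    omega
  obtain ⟨b1, rfl⟩ := hb
  have hb1a : IsCoprime b1 a := (IsCoprime.of_mul_right_right hab).symm
  obtain ⟨p, hpa, hp, k, hk⟩ := dir ha0 hb1a (a.natAbs + 2)
  have hbp : q * (p : ℤ) = q * b1 + (q * k) * a := by linear_combination q * hk
  have hstep : s a (q * b1) = s a (q * p) := by
    rw [hbp]
    exact (h2 a _ _ ha (dvd_mul_right _ _) hab (dvd_mul_right _ _)).symm
  have hqp : q ∣ q * (p : ℤ) := dvd_mul_right _ _
  have hab' : IsCoprime a (q * (p : ℤ)) := by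
    rw [hbp]
    exact hab.add_mul_left_right (q * k) |> fun h => by simpa [mul_comm] using h
  rw [hstep]
  have hp0 : (0 : ℤ) < p := by exact_mod_cast hp.pos
  have hb'0 : q * (p : ℤ) ≠ 0 := by positivity
  -- no odd prime divisor of `q p` divides `a + 1`
  have hno : ∀ l : ℕ, l.Prime → l ≠ 2 → (l : ℤ) ∣ q * (p : ℤ) → ¬ (l : ℤ) ∣ a + 1 := by
    intro l hl hl2 hlb hla
    rcases (Nat.prime_iff_prime_int.mp hl).dvd_or_dvd hlb with h | h
    · have h5 : (l : ℤ) ∣ a - 1 := h.trans ha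
      have h6 : (l : ℤ) ∣ 2 := by
        have := dvd_sub hla h5
        ring_nf at this
        exact this
      have h7 : l ∣ 2 := by exact_mod_cast h6
      exact hl2 ((Nat.prime_dvd_prime_iff_eq hl Nat.prime_two).1 h7)
    · have h5 : l ∣ p := by exact_mod_cast h
      have h6 : l = p := (Nat.prime_dvd_prime_iff_eq hl hp).1 h5
      subst h6
      have h7 : a + 1 = 0 := by
        apply Int.eq_zero_of_abs_lt_dvd hla
        have e1 : |a + 1| ≤ |a| + 1 := (abs_add_le a 1).trans (by simp)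
        have e2 : ((a.natAbs : ℕ) : ℤ) = |a| := Int.natCast_natAbs a
        have e3 : ((a.natAbs + 2 : ℕ) : ℤ) < (l : ℤ) := by exact_mod_cast hpa
        push_cast at e3
        linarith
      have h8 : a = -1 := by omega
      subst h8
      have h9 := Int.le_of_dvd (by norm_num) ((dvd_neg.mpr ha))
      omega
  -- transfer to primes
  have htr : ∀ r : ℕ, q * (p : ℤ) ∣ (r : ℤ) - (-a) → r.Prime → s a (q * p) ^ (r / 2) = 1 := by
    rintro r ⟨t, ht⟩ hr
    have e1 : -(r : ℤ) = a + (-t) * (q * p) := by linear_combination -ht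
    have e2 : s a (q * p) = s (-(r : ℤ)) (q * p) := by
      rw [e1]
      exact (h1 a _ (-t) ha hqp hab').symm
    have e3 : IsCoprime (-(r : ℤ)) (q * p) := by
      rw [e1]
      exact hab'.add_mul_right_left (-t)
    rw [e2]
    apply core hq4 h1 h2 h3 h10 hr _ hqp
    · have := e3.neg_left
      rwa [neg_neg] at this
    · have e4 : (r : ℤ) + 1 = -(a - 1) + q * (p * t) := by linear_combination ht
      rw [e4]
      exact dvd_add ((dvd_neg).2 ha) (dvd_mul_right _ _)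
  obtain ⟨r0, hr02, hr0p, hr0⟩ := dir hb'0 (hab'.neg_left) 2
  have hx0 := htr r0 hr0 hr0p
  set m0 : ℕ := r0 / 2 with hm0
  have hm00 : m0 ≠ 0 := by omega
  have hr04 : (4 : ℤ) ∣ (r0 : ℤ) + 1 := by
    have h5 : q ∣ (r0 : ℤ) - (-a) := (dvd_mul_right _ _).trans hr0
    have h6 : (r0 : ℤ) + 1 = ((r0 : ℤ) - (-a)) - (a - 1) := by ring
    rw [h6]
    exact hq4.trans (dvd_sub h5 ha)
  have hm0r : (r0 : ℤ) - 1 = 2 * m0 := by omega
  have hm0odd : ¬ 2 ∣ m0 := by omega
  -- the auxiliary modulus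
  set F : Finset ℕ := m0.primeFactors.filter (fun l => ¬ (l : ℤ) ∣ q * (p : ℤ)) with hF
  set M : ℕ := ∏ l ∈ F, l with hM
  have hM0 : (M : ℤ) ≠ 0 := by
    have : M ≠ 0 := by
      rw [hM, Finset.prod_ne_zero_iff]
      intro l hl
      exact (Nat.prime_of_mem_primeFactors (Finset.mem_filter.1 hl).1).ne_zero
    exact_mod_cast this
  have hcopM : IsCoprime (q * (p : ℤ)) (M : ℤ) := by
    rw [hM]
    push_cast
    apply IsCoprime.prod_right
    intro l hl
    rw [Finset.mem_filter] at hl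
    exact ((Nat.prime_iff_prime_int.mp (Nat.prime_of_mem_primeFactors hl.1)).coprime_iff_not_dvd.2
      hl.2).symm
  obtain ⟨x, y, hxy⟩ := hcopM
  have hc1 : IsCoprime (-a * (y * M) + (-1) * (x * (q * p))) (q * (p : ℤ)) := by
    have e : -a * (y * M) + (-1) * (x * (q * p)) = -a + (a * x - x) * (q * (p : ℤ)) := by
      linear_combination (-a) * hxy
    rw [e]
    exact hab'.neg_left.add_mul_right_left _
  have hc2 : IsCoprime (-a * (y * M) + (-1) * (x * (q * p))) (M : ℤ) := by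
    have e : -a * (y * M) + (-1) * (x * (q * p)) = -1 + (y - a * y) * (M : ℤ) := by
      linear_combination (-1) * hxy
    rw [e]
    exact (isCoprime_one_left.neg_left).add_mul_right_left _
  obtain ⟨r1, hr12, hr1p, hr1⟩ := dir (mul_ne_zero hb'0 hM0) (hc1.mul_right hc2) 2
  have hr1b : q * (p : ℤ) ∣ (r1 : ℤ) - (-a) := by
    have e : (r1 : ℤ) - (-a) = ((r1 : ℤ) - (-a * (y * M) + (-1) * (x * (q * p)))) +
        (a * x - x) * (q * (p : ℤ)) := by
      linear_combination (-a) * hxy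
    rw [e]
    exact dvd_add ((dvd_mul_right _ _).trans hr1) (dvd_mul_left _ _)
  have hr1M : (M : ℤ) ∣ (r1 : ℤ) + 1 := by
    have e : (r1 : ℤ) + 1 = ((r1 : ℤ) - (-a * (y * M) + (-1) * (x * (q * p)))) +
        (y - a * y) * (M : ℤ) := by
      linear_combination (-1) * hxy
    rw [e]
    exact dvd_add ((dvd_mul_left _ _).trans hr1) (dvd_mul_left _ _)
  have hx1 := htr r1 hr1b hr1p
  set m1 : ℕ := r1 / 2 with hm1
  have hr14 : (4 : ℤ) ∣ (r1 : ℤ) + 1 := by
    have h5 : q ∣ (r1 : ℤ) - (-a) := (dvd_mul_right _ _).trans hr1b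
    have h6 : (r1 : ℤ) + 1 = ((r1 : ℤ) - (-a)) - (a - 1) := by ring
    rw [h6]
    exact hq4.trans (dvd_sub h5 ha)
  have hm1r : (r1 : ℤ) - 1 = 2 * m1 := by omega
  have hgcd : Nat.gcd m0 m1 = 1 := by
    apply Nat.Coprime.gcd_eq_one
    apply Nat.coprime_of_dvd
    intro l hl hl0 hl1
    have hl2 : l ≠ 2 := by
      rintro rfl
      exact hm0odd hl0
    have e0 : (l : ℤ) ∣ (r0 : ℤ) - 1 := by
      rw [hm0r]
      exact Dvd.dvd.mul_left (by exact_mod_cast hl0) _
    have e1 : (l : ℤ) ∣ (r1 : ℤ) - 1 := by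
      rw [hm1r]
      exact Dvd.dvd.mul_left (by exact_mod_cast hl1) _
    by_cases hlb : (l : ℤ) ∣ q * (p : ℤ)
    · apply hno l hl hl2 hlb
      have e2 : a + 1 = ((r0 : ℤ) - (-a)) - ((r0 : ℤ) - 1) := by ring
      rw [e2]
      exact dvd_sub (hlb.trans hr0) e0
    · have e2 : l ∈ F := by
        rw [hF, Finset.mem_filter]
        exact ⟨Nat.mem_primeFactors.2 ⟨hl, hl0, hm00⟩, hlb⟩
      have e3 : (l : ℤ) ∣ (M : ℤ) := by
        have : l ∣ M := Finset.dvd_prod_of_mem _ e2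
        exact_mod_cast this
      have e4 : (l : ℤ) ∣ 2 := by
        have := dvd_sub (e3.trans hr1M) e1
        ring_nf at this
        exact this
      have e5 : l ∣ 2 := by exact_mod_cast e4
      exact hl2 ((Nat.prime_dvd_prime_iff_eq hl Nat.prime_two).1 e5)
  have h5 := pow_gcd_eq_one.mpr ⟨hx0, hx1⟩
  rwa [hgcd, pow_one] at h5

end Pool.Agent.Helper20.PR.Num2
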