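import Pool.Agent.Helper20.PR.P1

set_option autoImplicit false

/-!
# Project PR: a separating twist which is nontrivial on a Prym part
-/

namespace Pool.Agent.Helper20.PR.P1t

open Pool.Agent.H29R2.MG Pool.Agent.Q290.SC
open Pool.Agent.H798R3.MG Pool.Agent.TH35.MG Pool.Agent.Q290.MG
open Pool.Agent.Helper20.PR Pool.Agent.Helper20.PR.Tau Pool.Agent.Helper20.PR.Star
  Pool.Agent.Helper20.PR.Cr0 Pool.Agent.Helper20.PR.Tw Pool.Agent.Helper20.PR.P1

/-- `s = [a_0, b_0]` -/
def ss (n : ℕ) : SurfaceGroup (n + 1) :=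
  gen (Sum.inl 0) * gen (Sum.inr 0) * (gen (Sum.inl 0))⁻¹ * (gen (Sum.inr 0))⁻¹

/-- the images of the generators -/
def val (n : ℕ) (m : ℤ) : Fin (n + 1) ⊕ Fin (n + 1) → SurfaceGroup (n + 1)
  | Sum.inl i => if i = 0 then ss n ^ m * gen (Sum.inl 0) * (ss n ^ m)⁻¹ else gen (Sum.inl i)
  | Sum.inr i => if i = 0 then ss n ^ m * gen (Sum.inr 0) * (ss n ^ m)⁻¹ else gen (Sum.inr i)

/-- conjugation of the first handle by `s ^ m` -/
theorem exists_hom (n : ℕ) (m : ℤ) : ∃ F : SurfaceGroup (n + 1) →* SurfaceGroup (n + 1),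
    ∀ j, F (gen j) = val n m j := by
  let f : FreeGroup (Fin (n + 1) ⊕ Fin (n + 1)) →* SurfaceGroup (n + 1) :=
    FreeGroup.lift (val n m)
  have hf : f (surfaceRelator (n + 1)) = 1 := by
    have h0 := mk_relator (n + 1)
    unfold surfaceRelator at h0 ⊢
    rw [List.ofFn_succ, List.prod_cons, map_mul] at h0 ⊢
    have e1 : f (FreeGroup.of (Sum.inl 0) * FreeGroup.of (Sum.inr 0) *
        (FreeGroup.of (Sum.inl 0))⁻¹ * (FreeGroup.of (Sum.inr 0))⁻¹) = ss n := by
      simp only [f, map_mul, map_inv, FreeGroup.lift_apply_of, val, if_true]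
      have : ss n ^ m * gen (Sum.inl 0) * (ss n ^ m)⁻¹ * (ss n ^ m * gen (Sum.inr 0) * (ss n ^ m)⁻¹) *
          (ss n ^ m * gen (Sum.inl 0) * (ss n ^ m)⁻¹)⁻¹ *
          (ss n ^ m * gen (Sum.inr 0) * (ss n ^ m)⁻¹)⁻¹ =
          ss n ^ m * ss n * (ss n ^ m)⁻¹ := by
        conv_rhs => rw [show ss n ^ m * ss n = ss n ^ m * (gen (Sum.inl 0) * gen (Sum.inr 0) *
          (gen (Sum.inl 0))⁻¹ * (gen (Sum.inr 0))⁻¹) from rfl]
        group
      rw [this]
      have hc : ss n ^ m * ss n = ss n * ss n ^ m := ((Commute.refl (ss n)).zpow_left m).eq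
      rw [hc, mul_inv_cancel_right]
    have e2 : mk (n + 1) (FreeGroup.of (Sum.inl 0) * FreeGroup.of (Sum.inr 0) *
        (FreeGroup.of (Sum.inl 0))⁻¹ * (FreeGroup.of (Sum.inr 0))⁻¹) = ss n := by
      simp only [map_mul, map_inv]
      rfl
    rw [e2] at h0
    rw [e1]
    rw [map_list_prod] at h0 ⊢
    rw [List.map_ofFn] at h0 ⊢
    have e3 : (f ∘ fun i : Fin n => FreeGroup.of (Sum.inl i.succ) * FreeGroup.of (Sum.inr i.succ) *
        (FreeGroup.of (Sum.inl i.succ))⁻¹ * (FreeGroup.of (Sum.inr i.succ))⁻¹) =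
        (mk (n + 1) ∘ fun i : Fin n => FreeGroup.of (Sum.inl i.succ) *
          FreeGroup.of (Sum.inr i.succ) *
        (FreeGroup.of (Sum.inl i.succ))⁻¹ * (FreeGroup.of (Sum.inr i.succ))⁻¹) := by
      funext i
      simp only [Function.comp_apply, f, map_mul, map_inv, FreeGroup.lift_apply_of, val,
        Fin.succ_ne_zero, if_false]
      rfl
    rw [e3]
    exact h0
  refine ⟨outHom f hf, fun j => ?_⟩
  have := outHom_mk f hf (FreeGroup.of j)
  rw [show f (FreeGroup.of j) = val n m j from FreeGroup.lift_apply_of] at this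
  exact this

theorem exists_aut (n : ℕ) : ∃ D : MulAut (SurfaceGroup (n + 1)), ∀ j, D (gen j) = val n 1 j := by
  obtain ⟨F, hF⟩ := exists_hom n 1
  obtain ⟨G, hG⟩ := exists_hom n (-1)
  have hs : ∀ (H : SurfaceGroup (n + 1) →* SurfaceGroup (n + 1)) (m : ℤ),
      (∀ j, H (gen j) = val n m j) → H (ss n) = ss n := by
    intro H m hH
    have e : H (ss n) = ss n ^ m * ss n * (ss n ^ m)⁻¹ := by
      conv_lhs => unfold ss
      rw [map_mul, map_mul, map_mul, map_inv, map_inv, hH, hH]
      simp only [val, if_true]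
      rw [show ss n ^ m * ss n = ss n ^ m * (gen (Sum.inl 0) * gen (Sum.inr 0) *
          (gen (Sum.inl 0))⁻¹ * (gen (Sum.inr 0))⁻¹) from rfl]
      group
    rw [e]
    have hc : ss n ^ m * ss n = ss n * ss n ^ m := ((Commute.refl (ss n)).zpow_left m).eq
    rw [hc, mul_inv_cancel_right]
  have hcomp : ∀ (H H' : SurfaceGroup (n + 1) →* SurfaceGroup (n + 1)) (m : ℤ),
      (∀ j, H (gen j) = val n m j) → (∀ j, H' (gen j) = val n (-m) j) →
      H'.comp H = MonoidHom.id _ := by
    intro H H' m hH hH'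
    apply surface_ext
    intro j
    rw [MonoidHom.comp_apply, hH, MonoidHom.id_apply]
    rcases j with i | i
    · by_cases hi : i = 0
      · subst hi
        simp only [val, if_true, map_mul, map_inv, map_zpow, hs H' (-m) hH', hH']
        rw [zpow_neg]
        group
      · simp only [val, if_neg hi, hH']
    · by_cases hi : i = 0
      · subst hi
        simp only [val, if_true, map_mul, map_inv, map_zpow, hs H' (-m) hH', hH']
        rw [zpow_neg]
        group
      · simp only [val, if_neg hi, hH']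
  have h1 := hcomp F G 1 hF hG
  have h2 := hcomp G F (-1) hG (by rw [neg_neg]; exact hF)
  exact ⟨{ toFun := F, invFun := G, left_inv := fun x => DFunLike.congr_fun h1 x,
           right_inv := fun x => DFunLike.congr_fun h2 x, map_mul' := map_mul F }, hF⟩

/-- the character with value `-1` at one generator -/
def chiv {g : ℕ} (j : Fin g ⊕ Fin g) : Ch g where
  toFun x := (-1 : ℤˣ) ^ (homologyClass x j)
  map_one' := by rw [hc_one, Pi.zero_apply, zpow_zero]
  map_mul' x y := by rw [hc_mul, Pi.add_apply, zpow_add]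

theorem chiv_gen {g : ℕ} (j k : Fin g ⊕ Fin g) : chiv j (gen k) = if j = k then -1 else 1 := by
  show (-1 : ℤˣ) ^ (homologyClass (gen k : SurfaceGroup g) j) = _
  rw [hcl_gen, Pi.single_apply]
  by_cases h : j = k
  · rw [if_pos h, if_pos h, zpow_one]
  · rw [if_neg h, if_neg h, zpow_zero]

theorem main (hE : S_EXT) (hc : S_CR0) (hact : S_ACT) (htr : S_TRANS) : S_P1T := by
  classical
  intro n hn t ht
  obtain ⟨D, hD⟩ := exists_aut n
  set i1 : Fin (n + 1) := Fin.succ ⟨0, hn⟩ with hi1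
  have hi10 : i1 ≠ 0 := Fin.succ_ne_zero _
  set χ : Ch (n + 1) := chiv (Sum.inr 0) * chiv (Sum.inr i1) with hχdef
  have χa : ∀ i, χ (gen (Sum.inl i)) = 1 := by
    intro i
    rw [hχdef, MonoidHom.mul_apply, chiv_gen, chiv_gen]
    simp
  have χ0 : χ (gen (Sum.inr 0)) = -1 := by
    rw [hχdef, MonoidHom.mul_apply, chiv_gen, chiv_gen, if_pos rfl, if_neg (by simp [hi10]), mul_one]
  have χ1 : χ (gen (Sum.inr i1)) = -1 := by
    rw [hχdef, MonoidHom.mul_apply, chiv_gen, chiv_gen, if_pos rfl, if_neg (by simp [hi10.symm]),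
      one_mul]
  have χb : ∀ i, i ≠ 0 → i ≠ i1 → χ (gen (Sum.inr i)) = 1 := by
    intro i h h'
    rw [hχdef, MonoidHom.mul_apply, chiv_gen, chiv_gen, if_neg (by simp [h.symm]),
      if_neg (by simp [h'.symm]), one_mul]
  have hχ1 : χ ≠ 1 := by
    intro h
    have := χ0
    rw [h, MonoidHom.one_apply] at this
    exact absurd this (by decide)
  obtain ⟨θ0, hθ0⟩ := htr n hn χ hχ1
  set θ : MulAut (SurfaceGroup (n + 1)) := θ0⁻¹ with hθ
  have hθχ : ∀ x, chi0 n (θ x) = χ x := by
    intro x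
    rw [← hθ0, hθ, MulAut.apply_inv_self]
  have hχss : ∀ χ' : Ch (n + 1), χ' (ss n) = 1 := by
    intro χ'
    unfold ss
    rw [map_mul, map_mul, map_mul, map_inv, map_inv, mul_comm (χ' (gen (Sum.inl 0)))]
    group
  have hss : homologyClass (ss n) = 0 := by
    unfold ss
    simp only [hcl_mul, hcl_inv]
    abel
  have hDhc : ∀ j, homologyClass (D (gen j)) = homologyClass (gen j : SurfaceGroup (n + 1)) := by
    intro j
    rw [hD]
    rcases j with i | i
    · by_cases hi : i = 0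
      · subst hi
        simp only [val, if_true, zpow_one, hcl_mul, hcl_inv, hss]
        abel
      · simp only [val, if_neg hi]
    · by_cases hi : i = 0
      · subst hi
        simp only [val, if_true, zpow_one, hcl_mul, hcl_inv, hss]
        abel
      · simp only [val, if_neg hi]
  have hD6 : D ∈ L6 (n + 1) := by
    apply L6_of_gen
    intro j i
    rw [hDhc, sub_self]
    exact dvd_zero _
  have hφ6 : θ * D * θ⁻¹ ∈ L6 (n + 1) := (L6_normal _).conj_mem D hD6 θ
  have hDcr : ∀ (χ : Ch (n + 1)) (f : SurfaceGroup (n + 1) → ℤ), Cr χ f →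
      Cr χ (fun x => f (D x)) := by
    intro χ f hf x y
    show f (D (x * y)) = _
    rw [map_mul, hf, L6_chi hD6]
  -- the effect of `D` on crossed homomorphisms
  have hconj : ∀ (χ' : Ch (n + 1)) (f : SurfaceGroup (n + 1) → ℤ), Cr χ' f → ∀ x,
      f (ss n * x * (ss n)⁻¹) = f x + (1 - ((χ' x : ℤˣ) : ℤ)) * f (ss n) := by
    intro χ' f hf x
    rw [hf, hf, map_mul, hχss, cr_inv hf, hχss]
    push_cast
    ring
  have hDf : ∀ (χ' : Ch (n + 1)) (f : SurfaceGroup (n + 1) → ℤ), Cr χ' f → ∀ j,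
      f (D (gen j)) = f (gen j) + (if j = Sum.inl 0 ∨ j = Sum.inr 0 then
        (1 - ((χ' (gen j) : ℤˣ) : ℤ)) else 0) * f (ss n) := by
    intro χ' f hf j
    rw [hD]
    rcases j with i | i
    · by_cases hi : i = 0
      · subst hi
        simp only [val, if_true, zpow_one, true_or]
        rw [hconj χ' f hf]
      · simp [val, hi]
    · by_cases hi : i = 0
      · subst hi
        simp only [val, if_true, zpow_one, or_true]
        rw [hconj χ' f hf]
      · simp [val, hi]
  refine ⟨θ * D * θ⁻¹, hφ6, ?_, ?_⟩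
  · refine (Tr_trans (χ := (1 : Ch (n + 1))) (χ' := 1) (fun x => rfl)).2 ?_
    intro f hf y _
    refine cr_ext (hDcr _ f hf) hf (fun j => ?_) y
    show f (D _) = _
    rw [hDf 1 f hf]
    simp
  · -- the crossed homomorphism `ε`
    obtain ⟨ε, hε, hεg⟩ := hE (n + 1) χ (fun j => if j = Sum.inl 0 ∨ j = Sum.inr 0 then
        (1 - ((χ (gen j) : ℤˣ) : ℤ)) else 0) (by
      rw [Fin.sum_univ_succ, Finset.sum_eq_zero]
      · simp
        ring
      · intro i _
        simp [Fin.succ_ne_zero])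
    have hf : ∀ f, Cr (chi0 n) f → ∀ y, f ((θ * D * θ⁻¹) y) =
        f y + ε (θ⁻¹ y) * f (θ (ss n)) := by
      intro f hf y
      have hf' : Cr χ (fun x => f (θ x)) := by
        intro x y
        show f (θ (x * y)) = f (θ x) + _ * f (θ y)
        rw [map_mul, hf, hθχ]
      have hRcr : Cr χ (fun x => f (θ x) + f (θ (ss n)) * ε x) := by
        intro x y
        show f (θ (x * y)) + _ * ε (x * y) = _
        have e1 : f (θ (x * y)) = f (θ x) + ((χ x : ℤˣ) : ℤ) * f (θ y) := hf' x y
        rw [e1, hε x y]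
        ring
      have key := cr_ext (hDcr _ _ hf') hRcr (fun j => by
          have e1 : f (θ (D (gen j))) = _ := hDf χ _ hf' j
          show f (θ (D (gen j))) = f (θ (gen j)) + f (θ (ss n)) * ε (gen j)
          rw [e1, hεg]
          ring) (θ⁻¹ y)
      have e2 : f (θ (D (θ⁻¹ y))) = f (θ (θ⁻¹ y)) + f (θ (ss n)) * ε (θ⁻¹ y) := key
      rw [MulAut.apply_inv_self] at e2
      rw [MulAut.mul_apply, MulAut.mul_apply, e2]
      ring
    refine A0_formula hc ht hact hφ6 (t (θ (ss n))) (fun y => ε (θ⁻¹ y)) ?_ ?_ ?_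
    · intro y
      funext j
      rw [Pi.add_apply, Pi.smul_apply, smul_eq_mul]
      exact hf _ (tau_cr ht j) y
    · intro h
      obtain ⟨F, hF, hFg⟩ := hE (n + 1) χ (fun j => if j = Sum.inl 0 then 1 else
          if j = Sum.inl i1 then -1 else 0) (by
        rw [Finset.sum_eq_add (0 : Fin (n + 1)) i1 hi10.symm]
        · rw [χ0, χ1, χa, χa]
          simp [hi10]
        · intro i _ hi
          simp [hi.1, hi.2]
        · intro h; exact absurd (Finset.mem_univ _) h
        · intro h; exact absurd (Finset.mem_univ _) h)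
      have hFs : F (ss n) = 2 := by
        unfold ss
        rw [hF, hF, hF, cr_inv hF, cr_inv hF, map_mul, map_mul, map_inv, χa, χ0, hFg, hFg]
        simp
      have hF' : Cr (chi0 n) (fun x => F (θ⁻¹ x)) := by
        intro x y
        show F (θ⁻¹ (x * y)) = F (θ⁻¹ x) + _ * F (θ⁻¹ y)
        rw [map_mul, hF, ← hθχ, MulAut.apply_inv_self]
      have h1 := (hc n t ht).2.1 _ hF' (θ (ss n)) (by rw [hθχ]; exact hχss χ)
      rw [h] at h1
      have h2 : F (θ⁻¹ (θ (ss n))) = 0 := by
        rw [h1]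
        simp
      rw [MulAut.inv_apply_self, hFs] at h2
      norm_num at h2
    · refine ⟨θ (gen (Sum.inr 0) * gen (Sum.inr i1)), ?_, ?_⟩
      · rw [hθχ, map_mul, χ0, χ1]
        norm_num
      · show ε (θ⁻¹ (θ (gen (Sum.inr 0) * gen (Sum.inr i1)))) ≠ 0
        rw [MulAut.inv_apply_self, hε, hεg, hεg, χ0]
        simp [hi10]

end Pool.Agent.Helper20.PR.P1t
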