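import Pool.Agent.Helper20.PR.Base

set_option autoImplicit false

/-! # P2 (helper98) -/

namespace Pool.Agent.Helper20.PR.P2

open Pool.Agent.H29R2.MG Pool.Agent.Q290.SC
open Pool.Agent.H798R3.MG Pool.Agent.TH35.MG Pool.Agent.Q290.MG

variable {g : ℕ}

theorem cr_one {χ : Ch g} {f : SurfaceGroup g → ℤ} (hf : Cr χ f) : f 1 = 0 := by
  have := hf 1 1
  rw [mul_one, map_one, Units.val_one, one_mul] at this
  omega

theorem cr_inv {χ : Ch g} {f : SurfaceGroup g → ℤ} (hf : Cr χ f) (x : SurfaceGroup g) :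
    f x⁻¹ = - (((χ x⁻¹ : ℤˣ) : ℤ) * f x) := by
  have h1 := hf x⁻¹ x
  rw [inv_mul_cancel, cr_one hf] at h1
  omega

theorem cr_ext {χ : Ch g} {f f' : SurfaceGroup g → ℤ} (hf : Cr χ f) (hf' : Cr χ f')
    (h : ∀ j, f (gen j) = f' (gen j)) (x : SurfaceGroup g) : f x = f' x := by
  obtain ⟨w, rfl⟩ := mk_surjective g x
  induction w using FreeGroup.induction_on with
  | C1 => rw [map_one, cr_one hf, cr_one hf']
  | of j => exact h j
  | inv_of j hj =>
    rw [map_inv, cr_inv hf, cr_inv hf']
    rw [hj]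
  | mul a b ha hb => rw [map_mul, hf, hf', ha, hb]

/-- `f ∘ φ` is a crossed homomorphism if `φ` preserves `χ`. -/
theorem cr_comp {χ : Ch g} {f : SurfaceGroup g → ℤ} (hf : Cr χ f) (φ : MulAut (SurfaceGroup g))
    (h : ∀ x, χ (φ x) = χ x) : Cr χ (fun x => f (φ x)) := fun x y => by
  show f (φ (x * y)) = _
  rw [map_mul, hf, h]

/-- a character with value `-1` on `x` : crossed homomorphisms vanish on `x ^ 2` -/
theorem cr_sq {χ : Ch g} {f : SurfaceGroup g → ℤ} (hf : Cr χ f) (x : SurfaceGroup g)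
    (h : χ x = -1) : f (x * x) = 0 := by
  rw [hf, h]; simp

theorem cr_six {χ : Ch g} {f : SurfaceGroup g → ℤ} (hf : Cr χ f) (x : SurfaceGroup g)
    (h : χ x = -1) : f (x ^ 6) = 0 := by
  have e : x ^ 6 = (x * x) * ((x * x) * (x * x)) := by simp only [pow_succ, pow_zero, one_mul, mul_assoc]
  have h2 : χ (x * x) = 1 := by rw [map_mul, h]; rfl
  rw [e, hf, hf (x * x) (x * x), h2, cr_sq hf x h]; simp

theorem chi_six (χ : Ch g) (x : SurfaceGroup g) : χ (x ^ 6) = 1 := by
  rw [map_pow]
  rcases Int.units_eq_one_or (χ x) with h | h <;> rw [h] <;> rfl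

/-- characters are trivial on elements, if the generators are moved by sixth powers -/
theorem pow_act {φ : MulAut (SurfaceGroup g)} {w : VV g} (h : Act φ (T w 1)) (m : ℕ) :
    Act (φ ^ m) (T w m) := by
  induction m with
  | zero =>
    intro x
    rw [pow_zero, ac_T]; simp
  | succ m ih =>
    intro x
    rw [pow_succ, MulAut.mul_apply, ih, h, ac_T, ac_T, ac_T, om_add_right, om_smul_right, om_self]
    push_cast
    module

theorem six_mem {φ : MulAut (SurfaceGroup g)} {w : VV g} (h : Act φ (T w 6)) : φ ∈ L6 g := by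
  intro x j
  rw [h x, ac_T]
  simp only [Pi.add_apply, Pi.smul_apply, smul_eq_mul]
  exact ⟨om w (homologyClass x) * w j, by ring⟩

theorem gen_chi {χ : Ch g} {φ : MulAut (SurfaceGroup g)} (h : ∀ j, χ (φ (gen j)) = χ (gen j)) :
    ∀ x, χ (φ x) = χ x := by
  have : χ.comp (φ : SurfaceGroup g →* SurfaceGroup g) = χ := surface_ext h
  exact fun x => DFunLike.congr_fun this x

theorem pow_fix {φ : MulAut (SurfaceGroup g)} {x : SurfaceGroup g} (h : φ x = x) (m : ℕ) :
    (φ ^ m) x = x := by
  induction m with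
  | zero => rfl
  | succ m ih => rw [pow_succ, MulAut.mul_apply, h, ih]

theorem pow_mov {φ : MulAut (SurfaceGroup g)} {x y : SurfaceGroup g} (h : φ x = x) (hy : φ y = y * x)
    (m : ℕ) : (φ ^ m) y = y * x ^ m := by
  induction m with
  | zero => rw [pow_zero, pow_zero, mul_one]; rfl
  | succ m ih => rw [pow_succ, MulAut.mul_apply, hy, map_mul, ih, pow_fix h, pow_succ, mul_assoc]

theorem core {χ : Ch g} (φ : MulAut (SurfaceGroup g)) (j₀ : Fin g ⊕ Fin g) (x : SurfaceGroup g)
    (hx : χ x = -1) (h0 : φ (gen j₀) = gen j₀ * x) (hfix : ∀ j, j ≠ j₀ → φ (gen j) = gen j)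
    (hxf : φ x = x) (w w' : VV g) (hw : om w w' = 1) (hA : Act φ (T w 1)) :
    ∃ φ ∈ L6 g, Tr χ φ ∧ ∃ (w w' : VV g) (s : ℤ), om w w' = 1 ∧ s ≠ 0 ∧ Act φ (T w s) := by
  have hA6 : Act (φ ^ 6) (T w 6) := pow_act hA 6
  refine ⟨φ ^ 6, six_mem hA6, ?_, w, w', 6, hw, by norm_num, hA6⟩
  intro f hf y _
  refine cr_ext (cr_comp hf (φ ^ 6) (gen_chi ?_)) hf ?_ y
  · intro j
    by_cases hj : j = j₀
    · subst hj
      rw [pow_mov hxf h0, map_mul, chi_six, mul_one]
    · rw [pow_fix (hfix j hj)]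
  · intro j
    show f ((φ ^ 6) (gen j)) = f (gen j)
    by_cases hj : j = j₀
    · subst hj
      rw [pow_mov hxf h0, hf, cr_six hf x hx, mul_zero, add_zero]
    · rw [pow_fix (hfix j hj)]

theorem main : S_P2 := by
  intro g h2 χ hχ
  obtain ⟨j, hj⟩ : ∃ j, χ (gen j) = -1 := by
    by_contra hcon
    push Not at hcon
    apply hχ
    apply surface_ext
    intro j
    rw [MonoidHom.one_apply]
    exact (Int.units_eq_one_or (χ (gen j))).resolve_right (hcon j)
  rcases j with k | k
  · have hv : ∀ j, ((TQ.qh g (sA g k) : orientedAut g) : MulAut (SurfaceGroup g)) (gen j) =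
        valA g k j := vA h2 k.2
    refine core ((TQ.qh g (sA g k) : orientedAut g) : MulAut (SurfaceGroup g)) (Sum.inr k)
      (gen (Sum.inl k)) hj ?_ ?_ ?_ (ve k) (vf k) ?_ ?_
    · rw [hv]
      show (if (k : ℕ) = k then gen (Sum.inr k) * gen (Sum.inl k) else gen (Sum.inr k)) = _
      rw [if_pos rfl]
    · rintro (i | i) hi
      · rw [hv]; rfl
      · rw [hv]
        show (if (i : ℕ) = k then gen (Sum.inr i) * gen (Sum.inl i) else gen (Sum.inr i)) = _
        rw [if_neg fun e => hi (by rw [Fin.ext e])]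
    · rw [hv]; rfl
    · rw [om_ve_vf, if_pos rfl]
    · apply act_of_gen
      intro j
      rw [hv]
      rcases j with i | i
      · rw [single_inl, ac_T, om_ve_ve, mul_zero, zero_smul, add_zero]
        show homologyClass (gen (Sum.inl i)) = _
        rw [hcl_gen]; rfl
      · rw [single_inr, ac_T, om_ve_vf]
        show homologyClass (if (i : ℕ) = k then gen (Sum.inr i) * gen (Sum.inl i)
          else gen (Sum.inr i)) = _
        by_cases h : (i : ℕ) = k
        · have h' : i = k := Fin.ext h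
          subst h'
          rw [if_pos rfl, if_pos rfl, hcl_mul, hcl_gen, hcl_gen, mul_one, one_smul]; rfl
        · have h' : ¬ k = i := fun e => h (by rw [e])
          rw [if_neg h, if_neg h', hcl_gen, mul_zero, zero_smul, add_zero]; rfl
  · have hv : ∀ j, ((TQ.qh g (sB g k) : orientedAut g) : MulAut (SurfaceGroup g)) (gen j) =
        valB g k j := vB h2 k.2
    refine core ((TQ.qh g (sB g k) : orientedAut g) : MulAut (SurfaceGroup g)) (Sum.inl k)
      (gen (Sum.inr k))⁻¹ (by rw [map_inv, hj]; rfl) ?_ ?_ ?_ (vf k) (-ve k) ?_ ?_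
    · rw [hv]
      show (if (k : ℕ) = k then gen (Sum.inl k) * (gen (Sum.inr k))⁻¹ else gen (Sum.inl k)) = _
      rw [if_pos rfl]
    · rintro (i | i) hi
      · rw [hv]
        show (if (i : ℕ) = k then gen (Sum.inl i) * (gen (Sum.inr i))⁻¹ else gen (Sum.inl i)) = _
        rw [if_neg fun e => hi (by rw [Fin.ext e])]
      · rw [hv]; rfl
    · rw [map_inv, hv]; rfl
    · rw [om_neg_right, om_vf_ve, if_pos rfl]; norm_num
    · apply act_of_gen
      intro j
      rw [hv]
      rcases j with i | i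
      · rw [single_inl, ac_T, om_vf_ve]
        show homologyClass (if (i : ℕ) = k then gen (Sum.inl i) * (gen (Sum.inr i))⁻¹
          else gen (Sum.inl i)) = _
        by_cases h : (i : ℕ) = k
        · have h' : i = k := Fin.ext h
          subst h'
          rw [if_pos rfl, if_pos rfl, hcl_mul, hcl_inv, hcl_gen, hcl_gen, one_mul, neg_one_smul]; rfl
        · have h' : ¬ k = i := fun e => h (by rw [e])
          rw [if_neg h, if_neg h', hcl_gen, mul_zero, zero_smul, add_zero]; rfl
      · rw [single_inr, ac_T, om_vf_vf, mul_zero, zero_smul, add_zero]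
        show homologyClass (gen (Sum.inr i)) = _
        rw [hcl_gen]; rfl

end Pool.Agent.Helper20.PR.P2
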