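import Pool.Agent.Helper20.PR.Tor

set_option autoImplicit false

namespace Pool.Agent.Helper20.PR.Proj

open Pool.Agent.H29R2.MG Pool.Agent.Q290.SC
open Pool.Agent.H798R3.MG Pool.Agent.TH35.MG Pool.Agent.Q290.MG
open Pool.Agent.Helper20.PR Pool.Agent.Helper20.PR.Tor

/-- homomorphisms to the integers detect elements modulo torsion -/
theorem tors_of (B : Type) [CommGroup B] [Group.FG B] (b : B)
    (h : ∀ f : B →* Multiplicative ℤ, f b = 1) : ∃ k : ℕ, 0 < k ∧ b ^ k = 1 := by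
  have hfin : Module.Finite ℤ (Additive B) :=
    Module.Finite.iff_addGroup_fg.mpr inferInstance
  let T : Submodule ℤ (Additive B) := Submodule.torsion ℤ (Additive B)
  have hfree : Module.Free ℤ (Additive B ⧸ T) := inferInstance
  have h0 : T.mkQ (Additive.ofMul b) = 0 := by
    rw [← Module.forall_dual_apply_eq_zero_iff ℤ]
    intro l
    let F : B →* Multiplicative ℤ :=
      { toFun := fun b => Multiplicative.ofAdd (l (T.mkQ (Additive.ofMul b)))
        map_one' := by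
          rw [ofMul_one, map_zero, map_zero]
          rfl
        map_mul' := fun x y => by
          rw [ofMul_mul, map_add, map_add]
          rfl }
    have h1 := h F
    exact Multiplicative.ofAdd.injective h1
  rw [Submodule.mkQ_apply, Submodule.Quotient.mk_eq_zero, Submodule.mem_torsion_iff] at h0
  obtain ⟨⟨a, ha⟩, hab⟩ := h0
  have ha0 : a ≠ 0 := nonZeroDivisors.ne_zero ha
  refine ⟨a.natAbs, Int.natAbs_pos.mpr ha0, ?_⟩
  have h2 : a • Additive.ofMul b = 0 := hab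
  have h3 : b ^ a = 1 := h2
  rcases Int.natAbs_eq a with h4 | h4
  · rw [h4, zpow_natCast] at h3
    exact h3
  · rw [h4, zpow_neg, zpow_natCast, inv_eq_one] at h3
    exact h3

instance normal (g : ℕ) : (G2 g).Normal := by
  rw [G2_eq]
  exact Subgroup.normal_iInf_normal fun χ => inferInstance

section

variable {g : ℕ} (h : G2 g →* Multiplicative ℤ)

/-- representatives -/
noncomputable def s (v : SurfaceGroup g ⧸ G2 g) : SurfaceGroup g := Quotient.out v

theorem mk_s (v : SurfaceGroup g ⧸ G2 g) : (s v : SurfaceGroup g ⧸ G2 g) = v :=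
  QuotientGroup.out_eq' v

theorem c_mem (v : SurfaceGroup g ⧸ G2 g) (x : SurfaceGroup g) :
    s v * x * (s (v * (x : SurfaceGroup g ⧸ G2 g)))⁻¹ ∈ G2 g := by
  rw [← QuotientGroup.eq_one_iff, QuotientGroup.mk_mul, QuotientGroup.mk_inv, QuotientGroup.mk_mul,
    mk_s, mk_s, mul_inv_cancel]

/-- the transfer cocycle -/
noncomputable def c (v : SurfaceGroup g ⧸ G2 g) (x : SurfaceGroup g) : G2 g :=
  ⟨s v * x * (s (v * (x : SurfaceGroup g ⧸ G2 g)))⁻¹, c_mem v x⟩

theorem c_mul (v : SurfaceGroup g ⧸ G2 g) (x y : SurfaceGroup g) :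
    c v (x * y) = c v x * c (v * (x : SurfaceGroup g ⧸ G2 g)) y := by
  apply Subtype.ext
  show s v * (x * y) * (s (v * ((x * y : SurfaceGroup g) : SurfaceGroup g ⧸ G2 g)))⁻¹ =
    s v * x * (s (v * (x : SurfaceGroup g ⧸ G2 g)))⁻¹ *
      (s (v * (x : SurfaceGroup g ⧸ G2 g)) * y *
        (s (v * (x : SurfaceGroup g ⧸ G2 g) * (y : SurfaceGroup g ⧸ G2 g)))⁻¹)
  rw [QuotientGroup.mk_mul, mul_assoc v]
  group

/-- `χ` on representatives -/
theorem chi_s (χ : Ch g) (v : SurfaceGroup g ⧸ G2 g) (x : SurfaceGroup g) :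
    χ (s (v * (x : SurfaceGroup g ⧸ G2 g))) = χ (s v) * χ x := by
  have h1 := c_mem v x χ
  rw [map_mul, map_inv, map_mul] at h1
  exact (mul_inv_eq_one.mp h1).symm

/-- the value of `h` as an integer -/
noncomputable def hh (y : G2 g) : ℤ := Multiplicative.toAdd (h y)

theorem hh_mul (x y : G2 g) : hh h (x * y) = hh h x + hh h y := by
  unfold hh
  rw [map_mul]
  rfl

variable [Fintype (SurfaceGroup g ⧸ G2 g)]

/-- the transfer -/
noncomputable def F (χ : Ch g) (x : SurfaceGroup g) : ℤ :=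
  ∑ v : SurfaceGroup g ⧸ G2 g, ((χ (s v) : ℤˣ) : ℤ) * hh h (c v x)

theorem F_cr (χ : Ch g) : Cr χ (F h χ) := by
  intro x y
  unfold F
  have h1 : ∀ v : SurfaceGroup g ⧸ G2 g, ((χ (s v) : ℤˣ) : ℤ) * hh h (c v (x * y)) =
      ((χ (s v) : ℤˣ) : ℤ) * hh h (c v x) +
        ((χ x : ℤˣ) : ℤ) * (((χ (s (v * (x : SurfaceGroup g ⧸ G2 g))) : ℤˣ) : ℤ) *
          hh h (c (v * (x : SurfaceGroup g ⧸ G2 g)) y)) := by
    intro v
    rw [c_mul, hh_mul, mul_add, chi_s]
    push_cast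
    have h2 : ((χ x : ℤˣ) : ℤ) * ((χ x : ℤˣ) : ℤ) = 1 := by
      rcases Int.units_eq_one_or (χ x) with h | h <;> rw [h] <;> norm_num
    linear_combination (-((χ (s v) : ℤˣ) : ℤ) * hh h (c (v * (x : SurfaceGroup g ⧸ G2 g)) y)) * h2
  rw [Finset.sum_congr rfl fun v _ => h1 v, Finset.sum_add_distrib, ← Finset.mul_sum]
  congr 2
  exact Fintype.sum_equiv (Equiv.mulRight (x : SurfaceGroup g ⧸ G2 g)) _ _ fun v => rfl

omit [Fintype (SurfaceGroup g ⧸ G2 g)] in
theorem orth [Fintype (Ch g)] (x : SurfaceGroup g) (hx : x ∉ G2 g) :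
    ∑ χ : Ch g, ((χ x : ℤˣ) : ℤ) = 0 := by
  have h1 : ∃ χ' : Ch g, χ' x ≠ 1 := by
    by_contra hc
    push Not at hc
    exact hx hc
  obtain ⟨χ', h1⟩ := h1
  have h2 : χ' x = -1 := (Int.units_eq_one_or (χ' x)).resolve_left h1
  have h3 : ∑ χ : Ch g, ((χ x : ℤˣ) : ℤ) = ∑ χ : Ch g, (((χ * χ') x : ℤˣ) : ℤ) :=
    (Fintype.sum_equiv (Equiv.mulRight χ') (fun χ : Ch g => (((χ * χ') x : ℤˣ) : ℤ))
      (fun χ : Ch g => ((χ x : ℤˣ) : ℤ)) fun χ => rfl).symm
  have h4 : ∑ χ : Ch g, (((χ * χ') x : ℤˣ) : ℤ) = - ∑ χ : Ch g, ((χ x : ℤˣ) : ℤ) := by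
    rw [← Finset.sum_neg_distrib]
    refine Finset.sum_congr rfl fun χ _ => ?_
    rw [MonoidHom.mul_apply, h2]
    push_cast
    ring
  rw [h4] at h3
  omega

theorem sum_F [Fintype (Ch g)] (x : G2 g) :
    ∑ χ : Ch g, F h χ x = (Fintype.card (Ch g) : ℤ) * hh h x := by
  classical
  unfold F
  rw [Finset.sum_comm]
  have h1 : ∀ v : SurfaceGroup g ⧸ G2 g, ∑ χ : Ch g, ((χ (s v) : ℤˣ) : ℤ) * hh h (c v x) =
      if v = 1 then (Fintype.card (Ch g) : ℤ) * hh h x else 0 := by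
    intro v
    rw [← Finset.sum_mul]
    split_ifs with hv
    · subst hv
      have hs : s (1 : SurfaceGroup g ⧸ G2 g) ∈ G2 g := by
        rw [← QuotientGroup.eq_one_iff, mk_s]
      have h2 : ∑ χ : Ch g, ((χ (s (1 : SurfaceGroup g ⧸ G2 g)) : ℤˣ) : ℤ) =
          (Fintype.card (Ch g) : ℤ) := by
        rw [Finset.sum_congr rfl (g := fun _ => (1 : ℤ)) fun χ _ => by rw [hs χ]; rfl]
        simp
      rw [h2]
      congr 1
      have h3 : c (1 : SurfaceGroup g ⧸ G2 g) (x : SurfaceGroup g) =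
          ⟨s 1, hs⟩ * x * (⟨s 1, hs⟩ : G2 g)⁻¹ := by
        apply Subtype.ext
        show s 1 * (x : SurfaceGroup g) * (s (1 * ((x : SurfaceGroup g) : SurfaceGroup g ⧸ G2 g)))⁻¹ =
          s 1 * (x : SurfaceGroup g) * (s 1)⁻¹
        have h4 : ((x : SurfaceGroup g) : SurfaceGroup g ⧸ G2 g) = 1 :=
          (QuotientGroup.eq_one_iff _).mpr x.2
        rw [h4, mul_one]
      rw [h3]
      have h5 : h (⟨s 1, hs⟩ * x * (⟨s 1, hs⟩ : G2 g)⁻¹) = h x := by
        rw [h.map_mul, h.map_mul, h.map_inv, mul_comm (h ⟨s 1, hs⟩), mul_inv_cancel_right]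
      unfold hh
      rw [h5]
    · have hs : s v ∉ G2 g := by
        rw [← QuotientGroup.eq_one_iff, mk_s]
        exact hv
      rw [orth (s v) hs, zero_mul]
  rw [Finset.sum_congr rfl fun v _ => h1 v, Finset.sum_ite_eq' Finset.univ]
  simp

end

theorem main : S_PROJ := by
  intro g φ _ hTr y hy
  have hfg := fg g
  have hfi := finIdx g
  have hG : Group.FG (G2 g) := inferInstance
  have hA : Group.FG (Abelianization (G2 g)) := Group.fg_of_surjective (f := Abelianization.of)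
    (QuotientGroup.mk_surjective)
  have hq : Finite (SurfaceGroup g ⧸ G2 g) := inferInstance
  have hCh := finCh g
  let _ := Fintype.ofFinite (SurfaceGroup g ⧸ G2 g)
  let _ := Fintype.ofFinite (Ch g)
  let x : G2 g := ⟨φ y * y⁻¹, (G2 g).mul_mem (mem_G2_map φ hy) ((G2 g).inv_mem hy)⟩
  have hx : ∀ (χ : Ch g) (f : SurfaceGroup g → ℤ), Cr χ f → f (φ y * y⁻¹) = 0 := by
    intro χ f hf
    have h1 : f 1 = 0 := by
      have := hf 1 1
      rw [mul_one, map_one] at this
      simp at this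
      exact this
    have h2 := hf y y⁻¹
    rw [mul_inv_cancel, h1, hy χ] at h2
    have h3 := hf (φ y) y⁻¹
    rw [mem_G2_map φ hy χ, hTr χ f hf y (hy χ)] at h3
    rw [h3, ← h2]
  have hall : ∀ f : Abelianization (G2 g) →* Multiplicative ℤ, f (Abelianization.of x) = 1 := by
    intro f
    have h1 := sum_F (f.comp Abelianization.of) x
    rw [Finset.sum_eq_zero fun χ _ => hx χ _ (F_cr _ χ)] at h1
    have h2 : (Fintype.card (Ch g) : ℤ) ≠ 0 := by exact_mod_cast Fintype.card_ne_zero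
    have h3 : hh (f.comp Abelianization.of) x = 0 := by
      rcases mul_eq_zero.mp h1.symm with h | h
      · exact absurd h h2
      · exact h
    exact Multiplicative.toAdd.injective h3
  obtain ⟨k, hk, hxk⟩ := tors_of (Abelianization (G2 g)) (Abelianization.of x) hall
  refine ⟨k, hk, ?_⟩
  rw [← map_pow, of_eq_one] at hxk
  exact hxk

end Pool.Agent.Helper20.PR.Proj
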