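import Pool.Agent.Helper20.PR.Base

set_option autoImplicit false

/-!
# Project PR: realization of symplectic matrices (module REAL, helper9)
-/

namespace Pool.Agent.Helper20.PR.Real

open Pool.Agent.H29R2.MG Pool.Agent.Q290.SC
open Pool.Agent.H798R3.MG Pool.Agent.TH35.MG Pool.Agent.Q290.MG
open Pool.Agent.Helper20.PR

variable {n : ℕ}

/-- a crossed homomorphism like `t`, or the homology of the handles `≥ 1` -/
structure IsT (n : ℕ) (c : Ch (n + 1)) (s : SurfaceGroup (n + 1) → VV n) : Prop where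
  mul : ∀ x y, s (x * y) = s x + ((c x : ℤˣ) : ℤ) • s y
  a0 : s (gen (Sum.inl 0)) = 0
  b0 : s (gen (Sum.inr 0)) = 0
  a : ∀ i : Fin n, s (gen (Sum.inl i.succ)) = ve i
  b : ∀ i : Fin n, s (gen (Sum.inr i.succ)) = vf i
  ca : ∀ i, c (gen (Sum.inl i)) = 1
  cb : ∀ i : Fin n, c (gen (Sum.inr i.succ)) = 1

section
variable {c : Ch (n + 1)} {s : SurfaceGroup (n + 1) → VV n} (h : IsT n c s)
include h

theorem IsT.mul1 {x y : SurfaceGroup (n + 1)} (hx : c x = 1) : s (x * y) = s x + s y := by
  rw [h.mul, hx, Units.val_one, one_smul]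

theorem IsT.one : s 1 = 0 := by
  have h1 := h.mul1 (x := 1) (y := 1) (map_one c)
  rw [mul_one] at h1
  simpa using h1

theorem IsT.inv1 {x : SurfaceGroup (n + 1)} (hx : c x = 1) : s x⁻¹ = - s x := by
  have h1 := h.mul1 (x := x) (y := x⁻¹) hx
  rw [mul_inv_cancel, h.one] at h1
  exact (neg_eq_of_add_eq_zero_right h1.symm).symm

theorem IsT.inv {x : SurfaceGroup (n + 1)} : s x⁻¹ = - (((c x : ℤˣ) : ℤ) • s x) := by
  have h1 := h.mul x⁻¹ x
  rw [inv_mul_cancel, h.one, map_inv, Int.units_inv_eq_self] at h1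
  exact (neg_eq_of_add_eq_zero_left h1.symm).symm

/-- conjugation by elements of the kernel -/
theorem IsT.conj1 {x y : SurfaceGroup (n + 1)} (hx : c x = 1) (hy : c y = 1) :
    s (x⁻¹ * y * x) = s y := by
  have h1 : c x⁻¹ = 1 := by rw [map_inv, hx, inv_one]
  rw [h.mul1 (by rw [map_mul, h1, hy, one_mul]), h.mul1 h1, h.inv1 hx]
  abel

theorem IsT.ccom (k : Fin n) (hk : ((k : ℕ) + 1) < n + 1) : c (comK (n + 1) (k + 1) hk) = 1 := by
  have h1 : (⟨(k : ℕ) + 1, hk⟩ : Fin (n + 1)) = k.succ := rfl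
  unfold comK
  rw [h1]
  simp only [map_mul, map_inv, h.ca, h.cb, inv_one, mul_one]

theorem IsT.scom (k : Fin n) (hk : ((k : ℕ) + 1) < n + 1) : s (comK (n + 1) (k + 1) hk) = 0 := by
  have h1 : (⟨(k : ℕ) + 1, hk⟩ : Fin (n + 1)) = k.succ := rfl
  unfold comK
  rw [h1]
  have e1 := h.ca k.succ
  have e2 := h.cb k
  have e3 : c (gen (Sum.inl k.succ))⁻¹ = 1 := by rw [map_inv, e1, inv_one]
  rw [h.mul1 (by rw [map_mul, map_mul, e1, e2, e3]; rfl), h.mul1 (by rw [map_mul, e1, e2]; rfl),
    h.mul1 e1, h.inv1 e1, h.inv1 e2]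
  abel

/-- uniqueness -/
theorem IsT.ext {φ : MulAut (SurfaceGroup (n + 1))} {M : SpG n} (hc : ∀ x, c (φ x) = c x)
    (hg : ∀ j, s (φ (gen j)) = ac M (s (gen j))) (x : SurfaceGroup (n + 1)) :
    s (φ x) = ac M (s x) := by
  obtain ⟨z, rfl⟩ := mk_surjective (n + 1) x
  induction z using FreeGroup.induction_on with
  | C1 => rw [map_one, map_one, h.one, ac_zero]
  | of j => exact hg j
  | inv_of j hj =>
    rw [map_inv, map_inv, h.inv, h.inv, hc, hj, ac_neg, ac_smul]
  | mul x y hx hy => rw [map_mul, map_mul, h.mul, h.mul, hx, hy, hc, ac_add, ac_smul]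

end

/-- homomorphisms to commutative groups which are trivial on the handles `≥ 1` -/
def Com {A : Type} [CommGroup A] (θ : SurfaceGroup (n + 1) →* A) : Prop :=
  ∀ i : Fin n, θ (gen (Sum.inl i.succ)) = 1 ∧ θ (gen (Sum.inr i.succ)) = 1

/-- the elements realized by automorphisms -/
def RR (s t : SurfaceGroup (n + 1) → VV n) : Subgroup (SpG n) where
  carrier := {M | ∃ φ : MulAut (SurfaceGroup (n + 1)),
    (∀ (A : Type) [CommGroup A] (θ : SurfaceGroup (n + 1) →* A), Com θ → ∀ x, θ (φ x) = θ x) ∧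
    (∀ x, s (φ x) = ac M (s x)) ∧ ∀ x, t (φ x) = ac M (t x)}
  one_mem' := ⟨1, fun _ _ _ _ _ => rfl, fun _ => rfl, fun _ => rfl⟩
  mul_mem' := by
    rintro M N ⟨φ, h1, h2, h3⟩ ⟨ψ, k1, k2, k3⟩
    refine ⟨φ * ψ, fun A _ θ hθ x => ?_, fun x => ?_, fun x => ?_⟩
    · rw [MulAut.mul_apply, h1 A θ hθ, k1 A θ hθ]
    · rw [MulAut.mul_apply, h2, k2, ac_mul]
    · rw [MulAut.mul_apply, h3, k3, ac_mul]
  inv_mem' := by
    rintro M ⟨φ, h1, h2, h3⟩
    refine ⟨φ⁻¹, fun A _ θ hθ x => ?_, fun x => ?_, fun x => ?_⟩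
    · rw [← h1 A θ hθ (φ⁻¹ x), MulAut.apply_inv_self]
    · have e := h2 (φ⁻¹ x)
      rw [MulAut.apply_inv_self] at e
      rw [e, ac_self_inv]
    · have e := h3 (φ⁻¹ x)
      rw [MulAut.apply_inv_self] at e
      rw [e, ac_self_inv]

theorem com_ext {A : Type} [CommGroup A] {θ : SurfaceGroup (n + 1) →* A}
    {φ : MulAut (SurfaceGroup (n + 1))} (h : ∀ j, θ (φ (gen j)) = θ (gen j)) (x) :
    θ (φ x) = θ x := by
  have h1 : θ.comp (φ : SurfaceGroup (n + 1) →* SurfaceGroup (n + 1)) = θ := surface_ext h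
  exact DFunLike.congr_fun h1 x

theorem hum_R (hn : 2 ≤ n) {X : SpG n} (hX : X ∈ HumS n) :
    ∃ φ : MulAut (SurfaceGroup (n + 1)),
    (∀ (A : Type) [CommGroup A] (θ : SurfaceGroup (n + 1) →* A), Com θ → ∀ x, θ (φ x) = θ x) ∧
    ∀ (c : Ch (n + 1)) (s : SurfaceGroup (n + 1) → VV n), IsT n c s → (∀ x, c (φ x) = c x) →
      ∀ x, s (φ x) = ac X (s x) := by
  have h2 : 2 ≤ n + 1 := by omega
  rcases hX with ⟨k, rfl⟩ | ⟨k, rfl⟩ | ⟨k, k', hk, rfl⟩
  · have hk1 : (k : ℕ) + 1 < n + 1 := by omega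
    have hv : ∀ j, ((TQ.qh (n + 1) (sA (n + 1) (k + 1)) : orientedAut (n + 1)) :
        MulAut (SurfaceGroup (n + 1))) (gen j) = valA (n + 1) (k + 1) j := vA h2 hk1
    have hr : ∀ i : Fin (n + 1), (i : ℕ) = k + 1 → i = k.succ := fun i hi => Fin.ext hi
    refine ⟨((TQ.qh (n + 1) (sA (n + 1) (k + 1)) : orientedAut (n + 1)) :
      MulAut (SurfaceGroup (n + 1))), fun A _ θ hθ => com_ext fun j => ?_,
      fun c s hs hc => hs.ext hc fun j => ?_⟩
    · rw [hv]
      rcases j with i | i
      · rfl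
      · show θ (if (i : ℕ) = k + 1 then gen (Sum.inr i) * gen (Sum.inl i) else gen (Sum.inr i)) = _
        split_ifs with h
        · rw [hr i h, map_mul, (hθ k).1, mul_one]
        · rfl
    · rw [hv]
      rcases j with i | i
      · show s (gen (Sum.inl i)) = _
        rw [ac_T]
        refine Fin.cases ?_ (fun i => ?_) i
        · rw [hs.a0]; simp [om_ve]
        · rw [hs.a, om_ve_ve, mul_zero, zero_smul, add_zero]
      · show s (if (i : ℕ) = k + 1 then gen (Sum.inr i) * gen (Sum.inl i) else gen (Sum.inr i)) = _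
        rw [ac_T]
        split_ifs with h
        · rw [hr i h, hs.mul1 (hs.cb k), hs.a, hs.b, om_ve_vf, if_pos rfl, mul_one, one_smul]
        · revert h
          refine Fin.cases (fun _ => ?_) (fun i h => ?_) i
          · rw [hs.b0]; simp [om_ve]
          · have h' : ¬ k = i := fun e => h (by rw [e]; rfl)
            rw [hs.b, om_ve_vf, if_neg h', mul_zero, zero_smul, add_zero]
  · have hk1 : (k : ℕ) + 1 < n + 1 := by omega
    have hv : ∀ j, ((TQ.qh (n + 1) (sB (n + 1) (k + 1)) : orientedAut (n + 1)) :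
        MulAut (SurfaceGroup (n + 1))) (gen j) = valB (n + 1) (k + 1) j := vB h2 hk1
    have hr : ∀ i : Fin (n + 1), (i : ℕ) = k + 1 → i = k.succ := fun i hi => Fin.ext hi
    refine ⟨((TQ.qh (n + 1) (sB (n + 1) (k + 1)) : orientedAut (n + 1)) :
      MulAut (SurfaceGroup (n + 1))), fun A _ θ hθ => com_ext fun j => ?_,
      fun c s hs hc => hs.ext hc fun j => ?_⟩
    · rw [hv]
      rcases j with i | i
      · show θ (if (i : ℕ) = k + 1 then gen (Sum.inl i) * (gen (Sum.inr i))⁻¹
          else gen (Sum.inl i)) = _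
        split_ifs with h
        · rw [hr i h, map_mul, map_inv, (hθ k).2, inv_one, mul_one]
        · rfl
      · rfl
    · rw [hv]
      rcases j with i | i
      · show s (if (i : ℕ) = k + 1 then gen (Sum.inl i) * (gen (Sum.inr i))⁻¹
          else gen (Sum.inl i)) = _
        rw [ac_T]
        split_ifs with h
        · rw [hr i h, hs.mul1 (hs.ca _), hs.inv1 (hs.cb k), hs.a, hs.b, om_vf_ve, if_pos rfl,
            one_mul, neg_one_smul]
        · revert h
          refine Fin.cases (fun _ => ?_) (fun i h => ?_) i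
          · rw [hs.a0]; simp [om_vf]
          · have h' : ¬ k = i := fun e => h (by rw [e]; rfl)
            rw [hs.a, om_vf_ve, if_neg h', mul_zero, zero_smul, add_zero]
      · show s (gen (Sum.inr i)) = _
        rw [ac_T]
        refine Fin.cases ?_ (fun i => ?_) i
        · rw [hs.b0]; simp [om_vf]
        · rw [hs.b, om_vf_vf, mul_zero, zero_smul, add_zero]
  · have hk1 : (k : ℕ) + 1 < n + 1 := by omega
    have hk2 : (k : ℕ) + 1 + 1 < n + 1 := by rw [← hk]; omega
    have hv : ∀ j, ((TQ.qh (n + 1) (sT (n + 1) (k + 1) (k + 1 + 1)) : orientedAut (n + 1)) :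
        MulAut (SurfaceGroup (n + 1))) (gen j) = valT (n + 1) (k + 1) hk2 j := vT h2 hk2
    have e1 : (⟨(k : ℕ) + 1, hk1⟩ : Fin (n + 1)) = k.succ := rfl
    have e2 : (⟨(k : ℕ) + 1 + 1, hk2⟩ : Fin (n + 1)) = k'.succ := Fin.ext (by
      rw [Fin.val_succ, hk])
    have hr : ∀ i : Fin (n + 1), (i : ℕ) = k + 1 → i = k.succ := fun i hi => Fin.ext hi
    have hr' : ∀ i : Fin (n + 1), (i : ℕ) = k + 1 + 1 → i = k'.succ := fun i hi => Fin.ext (by
      rw [Fin.val_succ, hk, hi])
    refine ⟨((TQ.qh (n + 1) (sT (n + 1) (k + 1) (k + 1 + 1)) : orientedAut (n + 1)) :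
      MulAut (SurfaceGroup (n + 1))), fun A _ θ hθ => com_ext fun j => ?_,
      fun c s hs hc => hs.ext hc fun j => ?_⟩
    · rw [hv]
      have hC : θ (comK (n + 1) (k + 1) hk1) = 1 := by
        unfold comK
        rw [e1]
        simp only [map_mul, map_inv, (hθ k).1, (hθ k).2, inv_one, mul_one]
      have hU : θ (loopU (n + 1) (k + 1) hk2) = 1 := by
        unfold loopU
        rw [e1, e2]
        simp only [map_mul, map_inv, hC, (hθ k).1, (hθ k').1, inv_one, mul_one]
      have hP : θ (loopP (n + 1) (k + 1) hk2) = 1 := by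
        unfold loopP
        rw [e1, e2]
        simp only [map_mul, map_inv, hC, (hθ k).1, (hθ k').1, inv_one, mul_one]
      rcases j with i | i
      · show θ (if (i : ℕ) = k + 1 then (loopU (n + 1) (k + 1) hk2)⁻¹ * gen (Sum.inl i) *
            loopU (n + 1) (k + 1) hk2 else if (i : ℕ) = k + 1 + 1 then
              (loopP (n + 1) (k + 1) hk2)⁻¹ * gen (Sum.inl i) * loopP (n + 1) (k + 1) hk2
            else gen (Sum.inl i)) = _
        split_ifs
        · rw [map_mul, map_mul, map_inv, hU, inv_one, one_mul, mul_one]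
        · rw [map_mul, map_mul, map_inv, hP, inv_one, one_mul, mul_one]
        · rfl
      · show θ (if (i : ℕ) = k + 1 then gen (Sum.inr i) * loopU (n + 1) (k + 1) hk2
          else if (i : ℕ) = k + 1 + 1 then gen (Sum.inr i) * loopP (n + 1) (k + 1) hk2
            else gen (Sum.inr i)) = _
        split_ifs
        · rw [map_mul, hU, mul_one]
        · rw [map_mul, hP, mul_one]
        · rfl
    · rw [hv]
      have hC := hs.ccom k hk1
      have hC' : c (comK (n + 1) (k + 1) hk1)⁻¹ = 1 := by rw [map_inv, hC, inv_one]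
      have hsC := hs.scom k hk1
      have hcU : c (loopU (n + 1) (k + 1) hk2) = 1 := by
        unfold loopU
        rw [e1, e2]
        simp only [map_mul, map_inv, hC, hs.ca, inv_one, mul_one]
      have hcP : c (loopP (n + 1) (k + 1) hk2) = 1 := by
        unfold loopP
        rw [e1, e2]
        simp only [map_mul, map_inv, hC, hs.ca, inv_one, mul_one]
      have hU : s (loopU (n + 1) (k + 1) hk2) = ve k + ve k' := by
        unfold loopU
        rw [e1, e2, hs.mul1 (by simp only [map_mul, map_inv, hC, hs.ca, inv_one, mul_one]),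
          hs.mul1 (by simp only [map_mul, hC, hs.ca, mul_one]), hs.mul1 hC, hs.inv1 hC, hsC, hs.a, hs.a]
        abel
      have hP : s (loopP (n + 1) (k + 1) hk2) = ve k + ve k' := by
        unfold loopP
        rw [e1, e2, hs.mul1 (by simp only [map_mul, map_inv, hC, hs.ca, inv_one, mul_one]),
          hs.mul1 (by simp only [map_mul, map_inv, hC, hs.ca, inv_one, mul_one]), hs.mul1 hC',
          hs.inv1 hC, hsC, hs.a, hs.a]
        abel
      rcases j with i | i
      · show s (if (i : ℕ) = k + 1 then (loopU (n + 1) (k + 1) hk2)⁻¹ * gen (Sum.inl i) *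
            loopU (n + 1) (k + 1) hk2 else if (i : ℕ) = k + 1 + 1 then
              (loopP (n + 1) (k + 1) hk2)⁻¹ * gen (Sum.inl i) * loopP (n + 1) (k + 1) hk2
            else gen (Sum.inl i)) = _
        have h4 : s (if (i : ℕ) = k + 1 then (loopU (n + 1) (k + 1) hk2)⁻¹ * gen (Sum.inl i) *
            loopU (n + 1) (k + 1) hk2 else if (i : ℕ) = k + 1 + 1 then
              (loopP (n + 1) (k + 1) hk2)⁻¹ * gen (Sum.inl i) * loopP (n + 1) (k + 1) hk2
            else gen (Sum.inl i)) = s (gen (Sum.inl i)) := by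
          split_ifs
          · exact hs.conj1 hcU (hs.ca i)
          · exact hs.conj1 hcP (hs.ca i)
          · rfl
        rw [h4, ac_T]
        refine Fin.cases ?_ (fun i => ?_) i
        · rw [hs.a0]; simp [om_ve, om_add_left]
        · rw [hs.a, om_add_left, om_ve_ve, om_ve_ve, add_zero, mul_zero, zero_smul, add_zero]
      · show s (if (i : ℕ) = k + 1 then gen (Sum.inr i) * loopU (n + 1) (k + 1) hk2
          else if (i : ℕ) = k + 1 + 1 then gen (Sum.inr i) * loopP (n + 1) (k + 1) hk2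
            else gen (Sum.inr i)) = _
        rw [ac_T]
        split_ifs with h h3
        · have h'' : ¬ k' = k := fun e => by
            have := congrArg Fin.val e; omega
          rw [hr i h, hs.mul1 (hs.cb k), hs.b, hU, om_add_left, om_ve_vf, om_ve_vf, if_pos rfl,
            if_neg h'', add_zero, mul_one, one_smul]
        · have h'' : ¬ k = k' := fun e => by
            have := congrArg Fin.val e; omega
          rw [hr' i h3, hs.mul1 (hs.cb k'), hs.b, hP, om_add_left, om_ve_vf, om_ve_vf, if_pos rfl,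
            if_neg h'', zero_add, mul_one, one_smul]
        · revert h h3
          refine Fin.cases (fun _ _ => ?_) (fun i h h3 => ?_) i
          · rw [hs.b0]; simp [om_ve, om_add_left]
          · have h' : ¬ k = i := fun e => h (by rw [e]; rfl)
            have h'' : ¬ k' = i := fun e => h3 (by rw [← e, Fin.val_succ, hk])
            rw [hs.b, om_add_left, om_ve_vf, om_ve_vf, if_neg h', if_neg h'', add_zero, mul_zero,
              zero_smul, add_zero]

theorem chi0_com (n : ℕ) : Com (chi0 n) := by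
  intro i
  constructor
  · show (-1 : ℤˣ) ^ (homologyClass (gen (Sum.inl i.succ)) (Sum.inr 0)) = 1
    rw [hcl_gen]; simp
  · show (-1 : ℤˣ) ^ (homologyClass (gen (Sum.inr i.succ)) (Sum.inr 0)) = 1
    rw [hcl_gen]
    have : (Pi.single (Sum.inr i.succ) (1 : ℤ) : Fin (n + 1) ⊕ Fin (n + 1) → ℤ) (Sum.inr 0) = 0 := by
      rw [Pi.single_eq_of_ne]
      intro h
      exact Fin.succ_ne_zero i (Sum.inr_injective h).symm
    rw [this, zpow_zero]

theorem chi0_a (n : ℕ) (i : Fin (n + 1)) : chi0 n (gen (Sum.inl i)) = 1 := by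
  show (-1 : ℤˣ) ^ (homologyClass (gen (Sum.inl i)) (Sum.inr 0)) = 1
  rw [hcl_gen]; simp

theorem isT_t {t : SurfaceGroup (n + 1) → VV n} (ht : IsTau n t) : IsT n (chi0 n) t :=
  ⟨ht.mul, ht.a0, ht.b0, ht.a, ht.b, chi0_a n, fun i => (chi0_com n i).2⟩

/-- the homology of the handles `≥ 1` -/
def rest (x : SurfaceGroup (n + 1)) : VV n := fun j => homologyClass x (Sum.map Fin.succ Fin.succ j)

theorem isT_rest : IsT n (1 : Ch (n + 1)) rest where
  mul x y := by
    funext j
    rw [MonoidHom.one_apply, Units.val_one, one_smul]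
    show homologyClass (x * y) _ = _
    rw [hc_mul]; rfl
  a0 := by
    funext j
    show homologyClass (gen (Sum.inl 0)) _ = _
    rw [hcl_gen]
    rcases j with j | j
    · rw [Pi.single_eq_of_ne]
      · rfl
      · intro h
        exact Fin.succ_ne_zero j (Sum.inl_injective h)
    · simp
  b0 := by
    funext j
    show homologyClass (gen (Sum.inr 0)) _ = _
    rw [hcl_gen]
    rcases j with j | j
    · simp
    · rw [Pi.single_eq_of_ne]
      · rfl
      · intro h
        exact Fin.succ_ne_zero j (Sum.inr_injective h)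
  a i := by
    funext j
    show homologyClass (gen (Sum.inl i.succ)) _ = _
    rw [hcl_gen]
    rcases j with j | j
    · simp [ve, Pi.single_apply]
    · simp [ve]
  b i := by
    funext j
    show homologyClass (gen (Sum.inr i.succ)) _ = _
    rw [hcl_gen]
    rcases j with j | j
    · simp [vf]
    · simp [vf, Pi.single_apply]
  ca _ := rfl
  cb _ := rfl

/-- a coordinate of the homology -/
def coor (j : Fin (n + 1) ⊕ Fin (n + 1)) : SurfaceGroup (n + 1) →* Multiplicative ℤ where
  toFun x := Multiplicative.ofAdd (homologyClass x j)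
  map_one' := by rw [hc_one]; rfl
  map_mul' x y := by rw [hc_mul]; rfl

theorem coor_l : Com (coor (n := n) (Sum.inl 0)) := by
  intro i
  constructor
  · show Multiplicative.ofAdd (homologyClass (gen (Sum.inl i.succ)) (Sum.inl 0)) = 1
    rw [hcl_gen, Pi.single_eq_of_ne]
    · rfl
    · intro h
      exact Fin.succ_ne_zero i (Sum.inl_injective h).symm
  · show Multiplicative.ofAdd (homologyClass (gen (Sum.inr i.succ)) (Sum.inl 0)) = 1
    rw [hcl_gen]; simp

theorem coor_r : Com (coor (n := n) (Sum.inr 0)) := by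
  intro i
  constructor
  · show Multiplicative.ofAdd (homologyClass (gen (Sum.inl i.succ)) (Sum.inr 0)) = 1
    rw [hcl_gen]; simp
  · show Multiplicative.ofAdd (homologyClass (gen (Sum.inr i.succ)) (Sum.inr 0)) = 1
    rw [hcl_gen, Pi.single_eq_of_ne]
    · rfl
    · intro h
      exact Fin.succ_ne_zero i (Sum.inr_injective h).symm

theorem main : S_REAL := by
  intro n hn t ht M hM
  have h1 : Subgroup.closure (HumS n) ≤ RR (rest (n := n)) t := by
    rw [Subgroup.closure_le]
    intro X hX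
    obtain ⟨φ, hφ1, hφ2⟩ := hum_R hn hX
    exact ⟨φ, hφ1, hφ2 1 rest isT_rest (fun _ => rfl),
      hφ2 (chi0 n) t (isT_t ht) (hφ1 ℤˣ (chi0 n) (chi0_com n))⟩
  obtain ⟨φ, hφ1, hφ2, hφ3⟩ := h1 (all_gen n M)
  refine ⟨φ, ?_, fun y _ => hφ3 y⟩
  intro x j
  have hl : homologyClass (φ x) (Sum.inl 0) = homologyClass x (Sum.inl 0) :=
    Multiplicative.ofAdd.injective (hφ1 _ (coor (Sum.inl 0)) coor_l x)
  have hr : homologyClass (φ x) (Sum.inr 0) = homologyClass x (Sum.inr 0) :=
    Multiplicative.ofAdd.injective (hφ1 _ (coor (Sum.inr 0)) coor_r x)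
  have hR : ∀ j : Fin n ⊕ Fin n, (6 : ℤ) ∣ rest (φ x) j - rest x j := by
    intro j
    rw [hφ2]
    exact hM (rest x) j
  rcases j with i | i
  · refine Fin.cases ?_ (fun i => ?_) i
    · rw [hl, sub_self]; exact dvd_zero _
    · exact hR (Sum.inl i)
  · refine Fin.cases ?_ (fun i => ?_) i
    · rw [hr, sub_self]; exact dvd_zero _
    · exact hR (Sum.inr i)

end Pool.Agent.Helper20.PR.Real
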