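import Pool.Agent.Helper20.PR.Base

set_option autoImplicit false

/-!
# Project PR: existence of crossed homomorphisms
-/

namespace Pool.Agent.Helper20.PR.Tau

open Pool.Agent.H29R2.MG Pool.Agent.Q290.SC
open Pool.Agent.H798R3.MG Pool.Agent.TH35.MG Pool.Agent.Q290.MG
open Pool.Agent.Helper20.PR

/-- affine maps with linear part `±1` -/
@[ext] structure Af (A : Type) where
  v : A
  e : ℤˣ

namespace Af

variable {A : Type} [AddCommGroup A]

theorem sq (e : ℤˣ) : ((e : ℤˣ) : ℤ) * ((e : ℤˣ) : ℤ) = 1 := by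
  rw [← Units.val_mul, Int.units_mul_self, Units.val_one]

instance : Mul (Af A) := ⟨fun a b => ⟨a.v + ((a.e : ℤˣ) : ℤ) • b.v, a.e * b.e⟩⟩
instance : One (Af A) := ⟨⟨0, 1⟩⟩
instance : Inv (Af A) := ⟨fun a => ⟨-(((a.e : ℤˣ) : ℤ) • a.v), a.e⟩⟩

theorem mul_v (a b : Af A) : (a * b).v = a.v + ((a.e : ℤˣ) : ℤ) • b.v := rfl
theorem mul_e (a b : Af A) : (a * b).e = a.e * b.e := rfl
theorem one_v : (1 : Af A).v = 0 := rfl
theorem one_e : (1 : Af A).e = 1 := rfl
theorem inv_v (a : Af A) : (a⁻¹).v = -(((a.e : ℤˣ) : ℤ) • a.v) := rfl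
theorem inv_e (a : Af A) : (a⁻¹).e = a.e := rfl

instance : Group (Af A) :=
  Group.ofLeftAxioms
    (fun a b c => by
      apply Af.ext
      · rw [mul_v, mul_v, mul_v, mul_v, mul_e, Units.val_mul, smul_add, smul_smul, add_assoc]
      · rw [mul_e, mul_e, mul_e, mul_e, mul_assoc])
    (fun a => by
      apply Af.ext
      · rw [mul_v, one_v, one_e, Units.val_one, one_smul, zero_add]
      · rw [mul_e, one_e, one_mul])
    (fun a => by
      apply Af.ext
      · rw [mul_v, inv_v, inv_e, one_v, neg_add_cancel]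
      · rw [mul_e, inv_e, one_e, Int.units_mul_self])

theorem comm_eq (a b : Af A) : a * b * a⁻¹ * b⁻¹ =
    ⟨(1 - ((b.e : ℤˣ) : ℤ)) • a.v - (1 - ((a.e : ℤˣ) : ℤ)) • b.v, 1⟩ := by
  apply Af.ext
  · have h1 := sq a.e
    have h2 := sq b.e
    simp only [mul_v, mul_e, inv_v, inv_e, Units.val_mul, smul_neg, smul_smul, sub_smul, one_smul]
    have h3 : ((a.e : ℤˣ) : ℤ) * ((b.e : ℤˣ) : ℤ) * ((a.e : ℤˣ) : ℤ) = ((b.e : ℤˣ) : ℤ) := by
      calc _ = (((a.e : ℤˣ) : ℤ) * ((a.e : ℤˣ) : ℤ)) * ((b.e : ℤˣ) : ℤ) := by ring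
        _ = _ := by rw [h1, one_mul]
    have h4 : ((a.e : ℤˣ) : ℤ) * ((b.e : ℤˣ) : ℤ) * ((a.e : ℤˣ) : ℤ) * ((b.e : ℤˣ) : ℤ) = 1 := by
      rw [h3, h2]
    rw [h3, h2, one_smul]
    abel
  · simp only [mul_e, inv_e]
    have h : a.e * b.e * a.e * b.e = (a.e * a.e) * (b.e * b.e) := by
      rw [mul_assoc, mul_assoc, mul_assoc]
      congr 1
      rw [← mul_assoc, mul_comm b.e a.e, mul_assoc]
    rw [h, Int.units_mul_self, Int.units_mul_self, one_mul]

/-- translations -/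
def tr : Multiplicative A →* Af A where
  toFun x := ⟨Multiplicative.toAdd x, 1⟩
  map_one' := rfl
  map_mul' x y := by
    apply Af.ext
    · rw [mul_v, Units.val_one, one_smul]; rfl
    · rw [mul_e, one_mul]

/-- the projection to `±1` -/
def pe : Af A →* ℤˣ where
  toFun x := x.e
  map_one' := rfl
  map_mul' _ _ := rfl

end Af

/-- homomorphisms to the affine group -/
theorem lift {A : Type} [AddCommGroup A] {g : ℕ} (χ : Ch g) (u : Fin g ⊕ Fin g → A)
    (h : ∑ i : Fin g, ((1 - ((χ (gen (Sum.inr i)) : ℤˣ) : ℤ)) • u (Sum.inl i) -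
      (1 - ((χ (gen (Sum.inl i)) : ℤˣ) : ℤ)) • u (Sum.inr i)) = 0) :
    ∃ f : SurfaceGroup g → A, (∀ x y, f (x * y) = f x + ((χ x : ℤˣ) : ℤ) • f y) ∧
      ∀ j, f (gen j) = u j := by
  let F : FreeGroup (Fin g ⊕ Fin g) →* Af A := FreeGroup.lift fun j => ⟨u j, χ (gen j)⟩
  have hF : F (surfaceRelator g) = 1 := by
    unfold surfaceRelator
    rw [map_list_prod, List.map_ofFn]
    have h1 : (F ∘ fun i : Fin g => FreeGroup.of (Sum.inl i) * FreeGroup.of (Sum.inr i) *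
        (FreeGroup.of (Sum.inl i))⁻¹ * (FreeGroup.of (Sum.inr i))⁻¹) =
        Af.tr ∘ fun i : Fin g => Multiplicative.ofAdd
          ((1 - ((χ (gen (Sum.inr i)) : ℤˣ) : ℤ)) • u (Sum.inl i) -
            (1 - ((χ (gen (Sum.inl i)) : ℤˣ) : ℤ)) • u (Sum.inr i)) := by
      funext i
      simp only [Function.comp_apply, map_mul, map_inv]
      rw [Af.comm_eq]
      simp only [F, FreeGroup.lift_apply_of]
      rfl
    rw [h1, ← List.map_ofFn, ← map_list_prod, List.prod_ofFn, ← ofAdd_sum, h]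
    rfl
  let Φ : SurfaceGroup g →* Af A := outHom F hF
  have hg : ∀ j, Φ (gen j) = ⟨u j, χ (gen j)⟩ := by
    intro j
    have := outHom_mk F hF (FreeGroup.of j)
    rw [FreeGroup.lift_apply_of] at this
    exact this
  have he : Af.pe.comp Φ = χ := by
    apply surface_ext
    intro j
    rw [MonoidHom.comp_apply, hg]
    rfl
  refine ⟨fun x => (Φ x).v, fun x y => ?_, fun j => by
    show (Φ (gen j)).v = u j
    rw [hg]⟩
  have h1 : (Φ x).e = χ x := DFunLike.congr_fun he x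
  show (Φ (x * y)).v = _
  rw [map_mul, Af.mul_v, h1]

theorem ext : S_EXT := by
  intro g χ u h
  obtain ⟨f, h1, h2⟩ := lift χ u (by simpa only [smul_eq_mul] using h)
  exact ⟨f, fun x y => by simpa only [smul_eq_mul] using h1 x y, h2⟩

theorem chi0_inl (n : ℕ) (i : Fin (n + 1)) : chi0 n (gen (Sum.inl i)) = 1 := by
  show (-1 : ℤˣ) ^ (homologyClass (gen (Sum.inl i) : SurfaceGroup (n + 1)) (Sum.inr 0)) = 1
  rw [hc_gen]
  simp

theorem chi0_inr_zero (n : ℕ) : chi0 n (gen (Sum.inr 0)) = -1 := by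
  show (-1 : ℤˣ) ^ (homologyClass (gen (Sum.inr 0) : SurfaceGroup (n + 1)) (Sum.inr 0)) = -1
  rw [hc_gen]
  simp

theorem chi0_inr_succ (n : ℕ) (i : Fin n) : chi0 n (gen (Sum.inr i.succ)) = 1 := by
  show (-1 : ℤˣ) ^ (homologyClass (gen (Sum.inr i.succ) : SurfaceGroup (n + 1)) (Sum.inr 0)) = 1
  rw [hc_gen]
  simp [(Fin.succ_ne_zero i).symm]

theorem main : S_TAU := by
  intro n
  let u : Fin (n + 1) ⊕ Fin (n + 1) → VV n :=
    Sum.elim (Fin.cons 0 fun i => ve i) (Fin.cons 0 fun i => vf i)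
  obtain ⟨f, h1, h2⟩ := lift (chi0 n) u (by
    rw [Fin.sum_univ_succ]
    have e0 : ((1 - ((chi0 n (gen (Sum.inr 0)) : ℤˣ) : ℤ)) • u (Sum.inl 0) -
        (1 - ((chi0 n (gen (Sum.inl 0)) : ℤˣ) : ℤ)) • u (Sum.inr 0)) = 0 := by
      show _ • (0 : VV n) - _ • (0 : VV n) = 0
      rw [smul_zero, smul_zero, sub_zero]
    rw [e0, zero_add]
    apply Finset.sum_eq_zero
    intro i _
    rw [chi0_inl, chi0_inr_succ, Units.val_one, sub_self, zero_smul, zero_smul, sub_zero])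
  exact ⟨f, ⟨h1, h2 _, h2 _, fun i => h2 _, fun i => h2 _⟩⟩

end Pool.Agent.Helper20.PR.Tau
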