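import Pool.Agent.Helper20.PR.Base

set_option autoImplicit false

namespace Pool.Agent.Helper20.PR.Tor

open Pool.Agent.H29R2.MG Pool.Agent.Q290.SC
open Pool.Agent.H798R3.MG Pool.Agent.TH35.MG Pool.Agent.Q290.MG
open Pool.Agent.Helper20.PR

theorem fg (g : ℕ) : Group.FG (SurfaceGroup g) :=
  Group.fg_of_surjective (mk_surjective g)

theorem finCh (g : ℕ) : Finite (Ch g) := by
  refine Finite.of_injective (fun (χ : Ch g) (j : Fin g ⊕ Fin g) => χ (gen j)) ?_
  intro χ χ' h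
  exact surface_ext fun j => congrFun h j

theorem G2_eq (g : ℕ) : G2 g = ⨅ χ : Ch g, χ.ker := by
  ext x
  rw [Subgroup.mem_iInf]
  rfl

theorem finIdx (g : ℕ) : (G2 g).FiniteIndex := by
  have := finCh g
  rw [G2_eq]
  refine Subgroup.finiteIndex_iInf fun χ => ?_
  exact inferInstance

theorem mem_G2_map {g : ℕ} (φ : MulAut (SurfaceGroup g)) {x : SurfaceGroup g} (hx : x ∈ G2 g) :
    φ x ∈ G2 g := fun χ => hx (χ.comp φ.toMonoidHom)

theorem mem_comm_map {g : ℕ} (φ : MulAut (SurfaceGroup g)) {x : SurfaceGroup g}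
    (hx : x ∈ ⁅G2 g, G2 g⁆) : φ x ∈ ⁅G2 g, G2 g⁆ := by
  have h1 : (⁅G2 g, G2 g⁆).map φ.toMonoidHom ≤ ⁅G2 g, G2 g⁆ := by
    rw [Subgroup.map_commutator]
    refine Subgroup.commutator_mono ?_ ?_
    · rintro _ ⟨y, hy, rfl⟩; exact mem_G2_map φ hy
    · rintro _ ⟨y, hy, rfl⟩; exact mem_G2_map φ hy
  exact h1 ⟨x, hx, rfl⟩

/-- the kernel of the abelianization -/
theorem of_eq_one {g : ℕ} (x : G2 g) :
    Abelianization.of x = 1 ↔ (x : SurfaceGroup g) ∈ ⁅G2 g, G2 g⁆ := by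
  have h1 : Abelianization.of x = 1 ↔ x ∈ commutator (G2 g) := by
    rw [← Abelianization.ker_of, MonoidHom.mem_ker]
  rw [h1, ← Subgroup.map_subtype_commutator, Subgroup.mem_map]
  constructor
  · intro h; exact ⟨x, h, rfl⟩
  · rintro ⟨y, hy, h⟩
    have : y = x := Subtype.ext h
    rwa [← this]

/-- exponent of the torsion of a finitely generated abelian group -/
theorem tors_exp (B : Type) [CommGroup B] [Group.FG B] : ∃ N : ℕ, 0 < N ∧
    ∀ b : B, (∃ k : ℕ, 0 < k ∧ b ^ k = 1) → b ^ N = 1 := by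
  have hfin : Module.Finite ℤ (Additive B) :=
    Module.Finite.iff_addGroup_fg.mpr inferInstance
  let T : Submodule ℤ (Additive B) := Submodule.torsion ℤ (Additive B)
  have hT : Module.IsTorsion ℤ T := Submodule.torsion_isTorsion
  have hF : Finite T := Module.finite_of_fg_torsion T hT
  refine ⟨Nat.card T, Nat.card_pos, ?_⟩
  rintro b ⟨k, hk, hb⟩
  have hm : Additive.ofMul b ∈ T := by
    rw [Submodule.mem_torsion_iff]
    refine ⟨⟨(k : ℤ), mem_nonZeroDivisors_of_ne_zero (by exact_mod_cast hk.ne')⟩, ?_⟩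
    show (k : ℤ) • Additive.ofMul b = 0
    rw [natCast_zsmul, ← ofMul_pow, hb]
    rfl
  have h1 : Nat.card T • (⟨Additive.ofMul b, hm⟩ : T) = 0 := card_nsmul_eq_zero'
  have h2 := congrArg Subtype.val h1
  exact h2

theorem main : S_TOR := by
  intro g
  have hfg := fg g
  have hfi := finIdx g
  have hG : Group.FG (G2 g) := inferInstance
  have hA : Group.FG (Abelianization (G2 g)) := Group.fg_of_surjective (f := Abelianization.of)
    (QuotientGroup.mk_surjective)
  obtain ⟨N, hN, hexp⟩ := tors_exp (Abelianization (G2 g))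
  let P : Subgroup (Abelianization (G2 g)) := (powMonoidHom N : Abelianization (G2 g) →* _).range
  have hP : P.FiniteIndex := by
    have h1 : IsMulTorsion (Abelianization (G2 g) ⧸ P) := by
      intro q
      obtain ⟨b, rfl⟩ := QuotientGroup.mk_surjective q
      rw [isOfFinOrder_iff_pow_eq_one]
      refine ⟨N, hN, ?_⟩
      rw [← QuotientGroup.mk_pow, QuotientGroup.eq_one_iff]
      exact ⟨b, rfl⟩
    have h2 : Finite (Abelianization (G2 g) ⧸ P) := CommGroup.finite_of_fg_isMulTorsion _ h1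
    exact Subgroup.finiteIndex_of_finite_quotient
  let C : Subgroup (SurfaceGroup g) := (P.comap Abelianization.of).map (G2 g).subtype
  have memC : ∀ x, x ∈ C ↔ ∃ hx : x ∈ G2 g, ∃ y : G2 g,
      Abelianization.of (⟨x, hx⟩ : G2 g) = Abelianization.of y ^ N := by
    intro x
    constructor
    · rintro ⟨⟨z, hz⟩, hzP, rfl⟩
      obtain ⟨b, hb⟩ := hzP
      obtain ⟨y, rfl⟩ := QuotientGroup.mk_surjective b
      exact ⟨hz, y, hb.symm⟩
    · rintro ⟨hx, y, h⟩
      exact ⟨⟨x, hx⟩, ⟨Abelianization.of y, h.symm⟩, rfl⟩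
  refine ⟨C, ?_, ?_, ?_⟩
  · rw [Subgroup.characteristic_iff_map_le]
    rintro φ _ ⟨x, hx, rfl⟩
    obtain ⟨hx2, y, hxy⟩ := (memC x).mp hx
    show φ x ∈ C
    rw [memC]
    refine ⟨mem_G2_map φ hx2, ⟨φ y, mem_G2_map φ y.2⟩, ?_⟩
    have h1 : Abelianization.of ((⟨x, hx2⟩ : G2 g) * (y ^ N)⁻¹) = 1 := by
      rw [map_mul, map_inv, map_pow, hxy, mul_inv_cancel]
    rw [of_eq_one] at h1
    have h2 := mem_comm_map φ h1
    have h3 : Abelianization.of ((⟨φ x, mem_G2_map φ hx2⟩ : G2 g) *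
        ((⟨φ y, mem_G2_map φ y.2⟩ : G2 g) ^ N)⁻¹) = 1 := by
      rw [of_eq_one]
      have h4 : φ (((⟨x, hx2⟩ : G2 g) * (y ^ N)⁻¹ : G2 g) : SurfaceGroup g) =
          (((⟨φ x, mem_G2_map φ hx2⟩ : G2 g) *
          ((⟨φ y, mem_G2_map φ y.2⟩ : G2 g) ^ N)⁻¹ : G2 g) : SurfaceGroup g) := by
        push_cast
        rw [map_mul, map_inv, map_pow]
      rwa [h4] at h2
    rw [map_mul, map_inv, map_pow] at h3
    exact mul_inv_eq_one.mp h3
  · constructor
    show ((P.comap Abelianization.of).map (G2 g).subtype).index ≠ 0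
    rw [Subgroup.index_map_subtype, Subgroup.index_comap_of_surjective P
      (f := Abelianization.of) QuotientGroup.mk_surjective]
    exact mul_ne_zero hP.index_ne_zero hfi.index_ne_zero
  · rintro x hxC hx ⟨k, hk, hxk⟩
    obtain ⟨hx2, y, hxy⟩ := (memC x).mp hxC
    have h1 : Abelianization.of ((⟨x, hx2⟩ : G2 g) ^ k) = 1 := by
      rw [of_eq_one]
      exact hxk
    rw [map_pow, hxy, ← pow_mul] at h1
    have h2 := hexp (Abelianization.of y) ⟨N * k, Nat.mul_pos hN hk, h1⟩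
    rw [h2] at hxy
    exact (of_eq_one _).mp hxy

end Pool.Agent.Helper20.PR.Tor
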