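import Pool.Agent.Helper20.PR.Base

set_option autoImplicit false

/-! # PR-TRANS: the automorphisms are transitive on the nontrivial characters -/

namespace Pool.Agent.Helper20.PR.Trans

open Pool.Agent.H29R2.MG Pool.Agent.Q290.SC
open Pool.Agent.H798R3.MG Pool.Agent.TH35.MG Pool.Agent.Q290.MG

theorem main : S_TRANS := by
  intro n hn χ hχ
  let ε : Fin (n + 1) ⊕ Fin (n + 1) → ℤ := fun j => if χ (gen j) = 1 then 0 else 1
  have hε : ∀ j, (-1 : ℤˣ) ^ (ε j) = χ (gen j) := by
    intro j
    by_cases h : χ (gen j) = 1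
    · simp only [ε, if_pos h, zpow_zero, h]
    · simp only [ε, if_neg h, zpow_one]
      rcases Int.units_eq_one_or (χ (gen j)) with h' | h'
      · exact absurd h' h
      · exact h'.symm
  let w : VV (n + 1) := Sum.elim (fun i => ε (Sum.inr i)) (fun i => ε (Sum.inl i))
  -- the character is given by `w`
  let χ' : Ch (n + 1) :=
    { toFun := fun x => (-1 : ℤˣ) ^ (om w (homologyClass x))
      map_one' := by
        have h0 : homologyClass (1 : SurfaceGroup (n + 1)) = 0 := hc_one
        have h1 : om w (0 : VV (n + 1)) = 0 := by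
          have := om_smul_right (0 : ℤ) w (0 : VV (n + 1))
          simpa using this
        rw [h0, h1, zpow_zero]
      map_mul' := fun x y => by
        rw [hcl_mul, om_add_right, zpow_add] }
  have hχ' : χ = χ' := by
    apply surface_ext
    intro j
    show χ (gen j) = (-1 : ℤˣ) ^ (om w (homologyClass (gen j)))
    rw [hcl_gen]
    rcases j with i | i
    · rw [single_inl, om_ve']
      show _ = (-1 : ℤˣ) ^ (-(ε (Sum.inl i)))
      rw [zpow_neg, hε]
      exact (Int.units_inv_eq_self _).symm
    · rw [single_inr, om_vf']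
      show _ = (-1 : ℤˣ) ^ (ε (Sum.inr i))
      rw [hε]
  -- primitive
  have hw : ∃ z, om w z = 1 := by
    by_contra hcon
    push Not at hcon
    apply hχ
    apply surface_ext
    intro j
    rw [MonoidHom.one_apply]
    by_contra hj
    have h1 : ε j = 1 := by simp only [ε, if_neg hj]
    rcases j with i | i
    · apply hcon (-(ve i))
      rw [om_neg_right, om_ve', neg_neg]
      exact h1
    · apply hcon (vf i)
      rw [om_vf']
      exact h1
  obtain ⟨X, -, hX⟩ := Pool.Agent.Q158.SC.tr (n + 1) Finset.univ 0 (Finset.mem_univ _) w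
    (fun i hi => absurd (Finset.mem_univ _) hi) hw
  obtain ⟨θ, hθ⟩ := surj all_gen (by omega : 2 ≤ n + 1) X⁻¹
  refine ⟨θ, fun x => ?_⟩
  rw [hχ']
  show (-1 : ℤˣ) ^ (om w (homologyClass (θ x))) = (-1 : ℤˣ) ^ (homologyClass x (Sum.inr 0))
  rw [hθ x, ← om_ac X, ac_inv_self, hX, om_ve]

end Pool.Agent.Helper20.PR.Trans
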