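import Pool.Agent.Helper20.PR.StarMain
import Pool.Agent.Helper20.PR.Tau
import Pool.Agent.Helper20.PR.Cr0
import Pool.Agent.Helper20.PR.Act
import Pool.Agent.Helper20.PR.Trans
import Pool.Agent.Helper20.PR.Deep
import Pool.Agent.Helper20.PR.Proj
import Pool.Agent.Helper20.PR.Tor
import Pool.Agent.Helper20.PR.C0
import Pool.Agent.Helper20.PR.C1
import Pool.Agent.Helper20.PR.Nc
import Pool.Agent.Helper20.PR.Csp2
import Pool.Agent.Helper20.PR.Num2
import Pool.Agent.Helper20.PR.Real
import Pool.Agent.Helper20.PR.P1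
import Pool.Agent.Helper20.PR.P1t
import Pool.Agent.Helper20.PR.P2

set_option autoImplicit false

/-!
# Project PR: the congruence subgroup property over the covers with elementary abelian 2-groups
-/

namespace Pool.Agent.Helper20.PR.Fin

open Pool.Agent.H29R2.MG Pool.Agent.Q290.SC
open Pool.Agent.H798R3.MG Pool.Agent.TH35.MG Pool.Agent.Q290.MG
open Pool.Agent.Helper20.PR Pool.Agent.Helper20.PR.Star
open Pool.Agent.R569.CS (act mem_act act_normal act_finiteIndex act_mono csp_all CSP lay)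

theorem star : S_STAR := by
  have hnc : S_NC := Nc.main (Csp2.main Num2.main)
  have hact : S_ACT := Act.main Cr0.main
  exact StarMain.star Tau.main Cr0.main hact Trans.main (Deep.main Cr0.main) Proj.main Tor.main
    (C0.main hnc Real.main Cr0.main (P1.main Tau.ext Cr0.main hact)
      (P1t.main Tau.ext Cr0.main hact Trans.main))
    (C1.main hnc P2.main)

/-- a subgroup containing all squares is normal -/
theorem normal_of_sq {G : Type} [Group G] {K : Subgroup G} (hK : ∀ x : G, x ^ 2 ∈ K) :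
    K.Normal := by
  constructor
  intro n hn x
  have h1 : x * n * x⁻¹ = (x * n) ^ 2 * (n⁻¹) * (x⁻¹) ^ 2 := by
    rw [pow_two, pow_two]; group
  rw [h1]
  exact K.mul_mem (K.mul_mem (hK _) (K.inv_mem hn)) (hK _)

/-- a subgroup containing all squares contains the common kernel of the characters -/
theorem G2_le {g : ℕ} (K : Subgroup (SurfaceGroup g)) (hK : ∀ x : SurfaceGroup g, x ^ 2 ∈ K) :
    G2 g ≤ K := by
  classical
  have hN : K.Normal := normal_of_sq hK
  have hsq : ∀ q : SurfaceGroup g ⧸ K, q ^ 2 = 1 := by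
    intro q
    induction q using QuotientGroup.induction_on with
    | H z =>
      rw [← QuotientGroup.mk_pow]
      exact (QuotientGroup.eq_one_iff _).2 (hK z)
  have hcomm : ∀ a b : SurfaceGroup g ⧸ K, a * b = b * a := by
    intro a b
    have h1 := hsq (a * b)
    have h2 := hsq a
    have h3 := hsq b
    rw [pow_two] at h1 h2 h3
    have ha : a⁻¹ = a := inv_eq_of_mul_eq_one_left h2
    have hb : b⁻¹ = b := inv_eq_of_mul_eq_one_left h3
    have h4 : a * b = (a * b)⁻¹ := (inv_eq_of_mul_eq_one_left h1).symm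
    rw [mul_inv_rev, ha, hb] at h4
    exact h4
  let _ : CommGroup (SurfaceGroup g ⧸ K) :=
    { (inferInstance : Group (SurfaceGroup g ⧸ K)) with mul_comm := hcomm }
  let F : SurfaceGroup g →* (SurfaceGroup g ⧸ K) :=
    { toFun := fun x => ∏ j, (QuotientGroup.mk (gen j) : SurfaceGroup g ⧸ K) ^ (homologyClass x j)
      map_one' := by
        apply Finset.prod_eq_one
        intro j _
        rw [hc_one]; simp
      map_mul' := fun x y => by
        rw [← Finset.prod_mul_distrib]
        apply Finset.prod_congr rfl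
        intro j _
        rw [hc_mul, Pi.add_apply, zpow_add] }
  have hF : QuotientGroup.mk' K = F := by
    apply surface_ext
    intro j
    show _ = ∏ k, (QuotientGroup.mk (gen k) : SurfaceGroup g ⧸ K) ^ (homologyClass (gen j) k)
    rw [Finset.prod_eq_single j]
    · rw [hc_gen, Pi.single_eq_same, zpow_one]; rfl
    · intro k _ hk
      rw [hc_gen, Pi.single_eq_of_ne hk, zpow_zero]
    · intro h; exact absurd (Finset.mem_univ _) h
  intro x hx
  have hev : ∀ j, (2 : ℤ) ∣ homologyClass x j := by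
    intro j
    let χ : Ch g :=
      { toFun := fun x => (-1 : ℤˣ) ^ (homologyClass x j)
        map_one' := by rw [hc_one, Pi.zero_apply, zpow_zero]
        map_mul' := fun x y => by rw [hc_mul, Pi.add_apply, zpow_add] }
    have h1 : χ x = 1 := hx χ
    have h2 : (-1 : ℤˣ) ^ (homologyClass x j) = 1 := h1
    by_contra h3
    have h4 : Odd (homologyClass x j) := by
      rw [← Int.not_even_iff_odd, even_iff_two_dvd]; exact h3
    rw [Odd.neg_one_zpow h4] at h2
    exact absurd h2 (by decide)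
  have h1 : (QuotientGroup.mk x : SurfaceGroup g ⧸ K) = F x := DFunLike.congr_fun hF x
  rw [← QuotientGroup.eq_one_iff, h1]
  show ∏ j, (QuotientGroup.mk (gen j) : SurfaceGroup g ⧸ K) ^ (homologyClass x j) = 1
  apply Finset.prod_eq_one
  intro j _
  obtain ⟨k, hk⟩ := hev j
  show (QuotientGroup.mk (gen j) : SurfaceGroup g ⧸ K) ^ (homologyClass x j) = 1
  rw [hk, zpow_mul]
  have h2 : (QuotientGroup.mk (gen j) : SurfaceGroup g ⧸ K) ^ (2 : ℤ) = 1 := by
    have := hsq (QuotientGroup.mk (gen j))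
    exact_mod_cast this
  rw [h2, one_zpow]

/-- the theorem for the group `SurfaceGroup` -/
theorem aut {n : ℕ} (hn : 3 ≤ n) (K : Subgroup (SurfaceGroup (n + 1)))
    (hK : ∀ x : SurfaceGroup (n + 1), x ^ 2 ∈ K) (c : ℕ) (C : Subgroup (SurfaceGroup (n + 1)))
    (hC : C.Characteristic) (hCf : C.FiniteIndex) (H : Subgroup (MulAut (SurfaceGroup (n + 1))))
    (hH : H.FiniteIndex)
    (h : ∀ φ : MulAut (SurfaceGroup (n + 1)), (∀ x, φ x * x⁻¹ ∈ C) →
      (∀ x, φ x * x⁻¹ ∈ K.lowerCentralSeries c) → φ ∈ H) :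
    ∃ L : Subgroup (SurfaceGroup (n + 1)), L.Characteristic ∧ L.FiniteIndex ∧
      ∀ φ : MulAut (SurfaceGroup (n + 1)), (∀ x, φ x * x⁻¹ ∈ L) → φ ∈ H := by
  have hGc : (G2 (n + 1)).Characteristic := G2_char _
  have hGf : (G2 (n + 1)).FiniteIndex := G2_fi _
  have hle : (G2 (n + 1)).lowerCentralSeries c ≤ K.lowerCentralSeries c :=
    Subgroup.lowerCentralSeries_mono c (G2_le K hK)
  have hcsp : CSP (MonoidHom.id (MulAut (SurfaceGroup (n + 1))))
      ((G2 (n + 1)).lowerCentralSeries c) := by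
    apply csp_all
    intro V hV hVl
    obtain ⟨L, h1, h2, h3⟩ := star n hn V hV (fun φ h1 h2 => hVl ⟨h1, h2⟩)
    exact ⟨L, h1, h2, fun φ hφ => h3 φ hφ⟩
  have hRc : ((G2 (n + 1)).lowerCentralSeries c).Characteristic := inferInstance
  have hA : (act (MonoidHom.id (MulAut (SurfaceGroup (n + 1)))) C).FiniteIndex :=
    act_finiteIndex _ C
  have hU : (act (MonoidHom.id (MulAut (SurfaceGroup (n + 1))))
      ((G2 (n + 1)).lowerCentralSeries c)).Normal := act_normal _ _
  have hfi : ((H ⊓ act (MonoidHom.id _) C) ⊔ act (MonoidHom.id (MulAut (SurfaceGroup (n + 1))))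
      ((G2 (n + 1)).lowerCentralSeries c)).FiniteIndex :=
    Subgroup.finiteIndex_of_le (H := H ⊓ act (MonoidHom.id _) C) le_sup_left
  obtain ⟨L, hL1, hL2, hL3⟩ := hcsp _ hfi le_sup_right
  refine ⟨C ⊓ L, StarMain.char_inf hC hL1, inferInstance, ?_⟩
  intro a ha
  have ha1 : a ∈ act (MonoidHom.id (MulAut (SurfaceGroup (n + 1)))) C := fun x => (ha x).1
  have ha2 : a ∈ act (MonoidHom.id (MulAut (SurfaceGroup (n + 1)))) L := fun x => (ha x).2
  have ha3 := hL3 ha2
  rw [← SetLike.mem_coe, Subgroup.mul_normal] at ha3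
  obtain ⟨ν, hν, ι, hι, rfl⟩ := ha3
  have h3 : ι ∈ act (MonoidHom.id (MulAut (SurfaceGroup (n + 1)))) C := by
    have := Subgroup.mul_mem _ (Subgroup.inv_mem _ hν.2) ha1
    rwa [inv_mul_cancel_left] at this
  exact H.mul_mem hν.1 (h ι (fun x => h3 x) fun x => hle (hι x))

/-- from automorphisms to outer automorphisms -/
theorem outer {G : Type} [Group G] {L : Subgroup G} (hL : L.Characteristic)
    {H : Subgroup (MulAut G)} (hLH : ∀ φ : MulAut G, (∀ x, φ x * x⁻¹ ∈ L) → φ ∈ H)
    (hinn : ∀ x : G, MulAut.conj x ∈ H) (φ : MulAut G)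
    (hφ : ∃ y : G, ∀ x : G, φ x * (y * x * y⁻¹)⁻¹ ∈ L) : φ ∈ H := by
  obtain ⟨g, hg⟩ := hφ
  have h2 : ∀ x, ((MulAut.conj g)⁻¹ * φ : MulAut G) x * x⁻¹ ∈ L := by
    intro x
    have h3 : ((MulAut.conj g)⁻¹ * φ : MulAut G) x * x⁻¹ =
        (MulAut.conj g)⁻¹ (φ x * (g * x * g⁻¹)⁻¹) := by
      rw [MulAut.mul_apply, map_mul, map_inv, MulAut.conj_inv_apply, MulAut.conj_inv_apply]
      group
    rw [h3]
    exact Subgroup.characteristic_iff_le_comap.1 hL ((MulAut.conj g)⁻¹) (hg x)
  have h4 := H.mul_mem (hinn g) (hLH _ h2)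
  rwa [mul_inv_cancel_left] at h4

/-- transport to isomorphic groups -/
theorem transport {G S : Type} [Group G] [Group S] (e : G ≃* S)
    (hS : ∀ (K : Subgroup S), (∀ x : S, x ^ 2 ∈ K) → ∀ (c : ℕ) (C : Subgroup S),
      C.Characteristic → C.FiniteIndex → ∀ (H : Subgroup (MulAut S)), H.FiniteIndex →
      (∀ φ : MulAut S, (∀ x, φ x * x⁻¹ ∈ C) →
        (∀ x, φ x * x⁻¹ ∈ K.lowerCentralSeries c) → φ ∈ H) →
      ∃ L : Subgroup S, L.Characteristic ∧ L.FiniteIndex ∧
        ∀ φ : MulAut S, (∀ x, φ x * x⁻¹ ∈ L) → φ ∈ H)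
    (K : Subgroup G) (hK : ∀ x : G, x ^ 2 ∈ K) (c : ℕ) (C : Subgroup G)
    (hC : C.Characteristic) (hCf : C.FiniteIndex) (H : Subgroup (MulAut G)) (hH : H.FiniteIndex)
    (h : ∀ φ : MulAut G, (∀ x, φ x * x⁻¹ ∈ C) →
      (∀ x, φ x * x⁻¹ ∈ K.lowerCentralSeries c) → φ ∈ H) :
    ∃ L : Subgroup G, L.Characteristic ∧ L.FiniteIndex ∧
      ∀ φ : MulAut G, (∀ x, φ x * x⁻¹ ∈ L) → φ ∈ H := by
  let T : MulAut S ≃* MulAut G := MulAut.congr e.symm
  have hT : ∀ (φ : MulAut S) (x : G), e (T φ x) = φ (e x) := by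
    intro φ x
    show e (e.symm (φ (e.symm.symm x))) = _
    rw [MulEquiv.apply_symm_apply, MulEquiv.symm_symm]
  have hT' : ∀ (φ : MulAut G) (x : S), e (φ (e.symm x)) = T.symm φ x := by
    intro φ x
    have := hT (T.symm φ) (e.symm x)
    rw [MulEquiv.apply_symm_apply, MulEquiv.apply_symm_apply] at this
    exact this
  have hchar : ∀ {A B : Type} [Group A] [Group B] (f : A ≃* B) (D : Subgroup A),
      D.Characteristic → (D.map f.toMonoidHom).Characteristic := by
    intro A B _ _ f D hD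
    rw [Subgroup.characteristic_iff_le_comap]
    rintro ψ _ ⟨d, hd, rfl⟩
    have h1 := Subgroup.characteristic_iff_le_comap.1 hD ((f.trans ψ).trans f.symm) hd
    refine ⟨f.symm (ψ (f d)), h1, ?_⟩
    show f (f.symm (ψ (f d))) = ψ (f d)
    rw [MulEquiv.apply_symm_apply]
  have hfin : ∀ {A B : Type} [Group A] [Group B] (f : A ≃* B) (D : Subgroup A),
      D.FiniteIndex → (D.map f.toMonoidHom).FiniteIndex := by
    intro A B _ _ f D hD
    constructor
    have : (D.map f.toMonoidHom).index = D.index :=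
      Subgroup.index_map_of_bijective f.bijective D
    rw [this]
    exact hD.index_ne_zero
  obtain ⟨L, hL1, hL2, hL3⟩ := hS (K.map e.toMonoidHom) (by
    intro x
    refine ⟨(e.symm x) ^ 2, hK _, ?_⟩
    show e ((e.symm x) ^ 2) = x ^ 2
    rw [map_pow, MulEquiv.apply_symm_apply]) c (C.map e.toMonoidHom) (hchar e C hC)
    (hfin e C hCf) (H.comap T.toMonoidHom) (Pool.Agent.R569.CS.fi_comap T.toMonoidHom H) (by
    intro φ h1 h2
    show T φ ∈ H
    apply h
    · intro x
      obtain ⟨z, hz, hz2⟩ := h1 (e x)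
      have : z = T φ x * x⁻¹ := by
        apply e.injective
        rw [map_mul, map_inv, hT]
        exact hz2
      rw [← this]
      exact hz
    · intro x
      have h3 := h2 (e x)
      rw [← Subgroup.map_lowerCentralSeries] at h3
      obtain ⟨z, hz, hz2⟩ := h3
      have : z = T φ x * x⁻¹ := by
        apply e.injective
        rw [map_mul, map_inv, hT]
        exact hz2
      rw [← this]
      exact hz)
  refine ⟨L.map e.symm.toMonoidHom, hchar e.symm L hL1, hfin e.symm L hL2, ?_⟩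
  intro φ hφ
  have h1 : T (T.symm φ) ∈ H := by
    apply hL3
    intro x
    obtain ⟨z, hz, hz2⟩ := hφ (e.symm x)
    have : z = T.symm φ x * x⁻¹ := by
      apply e.symm.injective
      have hz3 : e.symm z = φ (e.symm x) * (e.symm x)⁻¹ := hz2
      rw [hz3, ← hT', map_mul, map_inv, MulEquiv.symm_apply_apply]
    rw [← this]
    exact hz
  rwa [MulEquiv.apply_symm_apply] at h1

end Pool.Agent.Helper20.PR.Fin
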