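import Pool.Agent.Helper20.PR.Tw

set_option autoImplicit false

/-!
# Project PR: twists which are trivial on one part and nontrivial on another one
-/

namespace Pool.Agent.Helper20.PR.P1

open Pool.Agent.H29R2.MG Pool.Agent.Q290.SC
open Pool.Agent.H798R3.MG Pool.Agent.TH35.MG Pool.Agent.Q290.MG
open Pool.Agent.Helper20.PR Pool.Agent.Helper20.PR.Tau Pool.Agent.Helper20.PR.Star
  Pool.Agent.Helper20.PR.Cr0 Pool.Agent.Helper20.PR.Tw

/-- the sixth power of the twist along `a_0` -/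
theorem kappa (n : ℕ) (hn : 1 ≤ n) : ∃ κ : MulAut (SurfaceGroup (n + 1)),
    (∀ i, κ (gen (Sum.inl i)) = gen (Sum.inl i)) ∧
    κ (gen (Sum.inr 0)) = gen (Sum.inr 0) * gen (Sum.inl 0) ^ 6 ∧
    ∀ i : Fin n, κ (gen (Sum.inr i.succ)) = gen (Sum.inr i.succ) := by
  set τ : MulAut (SurfaceGroup (n + 1)) :=
    ((TQ.qh (n + 1) (sA (n + 1) 0) : orientedAut (n + 1)) : MulAut (SurfaceGroup (n + 1))) with hτ
  have hv : ∀ j, τ (gen j) = valA (n + 1) 0 j := fun j => vA (by omega) (by omega) j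
  have ha : ∀ i, τ (gen (Sum.inl i)) = gen (Sum.inl i) := fun i => hv _
  have hb0 : τ (gen (Sum.inr 0)) = gen (Sum.inr 0) * gen (Sum.inl 0) := by
    rw [hv]
    show (if ((0 : Fin (n + 1)) : ℕ) = 0 then gen (Sum.inr 0) * gen (Sum.inl 0)
      else gen (Sum.inr 0)) = _
    rw [if_pos (by simp)]
  have hb : ∀ i : Fin n, τ (gen (Sum.inr i.succ)) = gen (Sum.inr i.succ) := by
    intro i
    rw [hv]
    show (if ((i.succ : Fin (n + 1)) : ℕ) = 0 then gen (Sum.inr i.succ) * gen (Sum.inl i.succ)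
      else gen (Sum.inr i.succ)) = _
    rw [if_neg (by simp)]
  have hpa : ∀ (m : ℕ) i, (τ ^ m) (gen (Sum.inl i)) = gen (Sum.inl i) := by
    intro m i
    induction m with
    | zero => rw [pow_zero, MulAut.one_apply]
    | succ m ih => rw [pow_succ, MulAut.mul_apply, ha, ih]
  have hpb : ∀ (m : ℕ) (i : Fin n), (τ ^ m) (gen (Sum.inr i.succ)) = gen (Sum.inr i.succ) := by
    intro m i
    induction m with
    | zero => rw [pow_zero, MulAut.one_apply]
    | succ m ih => rw [pow_succ, MulAut.mul_apply, hb, ih]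
  have hp0 : ∀ m : ℕ, (τ ^ m) (gen (Sum.inr 0)) = gen (Sum.inr 0) * gen (Sum.inl 0) ^ m := by
    intro m
    induction m with
    | zero => rw [pow_zero, pow_zero, MulAut.one_apply, mul_one]
    | succ m ih => rw [pow_succ, MulAut.mul_apply, hb0, map_mul, ih, hpa, pow_succ, mul_assoc]
  exact ⟨τ ^ 6, hpa 6, hp0 6, hpb 6⟩

/-- an automorphism acting trivially on the homology of the generators modulo `6` -/
theorem L6_of_gen {g : ℕ} (φ : MulAut (SurfaceGroup g))
    (h : ∀ j i, (6 : ℤ) ∣ homologyClass (φ (gen j)) i - homologyClass (gen j : SurfaceGroup g) i) :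
    φ ∈ L6 g := by
  intro x i
  have e1 : homologyClass (φ x) i = ∑ j, homologyClass (φ (gen j)) i * homologyClass x j :=
    hc_end (φ : SurfaceGroup g →* SurfaceGroup g) x i
  have e2 : homologyClass x i = ∑ j, homologyClass (gen j : SurfaceGroup g) i * homologyClass x j :=
    hc_end (MonoidHom.id _) x i
  rw [e1, e2, ← Finset.sum_sub_distrib]
  apply Finset.dvd_sum
  intro j _
  rw [← sub_mul]
  exact Dvd.dvd.mul_right (h j i) _

theorem hc_pow' {g : ℕ} (x : SurfaceGroup g) (m : ℕ) :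
    homologyClass (x ^ m) = (m : ℤ) • homologyClass x := by
  induction m with
  | zero => rw [pow_zero, hc_one, Nat.cast_zero, zero_smul]
  | succ m ih =>
    rw [pow_succ, hc_mul, ih]
    push_cast
    rw [add_smul, one_smul]

theorem gens {n : ℕ} {P : Fin (n + 1) ⊕ Fin (n + 1) → Prop} (ha : ∀ i, P (Sum.inl i))
    (h0 : P (Sum.inr 0)) (hb : ∀ i : Fin n, P (Sum.inr i.succ)) : ∀ j, P j := by
  rintro (i | i)
  · exact ha i
  · exact Fin.cases h0 hb i

/-- the vector needed for the character `χ'` -/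
theorem choice (n : ℕ) (hn : 1 ≤ n) (χ' : Ch (n + 1)) (h1 : χ' ≠ 1) (h0 : χ' ≠ chi0 n) :
    ∃ w w' : VV (n + 1), om w w' = 1 ∧ w (Sum.inr 0) = 0 ∧
      (∃ i : Fin n, w (Sum.inl i.succ) = 1 ∨ w (Sum.inr i.succ) = 1) ∧
      ∏ j, (χ' (gen j)) ^ (w j) = -1 := by
  classical
  have hu : ∀ u : ℤˣ, u ≠ 1 → u = -1 := fun u h => (Int.units_eq_one_or u).resolve_left h
  by_cases hA : ∃ i : Fin n, χ' (gen (Sum.inl i.succ)) ≠ 1
  · obtain ⟨i, hi⟩ := hA
    refine ⟨ve i.succ, vf i.succ, by rw [om_ve_vf, if_pos rfl], ?_, ⟨i, Or.inl ?_⟩, ?_⟩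
    · simp [ve]
    · simp [ve]
    · rw [Finset.prod_eq_single (Sum.inl i.succ)]
      · simp only [ve, Pi.single_eq_same, zpow_one]
        exact hu _ hi
      · intro j _ hj
        simp [ve, Pi.single_eq_of_ne hj]
      · intro h; exact absurd (Finset.mem_univ _) h
  by_cases hB : ∃ i : Fin n, χ' (gen (Sum.inr i.succ)) ≠ 1
  · obtain ⟨i, hi⟩ := hB
    refine ⟨vf i.succ, -ve i.succ, by rw [om_neg_right, om_vf_ve, if_pos rfl, neg_neg], ?_,
      ⟨i, Or.inr ?_⟩, ?_⟩
    · simp [vf, (Fin.succ_ne_zero i).symm]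
    · simp [vf]
    · rw [Finset.prod_eq_single (Sum.inr i.succ)]
      · simp only [vf, Pi.single_eq_same, zpow_one]
        exact hu _ hi
      · intro j _ hj
        simp [vf, Pi.single_eq_of_ne hj]
      · intro h; exact absurd (Finset.mem_univ _) h
  push Not at hA hB
  have ha0 : χ' (gen (Sum.inl 0)) = -1 := by
    apply hu
    intro h
    by_cases hb0 : χ' (gen (Sum.inr 0)) = 1
    · apply h1
      apply surface_ext
      intro j
      rw [MonoidHom.one_apply]
      revert j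
      exact gens (fun i => Fin.cases h hA i) hb0 hB
    · apply h0
      apply surface_ext
      exact gens (fun i => by
        rw [chi0_inl]
        exact Fin.cases h hA i) (by rw [chi0_inr_zero]; exact hu _ hb0)
        (fun i => by rw [chi0_inr_succ]; exact hB i)
  refine ⟨ve 0 + ve (Fin.succ ⟨0, hn⟩), vf 0, ?_, ?_, ⟨⟨0, hn⟩, Or.inl ?_⟩, ?_⟩
  · rw [om_add_left, om_ve_vf, om_ve_vf, if_pos rfl, if_neg (Fin.succ_ne_zero _), add_zero]
  · simp [ve]
  · simp [ve]
  · have e : ∀ j, (χ' (gen j)) ^ ((ve 0 + ve (Fin.succ ⟨0, hn⟩) : VV (n + 1)) j) =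
        (χ' (gen j)) ^ ((ve 0 : VV (n + 1)) j) *
          (χ' (gen j)) ^ ((ve (Fin.succ ⟨0, hn⟩) : VV (n + 1)) j) := by
      intro j
      rw [Pi.add_apply, zpow_add]
    rw [Finset.prod_congr rfl fun j _ => e j, Finset.prod_mul_distrib,
      Finset.prod_eq_single (Sum.inl 0), Finset.prod_eq_single (Sum.inl (Fin.succ ⟨0, hn⟩))]
    · simp only [ve, Pi.single_eq_same, zpow_one]
      rw [ha0, hA, mul_one]
    · intro j _ hj
      show (χ' (gen j)) ^ ((Pi.single (Sum.inl (Fin.succ ⟨0, hn⟩)) 1 : VV (n + 1)) j) = 1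
      rw [Pi.single_eq_of_ne hj, zpow_zero]
    · intro h; exact absurd (Finset.mem_univ _) h
    · intro j _ hj
      show (χ' (gen j)) ^ ((Pi.single (Sum.inl 0) 1 : VV (n + 1)) j) = 1
      rw [Pi.single_eq_of_ne hj, zpow_zero]
    · intro h; exact absurd (Finset.mem_univ _) h

theorem main (hE : S_EXT) (hc : S_CR0) (hact : S_ACT) : S_P1 := by
  classical
  intro n hn t ht χ' h1 h0
  obtain ⟨w, w', hww, hw0, hwodd, hprod⟩ := choice n hn χ' h1 h0
  -- the automorphism moving `a_0` to the class `w`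
  obtain ⟨X, -, hX⟩ := Pool.Agent.Q158.SC.tr (n + 1) Finset.univ 0 (Finset.mem_univ _) w
    (fun i hi => absurd (Finset.mem_univ i) hi) ⟨w', hww⟩
  obtain ⟨θ, hθ⟩ := surj all_gen (by omega : 2 ≤ n + 1) X⁻¹
  obtain ⟨κ, hk1, hk2, hk3⟩ := kappa n hn
  set c : SurfaceGroup (n + 1) := θ (gen (Sum.inl 0)) with hcdef
  have hcw : homologyClass c = w := by
    rw [hcdef, hθ, hcl_gen, single_inl, ← hX, ac_self_inv]
  have hκ6 : κ ∈ L6 (n + 1) := by
    apply L6_of_gen
    refine gens (fun i k => ?_) (fun k => ?_) (fun i k => ?_)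
    · rw [hk1, sub_self]; exact dvd_zero _
    · rw [hk2, hc_mul, hc_pow', Pi.add_apply, Pi.smul_apply, smul_eq_mul, add_sub_cancel_left]
      exact ⟨_, rfl⟩
    · rw [hk3, sub_self]; exact dvd_zero _
  have hφ6 : θ * κ * θ⁻¹ ∈ L6 (n + 1) := (L6_normal _).conj_mem κ hκ6 θ
  have hχc : χ' c = -1 := by
    rw [chi_prod, hcw]
    exact hprod
  have h0c : chi0 n c = 1 := by
    show (-1 : ℤˣ) ^ (homologyClass c (Sum.inr 0)) = 1
    rw [hcw, hw0, zpow_zero]
  have hκcr : ∀ (χ : Ch (n + 1)) (f : SurfaceGroup (n + 1) → ℤ), Cr χ f →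
      Cr χ (fun x => f (κ x)) := by
    intro χ f hf x y
    show f (κ (x * y)) = _
    rw [map_mul, hf, L6_chi hκ6]
  refine ⟨θ * κ * θ⁻¹, hφ6, ?_, ?_⟩
  · -- trivial on the `χ'`-part
    refine (Tr_trans (χ := χ') (χ' := χ'.comp (θ : SurfaceGroup (n + 1) →* SurfaceGroup (n + 1)))
      (fun x => rfl)).2 ?_
    intro f hf y _
    refine cr_ext (hκcr _ f hf) hf ?_ y
    refine gens (fun i => ?_) ?_ (fun i => ?_)
    · show f (κ _) = _
      rw [hk1]
    · show f (κ _) = _
      rw [hk2, hf, cr_six hf _ hχc, mul_zero, add_zero]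
    · show f (κ _) = _
      rw [hk3]
  · -- a transvection on the `chi0`-part
    set χ : Ch (n + 1) := (chi0 n).comp (θ : SurfaceGroup (n + 1) →* SurfaceGroup (n + 1)) with hχ
    have hχa : χ (gen (Sum.inl 0)) = 1 := h0c
    obtain ⟨δ, hδ, hδg⟩ := hE (n + 1) χ (Pi.single (Sum.inr 0) 1) (by
      rw [Fin.sum_univ_succ]
      have e : ∀ i : Fin n, ((1 - ((χ (gen (Sum.inr i.succ)) : ℤˣ) : ℤ)) *
          (Pi.single (Sum.inr 0) 1 : Fin (n + 1) ⊕ Fin (n + 1) → ℤ) (Sum.inl i.succ) -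
          (1 - ((χ (gen (Sum.inl i.succ)) : ℤˣ) : ℤ)) *
          (Pi.single (Sum.inr 0) 1 : Fin (n + 1) ⊕ Fin (n + 1) → ℤ) (Sum.inr i.succ)) = 0 := by
        intro i
        simp [Pi.single_apply, Fin.succ_ne_zero]
      rw [Finset.sum_eq_zero fun i _ => e i, hχa]
      simp)
    have hf : ∀ f, Cr (chi0 n) f → ∀ y, f ((θ * κ * θ⁻¹) y) =
        f y + (6 * ((χ (gen (Sum.inr 0)) : ℤˣ) : ℤ) * δ (θ⁻¹ y)) * f c := by
      intro f hf y
      have hf' : Cr χ (fun x => f (θ x)) := cr_comp hf θ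
      have hRcr : Cr χ (fun x => f (θ x) + 6 * ((χ (gen (Sum.inr 0)) : ℤˣ) : ℤ) * f c * δ x) := by
        intro x y
        show f (θ (x * y)) + _ * δ (x * y) = _
        have e1 : f (θ (x * y)) = f (θ x) + ((χ x : ℤˣ) : ℤ) * f (θ y) := hf' x y
        rw [e1, hδ x y]
        ring
      have key := cr_ext (hκcr _ _ hf') hRcr (gens (fun i => by
          show f (θ (κ _)) = _
          rw [hk1, hδg]
          simp) (by
          show f (θ (κ _)) = _
          rw [hk2, hδg, map_mul, hf, map_pow, cr_pow hf _ h0c]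
          have e1 : ((chi0 n (θ (gen (Sum.inr 0))) : ℤˣ) : ℤ) = ((χ (gen (Sum.inr 0)) : ℤˣ) : ℤ) := rfl
          rw [e1, Pi.single_eq_same]
          push_cast
          ring) (fun i => by
          show f (θ (κ _)) = _
          rw [hk3, hδg]
          simp [Pi.single_apply, Fin.succ_ne_zero])) (θ⁻¹ y)
      have e2 : f (θ (κ (θ⁻¹ y))) = f (θ (θ⁻¹ y)) +
          6 * ((χ (gen (Sum.inr 0)) : ℤˣ) : ℤ) * f c * δ (θ⁻¹ y) := key
      rw [MulAut.apply_inv_self] at e2
      rw [MulAut.mul_apply, MulAut.mul_apply, e2]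
      ring
    have hodd : ∀ j : Fin n ⊕ Fin n, ∀ x : SurfaceGroup (n + 1), (2 : ℤ) ∣ t x j -
        homologyClass x (Sum.map Fin.succ Fin.succ j) := by
      intro j x
      have h2 := mod_two (tau_cr ht j) (Pi.single (Sum.map Fin.succ Fin.succ j) 1) (gens
        (fun i => ?_) ?_ (fun i => ?_)) x
      · have e : ∑ k, (Pi.single (Sum.map Fin.succ Fin.succ j) 1 : VV (n + 1)) k *
            homologyClass x k = homologyClass x (Sum.map Fin.succ Fin.succ j) := by
          simp [Pi.single_apply]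
        rwa [e] at h2
      · refine Fin.cases ?_ (fun i => ?_) i
        · show (2 : ℤ) ∣ t (gen (Sum.inl 0)) j - _
          rw [ht.a0]
          rcases j with j | j <;> simp [Pi.single_apply, (Fin.succ_ne_zero j).symm]
        · show (2 : ℤ) ∣ t (gen (Sum.inl i.succ)) j - _
          rw [ht.a]
          rcases j with j | j <;> simp [ve, Pi.single_apply, eq_comm]
      · show (2 : ℤ) ∣ t (gen (Sum.inr 0)) j - _
        rw [ht.b0]
        rcases j with j | j <;> simp [Pi.single_apply, (Fin.succ_ne_zero j).symm]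
      · show (2 : ℤ) ∣ t (gen (Sum.inr i.succ)) j - _
        rw [ht.b]
        rcases j with j | j <;> simp [vf, Pi.single_apply, eq_comm]
    have hδ2 : ∀ x, (2 : ℤ) ∣ δ x - homologyClass x (Sum.inr 0) := by
      intro x
      have h2 := mod_two hδ (Pi.single (Sum.inr 0) 1) (fun j => by rw [hδg, sub_self]; exact dvd_zero _) x
      have e : ∑ k, (Pi.single (Sum.inr 0) 1 : VV (n + 1)) k *
            homologyClass x k = homologyClass x (Sum.inr 0) := by
        simp [Pi.single_apply]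
      rwa [e] at h2
    -- the pairing
    have hpair : ∀ y, homologyClass (θ⁻¹ y) (Sum.inr 0) = om w (homologyClass y) := by
      intro y
      have e1 : homologyClass (θ⁻¹ y) = ac X (homologyClass y) := by
        have := hθ.inv y
        rwa [inv_inv] at this
      rw [e1, co_inr (ac X (homologyClass y)) 0, ← hX, om_ac]
    refine A0_formula hc ht hact hφ6 (t c)
      (fun y => 6 * ((χ (gen (Sum.inr 0)) : ℤˣ) : ℤ) * δ (θ⁻¹ y)) ?_ ?_ ?_
    · intro y
      funext j
      rw [Pi.add_apply, Pi.smul_apply, smul_eq_mul]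
      exact hf _ (tau_cr ht j) y
    · intro h
      obtain ⟨i, hi | hi⟩ := hwodd
      · have h3 := hodd (Sum.inl i) c
        rw [h, hcw] at h3
        have h4 : w (Sum.map Fin.succ Fin.succ (Sum.inl i)) = 1 := hi
        rw [h4] at h3
        norm_num at h3
      · have h3 := hodd (Sum.inr i) c
        rw [h, hcw] at h3
        have h4 : w (Sum.map Fin.succ Fin.succ (Sum.inr i)) = 1 := hi
        rw [h4] at h3
        norm_num at h3
    · have hne : ∀ y, om w (homologyClass y) = 1 ∨ om w (homologyClass y) = -1 →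
          6 * ((χ (gen (Sum.inr 0)) : ℤˣ) : ℤ) * δ (θ⁻¹ y) ≠ 0 := by
        intro y hy h
        have h3 := hδ2 (θ⁻¹ y)
        rw [hpair] at h3
        have h4 : δ (θ⁻¹ y) = 0 := by
          rcases mul_eq_zero.1 h with h5 | h5
          · rcases mul_eq_zero.1 h5 with h6 | h6
            · norm_num at h6
            · exact absurd h6 (Units.ne_zero _)
          · exact h5
        rw [h4] at h3
        rcases hy with hy | hy <;> · rw [hy] at h3; norm_num at h3
      obtain ⟨i, hi | hi⟩ := hwodd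
      · refine ⟨gen (Sum.inr i.succ), chi0_inr_succ n i, hne _ (Or.inl ?_)⟩
        rw [hcl_gen, single_inr, om_vf', hi]
      · refine ⟨gen (Sum.inl i.succ), chi0_inl n _, hne _ (Or.inr ?_)⟩
        rw [hcl_gen, single_inl, om_ve', hi]

end Pool.Agent.Helper20.PR.P1
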