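import Pool.Agent.Helper20.PR.Star

set_option autoImplicit false

/-!
# Project PR: the congruence subgroup property for the homology of the mod 2 homology cover
-/

namespace Pool.Agent.Helper20.PR.StarMain

open Pool.Agent.H29R2.MG Pool.Agent.Q290.SC
open Pool.Agent.H798R3.MG Pool.Agent.TH35.MG Pool.Agent.Q290.MG
open Pool.Agent.Helper20.PR Pool.Agent.Helper20.PR.Star
open Pool.Agent.R569.CS (act mem_act act_normal act_finiteIndex)

variable {g : ℕ}

theorem om_dvd {m : ℤ} (x y : VV g) (h : ∀ j, m ∣ x j) : m ∣ om x y := by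
  unfold om intersectionForm
  apply Finset.dvd_sum
  intro i _
  exact dvd_sub (Dvd.dvd.mul_right (h _) _) (Dvd.dvd.mul_right (h _) _)

/-- automorphisms acting trivially modulo `6` are symplectic on the homology -/
theorem L6_act {φ : MulAut (SurfaceGroup (g + 1))} (hφ : φ ∈ L6 (g + 1)) :
    ∃ M : SpG (g + 1), Act φ M := by
  obtain ⟨n, hn, hf⟩ := Pool.Agent.Q139.SC.form (g + 1) φ
  apply exists_act
  have h1 : n = 1 := by
    rcases hn with h | h
    · exact h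
    · exfalso
      have e1 := hf (gen (Sum.inl 0)) (gen (Sum.inr 0))
      have e2 : intersectionForm (homologyClass (gen (Sum.inl 0) : SurfaceGroup (g + 1)))
          (homologyClass (gen (Sum.inr 0) : SurfaceGroup (g + 1))) = 1 := by
        rw [hcl_gen, hcl_gen, single_inl, single_inr]
        have := om_ve_vf (g := g + 1) 0 0
        rwa [if_pos rfl] at this
      rw [e2, h] at e1
      set x := homologyClass (φ (gen (Sum.inl 0)))
      set y := homologyClass (φ (gen (Sum.inr 0)))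
      set x0 := homologyClass (gen (Sum.inl 0) : SurfaceGroup (g + 1))
      set y0 := homologyClass (gen (Sum.inr 0) : SurfaceGroup (g + 1))
      have e3 : om x y = om (x - x0) y + om x0 (y - y0) + om x0 y0 := by
        have a1 : x = (x - x0) + x0 := by abel
        have a2 : y = (y - y0) + y0 := by abel
        conv_lhs => rw [a1, om_add_left]
        rw [add_assoc]
        congr 1
        conv_lhs => rw [a2, om_add_right]
      have e4 : (6 : ℤ) ∣ om (x - x0) y := om_dvd _ _ fun j => hφ _ j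
      have e5 : (6 : ℤ) ∣ om x0 (y - y0) := by
        rw [om_swap]
        exact (dvd_neg).2 (om_dvd _ _ fun j => hφ _ j)
      obtain ⟨a, ha⟩ := e4
      obtain ⟨b, hb⟩ := e5
      have e6 : om x0 y0 = 1 := e2
      have e7 : om x y = -1 * 1 := e1
      rw [ha, hb, e6, e7] at e3
      omega
  intro x y
  rw [hf, h1, one_mul]

theorem char_inf {G : Type} [Group G] {K K' : Subgroup G} (h : K.Characteristic)
    (h' : K'.Characteristic) : (K ⊓ K').Characteristic := by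
  rw [Subgroup.characteristic_iff_le_comap]
  intro ψ x hx
  exact ⟨Subgroup.characteristic_iff_le_comap.1 h ψ hx.1,
    Subgroup.characteristic_iff_le_comap.1 h' ψ hx.2⟩

theorem char_iInf {G ι : Type} [Group G] {K : ι → Subgroup G} (h : ∀ i, (K i).Characteristic) :
    (⨅ i, K i).Characteristic := by
  rw [Subgroup.characteristic_iff_le_comap]
  intro ψ x hx
  rw [Subgroup.mem_iInf] at hx
  rw [Subgroup.mem_comap, Subgroup.mem_iInf]
  exact fun i => Subgroup.characteristic_iff_le_comap.1 (h i) ψ (hx i)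

/-- conjugates of automorphisms acting trivially modulo `K` -/
theorem triv_conj {G : Type} [Group G] {K : Subgroup G} (h : K.Characteristic)
    {φ : MulAut G} (hφ : ∀ x, φ x * x⁻¹ ∈ K) (θ : MulAut G) (x : G) :
    (θ⁻¹ * φ * θ) x * x⁻¹ ∈ K := by
  have h1 := Subgroup.characteristic_iff_le_comap.1 h θ⁻¹ (hφ (θ x))
  have h2 : θ⁻¹ (φ (θ x) * (θ x)⁻¹) ∈ K := h1
  rw [map_mul, map_inv, MulAut.inv_apply_self] at h2
  exact h2

theorem star (hT : S_TAU) (hcr : S_CR0) (hact : S_ACT) (htr : S_TRANS) (hdeep : S_DEEP)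
    (hproj : S_PROJ) (htor : S_TOR) (hc0 : S_C0) (hc1 : S_C1) : S_STAR := by
  classical
  intro n hn V hV hVT
  obtain ⟨t, ht⟩ := hT n
  obtain ⟨C, hCc, hCf, hC⟩ := htor (n + 1)
  have hL6n := L6_normal (n + 1)
  let P : Subgroup (MulAut (SurfaceGroup (n + 1))) := act (MonoidHom.id _) C
  have hPf : P.FiniteIndex := act_finiteIndex (MonoidHom.id _) C
  have hN0 : (V ⊓ P).FiniteIndex := inferInstance
  let N : Subgroup (MulAut (SurfaceGroup (n + 1))) := (V ⊓ P).normalCore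
  have hNn : N.Normal := inferInstanceAs (V ⊓ P).normalCore.Normal
  have hNf : N.FiniteIndex := inferInstanceAs (V ⊓ P).normalCore.FiniteIndex
  have hNle : N ≤ V ⊓ P := Subgroup.normalCore_le _
  have hfin : Finite (Ch (n + 1)) := inferInstance
  let _ : Fintype (Ch (n + 1)) := Fintype.ofFinite _
  have claim : ∀ χ : Ch (n + 1), ∃ K : Subgroup (SurfaceGroup (n + 1)), K.Characteristic ∧
      K.FiniteIndex ∧ ∀ φ : MulAut (SurfaceGroup (n + 1)), (∀ x, φ x * x⁻¹ ∈ K) →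
        ∃ ν ∈ N, ν ∈ L6 (n + 1) ∧ (∀ χ', χ' ≠ χ → Tr χ' ν) ∧ Tr χ (ν⁻¹ * φ) := by
    intro χ
    by_cases hχ : χ = 1
    · subst hχ
      obtain ⟨m, hm, h1⟩ := hc1 (n + 1) (by omega) N hNn hNf (Finset.univ.erase 1)
        (Finset.notMem_erase _ _)
      obtain ⟨K, hK1, hK2, hK3⟩ := hdeep n t ht m hm
      refine ⟨K, hK1, hK2, fun φ hφ => ?_⟩
      obtain ⟨hφ6, -, h3⟩ := hK3 φ hφ
      obtain ⟨M, hM⟩ := L6_act hφ6
      obtain ⟨ν, hν, hν6, h4, h5⟩ := h1 M (h3 M hM)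
      refine ⟨ν, hν, hν6, fun χ' hχ' => h4 χ' (Finset.mem_erase.2 ⟨hχ', Finset.mem_univ _⟩), ?_⟩
      apply Tr_of_Act
      have := h5.inv.mul hM
      rwa [inv_mul_cancel] at this
    · obtain ⟨θ, hθ⟩ := htr n (by omega) χ hχ
      obtain ⟨m, hm, h1⟩ := hc0 n hn t ht N hNn hNf (Finset.univ.erase (chi0 n))
        (Finset.notMem_erase _ _)
      obtain ⟨K, hK1, hK2, hK3⟩ := hdeep n t ht m hm
      refine ⟨K, hK1, hK2, fun φ hφ => ?_⟩
      obtain ⟨hφ6, h3, -⟩ := hK3 (θ⁻¹ * φ * θ) (triv_conj hK1 hφ θ)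
      obtain ⟨M, hM⟩ := hact n t ht _ hφ6
      obtain ⟨ν, hν, hν6, h4, h5⟩ := h1 M (h3 M hM)
      refine ⟨θ * ν * θ⁻¹, hNn.conj_mem ν hν θ, hL6n.conj_mem ν hν6 θ, ?_, ?_⟩
      · intro χ' hχ'
        refine (Tr_trans (χ := χ')
          (χ' := χ'.comp (θ : SurfaceGroup (n + 1) →* SurfaceGroup (n + 1)))
          (fun x => rfl)).2 (h4 _ (Finset.mem_erase.2 ⟨?_, Finset.mem_univ _⟩))
        intro h6
        apply hχ'
        apply MonoidHom.ext
        intro x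
        have h7 := DFunLike.congr_fun h6 (θ⁻¹ x)
        have h8 : χ' (θ (θ⁻¹ x)) = chi0 n (θ⁻¹ x) := h7
        rw [← hθ, MulAut.apply_inv_self] at h8
        exact h8
      · have e : (θ * ν * θ⁻¹)⁻¹ * φ = θ * (ν⁻¹ * (θ⁻¹ * φ * θ)) * θ⁻¹ := by group
        rw [e]
        refine (Tr_trans hθ).2 ?_
        have h6 : ν⁻¹ * (θ⁻¹ * φ * θ) ∈ L6 (n + 1) :=
          (L6 _).mul_mem ((L6 _).inv_mem hν6) hφ6
        refine ((hcr n t ht).2.2 _ h6).2 ?_
        have h7 := A0_mul hφ6 (A0_inv hν6 h5) hM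
        rwa [inv_mul_cancel] at h7
  choose K hK1 hK2 hK3 using claim
  obtain ⟨K', hK1', hK2', hK3'⟩ := hdeep n t ht 1 le_rfl
  have hKf : (⨅ χ, K χ).FiniteIndex := Subgroup.finiteIndex_iInf hK2
  refine ⟨((⨅ χ, K χ) ⊓ K') ⊓ C, char_inf (char_inf (char_iInf hK1) hK1') hCc, inferInstance, ?_⟩
  intro φ hφ
  have hφ6 : φ ∈ L6 (n + 1) := (hK3' φ fun x => (hφ x).1.2).1
  have hφC : ∀ x, φ x * x⁻¹ ∈ C := fun x => (hφ x).2
  have hφK : ∀ χ x, φ x * x⁻¹ ∈ K χ := fun χ x => (Subgroup.mem_iInf.1 (hφ x).1.1) χ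
  obtain ⟨ν, hν, hνK⟩ := glue (L := L6 (n + 1)) Finset.univ (fun χ : Ch (n + 1) => KK χ)
    KK_normal (N.subgroupOf (L6 (n + 1))) ⟨φ, hφ6⟩ (by
      intro χ _
      obtain ⟨ν, h1, h2, h3, h4⟩ := hK3 χ φ (hφK χ)
      exact ⟨⟨ν, h2⟩, h1, fun χ' _ hχ' => h3 χ' hχ', h4⟩)
  have hνN : ν.1 ∈ N := hν
  have hψ6 : ν.1⁻¹ * φ ∈ L6 (n + 1) := (L6 _).mul_mem ((L6 _).inv_mem ν.2) hφ6
  have hψT : ∀ χ : Ch (n + 1), Tr χ (ν.1⁻¹ * φ) := fun χ => hνK χ (Finset.mem_univ _)
  have hψC : ν.1⁻¹ * φ ∈ P := P.mul_mem (P.inv_mem (hNle hνN).2) hφC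
  have hψG : ∀ x, (ν.1⁻¹ * φ) x * x⁻¹ ∈ G2 (n + 1) := by
    intro x χ
    rw [map_mul, map_inv, L6_chi hψ6, mul_inv_cancel]
  have hψV : ν.1⁻¹ * φ ∈ V := by
    apply hVT _ hψG
    intro x hx
    exact hC _ (hψC x) (hψG x) (hproj (n + 1) _ hψ6 hψT x hx)
  have h9 := V.mul_mem (hNle hνN).1 hψV
  rwa [mul_inv_cancel_left] at h9

end Pool.Agent.Helper20.PR.StarMain
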