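import Pool.Agent.Helper20.PR.Cr0

set_option autoImplicit false

/-!
# Project PR: twists, general lemmas
-/

namespace Pool.Agent.Helper20.PR.Tw

open Pool.Agent.H29R2.MG Pool.Agent.Q290.SC
open Pool.Agent.H798R3.MG Pool.Agent.TH35.MG Pool.Agent.Q290.MG
open Pool.Agent.Helper20.PR Pool.Agent.Helper20.PR.Tau Pool.Agent.Helper20.PR.Star
  Pool.Agent.Helper20.PR.Cr0

variable {g : ℕ}

/-- every nonzero vector is a multiple of a primitive one -/
theorem prim (u : VV g) (hu : u ≠ 0) : ∃ (d : ℤ) (w w' : VV g), u = d • w ∧ om w w' = 1 := by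
  classical
  let S : Submodule ℤ ℤ :=
    { carrier := {a | ∃ z, om u z = a}
      zero_mem' := ⟨0, by
        have := om_smul_right 0 u u
        simpa using this⟩
      add_mem' := by
        rintro a b ⟨x, rfl⟩ ⟨y, rfl⟩
        exact ⟨x + y, om_add_right _ _ _⟩
      smul_mem' := by
        rintro c a ⟨x, rfl⟩
        exact ⟨c • x, om_smul_right _ _ _⟩ }
  obtain ⟨d, hd⟩ := (IsPrincipalIdealRing.principal S).principal
  have hdS : d ∈ S := by
    rw [hd]
    exact Submodule.mem_span_singleton_self d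
  obtain ⟨z, hz⟩ := hdS
  have hdiv : ∀ x, d ∣ om u x := by
    intro x
    have h1 : om u x ∈ S := ⟨x, rfl⟩
    rw [hd, Submodule.mem_span_singleton] at h1
    obtain ⟨a, ha⟩ := h1
    exact ⟨a, by rw [← ha, smul_eq_mul, mul_comm]⟩
  have hco : ∀ j, d ∣ u j := by
    rintro (i | i)
    · rw [show u (Sum.inl i) = om u (vf i) from co_inl u i]
      exact hdiv _
    · rw [show u (Sum.inr i) = om (ve i) u from co_inr u i, om_swap]
      exact (dvd_neg).2 (hdiv _)
  choose w hw using hco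
  have huw : u = d • (w : VV g) := by
    funext j
    rw [Pi.smul_apply, smul_eq_mul]
    exact hw j
  have hd0 : d ≠ 0 := by
    rintro rfl
    apply hu
    rw [huw, zero_smul]
  refine ⟨d, w, z, huw, ?_⟩
  have h1 : d * om w z = d := by
    rw [← om_smul_left, ← huw]
    exact hz
  exact mul_left_cancel₀ hd0 (h1.trans (mul_one d).symm)

/-- a symplectic matrix with `M - 1` of rank one is a transvection -/
theorem rank_one (M : SpG g) (u : VV g) (l : VV g → ℤ) (h : ∀ v, ac M v = v + l v • u)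
    (hu : u ≠ 0) (hl : ∃ v, l v ≠ 0) :
    ∃ (w w' : VV g) (s : ℤ), om w w' = 1 ∧ s ≠ 0 ∧ M = T w s := by
  obtain ⟨d, w, w', huw, hw⟩ := prim u hu
  have hd0 : d ≠ 0 := by
    rintro rfl
    apply hu
    rw [huw, zero_smul]
  have hL : ∀ v, ac M v = v + (l v * d) • w := by
    intro v
    rw [h v, huw, smul_smul]
  have key : ∀ x, l x * d = (l w' * d) * om w x := by
    intro x
    have h1 := om_ac M x w'
    rw [hL, hL] at h1
    simp only [om_add_left, om_add_right, om_smul_left, om_smul_right, om_self, hw, mul_zero,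
      add_zero] at h1
    have h2 : om x w = - om w x := om_swap _ _
    rw [h2] at h1
    linarith
  refine ⟨w, w', l w' * d, hw, ?_, ?_⟩
  · intro h0
    obtain ⟨v, hv⟩ := hl
    have := key v
    rw [h0, zero_mul] at this
    exact hv (by
      rcases mul_eq_zero.1 this with h1 | h1
      · exact h1
      · exact absurd h1 hd0)
  · apply sp_ext
    intro x
    rw [ac_T, hL, key x]

/-- a crossed homomorphism is additive modulo `2` -/
theorem mod_two {χ : Ch g} {f : SurfaceGroup g → ℤ} (hf : Cr χ f) (c : VV g)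
    (h : ∀ j, (2 : ℤ) ∣ f (gen j) - c j) (x : SurfaceGroup g) :
    (2 : ℤ) ∣ f x - ∑ j, c j * homologyClass x j := by
  have hu : ∀ u : ℤˣ, (2 : ℤ) ∣ ((u : ℤˣ) : ℤ) - 1 := by
    intro u
    rcases Int.units_eq_one_or u with rfl | rfl <;> norm_num
  obtain ⟨z, rfl⟩ := mk_surjective g x
  induction z using FreeGroup.induction_on with
  | C1 =>
    rw [map_one, cr_one hf, hc_one]
    simp
  | of j =>
    have h1 : ∑ k, c k * homologyClass (mk g (FreeGroup.of j)) k = c j := by
      have h2 : homologyClass (mk g (FreeGroup.of j)) = Pi.single j 1 := hcl_gen j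
      rw [h2]
      simp [Pi.single_apply]
    rw [h1]
    exact h j
  | inv_of j hj =>
    rw [map_inv, cr_inv hf, hc_inv]
    obtain ⟨a, ha⟩ := hj
    obtain ⟨b, hb⟩ := hu (χ (mk g (FreeGroup.of j)))
    simp only [Pi.neg_apply, mul_neg, Finset.sum_neg_distrib]
    have e1 : ∑ k, c k * homologyClass (mk g (FreeGroup.of j)) k =
        f (mk g (FreeGroup.of j)) - 2 * a := by linarith
    have e2 : ((χ (mk g (FreeGroup.of j)) : ℤˣ) : ℤ) = 1 + 2 * b := by linarith
    rw [e1, e2]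
    exact ⟨- (b * f (mk g (FreeGroup.of j)) + a), by ring⟩
  | mul x y hx hy =>
    rw [map_mul, hf, hc_mul]
    obtain ⟨a, ha⟩ := hx
    obtain ⟨b, hb⟩ := hy
    obtain ⟨e, he⟩ := hu (χ (mk g x))
    simp only [Pi.add_apply, mul_add, Finset.sum_add_distrib]
    refine ⟨a + b + e * f (mk g y), ?_⟩
    have e2 : ((χ (mk g x) : ℤˣ) : ℤ) = 1 + 2 * e := by linarith
    rw [e2]
    linarith

theorem cr_comp {χ : Ch g} {f : SurfaceGroup g → ℤ} (hf : Cr χ f) (θ : MulAut (SurfaceGroup g)) :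
    Cr (χ.comp (θ : SurfaceGroup g →* SurfaceGroup g)) (fun x => f (θ x)) := by
  intro x y
  show f (θ (x * y)) = _
  rw [map_mul, hf]
  rfl

theorem cr_pow {χ : Ch g} {f : SurfaceGroup g → ℤ} (hf : Cr χ f) (x : SurfaceGroup g)
    (hx : χ x = 1) (m : ℕ) : f (x ^ m) = m * f x := by
  induction m with
  | zero => rw [pow_zero, cr_one hf, Nat.cast_zero, zero_mul]
  | succ m ih =>
    rw [pow_succ, hf, map_pow, hx, one_pow, Units.val_one, one_mul, ih]
    push_cast
    ring

theorem cr_sq {χ : Ch g} {f : SurfaceGroup g → ℤ} (hf : Cr χ f) (x : SurfaceGroup g)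
    (hx : χ x = -1) : f (x ^ 2) = 0 := by
  rw [pow_two, hf, hx]
  simp

theorem cr_six {χ : Ch g} {f : SurfaceGroup g → ℤ} (hf : Cr χ f) (x : SurfaceGroup g)
    (hx : χ x = -1) : f (x ^ 6) = 0 := by
  have h1 : f (x ^ 2) = 0 := cr_sq hf x hx
  have h2 : χ (x ^ 2) = 1 := by rw [map_pow, hx]; norm_num
  rw [show 6 = 2 * 3 from rfl, pow_mul, cr_pow hf _ h2, h1, mul_zero]

/-- the action on the `chi0`-part from the values on the generators -/
theorem A0_formula (hc : S_CR0) {n : ℕ} {t : SurfaceGroup (n + 1) → VV n} (ht : IsTau n t)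
    (ha : S_ACT) {φ : MulAut (SurfaceGroup (n + 1))} (hφ : φ ∈ L6 (n + 1))
    (u : VV n) (l : SurfaceGroup (n + 1) → ℤ) (h : ∀ y, t (φ y) = t y + l y • u)
    (hu : u ≠ 0) (hl : ∃ y, chi0 n y = 1 ∧ l y ≠ 0) :
    ∃ (w w' : VV n) (s : ℤ), om w w' = 1 ∧ s ≠ 0 ∧ A0 t φ (T w s) := by
  obtain ⟨M, hM⟩ := ha n t ht φ hφ
  obtain ⟨hs, -, -⟩ := hc n t ht
  choose Y hY1 hY2 using hs
  obtain ⟨y0, hy0, hl0⟩ := hl
  have h1 : ∀ v, ac M v = v + l (Y v) • u := by
    intro v
    have h2 := hM (Y v) (hY1 v)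
    rw [hY2] at h2
    rw [← h2, h, hY2]
  have h3 : l (Y (t y0)) ≠ 0 := by
    have e1 := h1 (t y0)
    have e2 := hM y0 hy0
    rw [e1, h] at e2
    have e3 : l y0 • u = l (Y (t y0)) • u := add_left_cancel e2
    intro h0
    rw [h0, zero_smul] at e3
    rcases smul_eq_zero.1 e3 with h4 | h4
    · exact hl0 h4
    · exact hu h4
  obtain ⟨w, w', s, hw, hs, rfl⟩ := rank_one M u (fun v => l (Y v)) h1 hu ⟨_, h3⟩
  exact ⟨w, w', s, hw, hs, hM⟩

end Pool.Agent.Helper20.PR.Tw
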